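import Pool.Agent.H590R3.AbParti

/-!
# Cosine coefficients of thin bumps: a two-variable identity
-/

set_option autoImplicit false

namespace Pool.Agent.N315.BM

open Pool.H590R3.Ab Pool.Agent.H984R3.AbPartiOf MeasureTheory

/-- the bump -/
noncomputable def gb : ContDiffBump (0 : ℝ) := ⟨1 / 2, 1, by norm_num, by norm_num⟩

noncomputable def G (u : ℝ) : ℝ := gb u

lemma G_contDiff : ContDiff ℝ 2 G := gb.contDiff

lemma G_one {u : ℝ} (h : |u| ≤ 1 / 2) : G u = 1 :=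
  gb.one_of_mem_closedBall (by rw [mem_closedBall_zero_iff, Real.norm_eq_abs]; exact h)

lemma G_zero (u : ℝ) (h : 1 ≤ |u|) : G u = 0 :=
  gb.zero_of_le_dist (by rw [dist_zero_right, Real.norm_eq_abs]; exact h)

lemma G_abs (u : ℝ) : |G u| ≤ 1 := by
  have h1 : 0 ≤ G u := gb.nonneg
  rw [abs_of_nonneg h1]
  exact gb.le_one

/-- the bumps on the circle -/
noncomputable def Fd (δ θ : ℝ) : ℝ := G ((Real.cos θ - 1) / δ)

lemma Fd_cont (δ : ℝ) : Continuous (Fd δ) :=
  G_contDiff.continuous.comp ((Real.continuous_cos.sub continuous_const).div_const _)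

lemma Fd_even (δ θ : ℝ) : Fd δ (-θ) = Fd δ θ := by
  unfold Fd; rw [Real.cos_neg]

lemma Fd_per (δ θ : ℝ) : Fd δ (θ + 2 * Real.pi) = Fd δ θ := by
  unfold Fd; rw [Real.cos_add_two_pi]

lemma Fd_abs (δ θ : ℝ) : |Fd δ θ| ≤ 1 := G_abs _

lemma Fd_one {δ θ : ℝ} (hδ : 0 < δ) (h : |Real.cos θ - 1| ≤ δ / 2) : Fd δ θ = 1 := by
  apply G_one
  rw [abs_div, abs_of_pos hδ, div_le_iff₀ hδ]
  linarith

lemma Fd_zero {δ θ : ℝ} (hδ : 0 < δ) (h : δ ≤ |Real.cos θ - 1|) : Fd δ θ = 0 := by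
  apply G_zero
  rw [abs_div, abs_of_pos hδ, le_div_iff₀ hδ]
  linarith

lemma dec : Dec_stmt := Pool.Agent.H663R4.AB.dec2 Pool.Agent.H343R3.Ab.dec1

lemma prodS : Prod_stmt := prod series

lemma Fd_summable {δ : ℝ} (hδ : 0 < δ) (hδ1 : δ ≤ 1) : Summable fun k : ℤ => |ca (Fd δ) k| :=
  (dec G G_contDiff G_zero).1 δ hδ hδ1 1

/-- `(cos θ - 1) F_δ` has small norm -/
lemma Fd_small {ε : ℝ} (hε : 0 < ε) : ∃ δ0 : ℝ, 0 < δ0 ∧ ∀ δ : ℝ, 0 < δ → δ < δ0 → δ ≤ 1 →
    Summable (fun k : ℤ => |(ca (Fd δ) (k - 1) + ca (Fd δ) (k + 1)) / 2 - 1 * ca (Fd δ) k|) ∧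
    ∑' k : ℤ, |(ca (Fd δ) (k - 1) + ca (Fd δ) (k + 1)) / 2 - 1 * ca (Fd δ) k| ≤ ε := by
  have hG2 : ContDiff ℝ 2 (fun u => u * G u) := contDiff_id.mul G_contDiff
  obtain ⟨δ0, hδ0, h⟩ := (dec (fun u => u * G u) hG2
    (fun u hu => by rw [G_zero u hu, mul_zero])).2 ε hε
  refine ⟨δ0, hδ0, fun δ hδ hδ2 hδ1 => ?_⟩
  have h1 := h δ hδ hδ2 hδ1 1
  have e1 : ∀ k : ℤ, ca (fun θ => δ * ((Real.cos θ - 1) / δ * G ((Real.cos θ - 1) / δ))) k =
      (ca (Fd δ) (k - 1) + ca (Fd δ) (k + 1)) / 2 - 1 * ca (Fd δ) k := by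
    intro k
    have e2 : (fun θ => δ * ((Real.cos θ - 1) / δ * G ((Real.cos θ - 1) / δ))) =
        fun θ => Real.cos θ * Fd δ θ - Fd δ θ := by
      funext θ
      unfold Fd
      field_simp
    have hcF : Continuous fun θ => Real.cos θ * Fd δ θ := Real.continuous_cos.mul (Fd_cont δ)
    rw [e2, ca_sub hcF (Fd_cont δ), ca_cos_mul (Fd_cont δ), one_mul]
  have e3 : (fun k : ℤ => |(ca (Fd δ) (k - 1) + ca (Fd δ) (k + 1)) / 2 - 1 * ca (Fd δ) k|) =
      fun k : ℤ => |ca (fun θ => δ * ((Real.cos θ - 1) / δ * G ((Real.cos θ - 1) / δ))) k| := by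
    funext k
    rw [e1]
  rw [e3]
  refine ⟨?_, h1⟩
  rw [← e3]
  have s0 := Fd_summable hδ hδ1
  have s1 : Summable fun k : ℤ => |ca (Fd δ) (k - 1)| := by
    have := (Equiv.subRight (1 : ℤ)).summable_iff.2 s0
    exact this
  have s2 : Summable fun k : ℤ => |ca (Fd δ) (k + 1)| := by
    have := (Equiv.addRight (1 : ℤ)).summable_iff.2 s0
    exact this
  refine Summable.of_nonneg_of_le (fun _ => abs_nonneg _) (fun k => ?_) ((s1.add s2).add s0)
  have h2 := abs_sub ((ca (Fd δ) (k - 1) + ca (Fd δ) (k + 1)) / 2) (1 * ca (Fd δ) k)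
  rw [abs_div, abs_two, one_mul] at h2
  rw [one_mul]
  have h3 := abs_add_le (ca (Fd δ) (k - 1)) (ca (Fd δ) (k + 1))
  have h4 := abs_nonneg (ca (Fd δ) (k - 1))
  have h5 := abs_nonneg (ca (Fd δ) (k + 1))
  linarith

/-- the coefficients of `F_δ` sum to `1` -/
lemma Fd_sum {δ : ℝ} (hδ : 0 < δ) (hδ1 : δ ≤ 1) : HasSum (fun k : ℤ => ca (Fd δ) k) 1 := by
  have h1 := series (Fd δ) (Fd_cont δ) (Fd_even δ) (Fd_per δ) (Fd_summable hδ hδ1) 0
  have h2 : Fd δ 0 = 1 := Fd_one hδ (by rw [Real.cos_zero, sub_self, abs_zero]; positivity)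
  rw [h2] at h1
  refine h1.congr_fun (fun k => ?_)
  rw [mul_zero, Real.cos_zero, mul_one]

/-- shifted cosine series -/
lemma cos_shift {H : ℝ → ℝ} (hc : Continuous H) (he : ∀ θ, H (-θ) = H θ)
    (hp : ∀ θ, H (θ + 2 * Real.pi) = H θ) (hs : Summable fun k : ℤ => |ca H k|) (α ψ : ℝ) :
    HasSum (fun l : ℤ => ca H l * Real.cos (α - l * ψ)) (Real.cos α * H ψ) := by
  have h1 := (series H hc he hp hs ψ).mul_left (Real.cos α)
  have hsum : Summable fun l : ℤ => ca H l * Real.sin (l * ψ) := by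
    refine Summable.of_norm_bounded hs (fun l => ?_)
    rw [norm_mul, Real.norm_eq_abs, Real.norm_eq_abs]
    exact mul_le_of_le_one_right (abs_nonneg _) (Real.abs_sin_le_one _)
  have h2 : ∑' l : ℤ, ca H l * Real.sin (l * ψ) = 0 := by
    have h3 : ∑' l : ℤ, ca H l * Real.sin (l * ψ) = ∑' l : ℤ, ca H (-l) * Real.sin ((-l : ℤ) * ψ) :=
      ((Equiv.neg ℤ).tsum_eq (fun l : ℤ => ca H l * Real.sin (l * ψ))).symm
    have h4 : ∀ l : ℤ, ca H (-l) * Real.sin ((-l : ℤ) * ψ) = -(ca H l * Real.sin (l * ψ)) := by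
      intro l
      rw [ca_neg]
      push_cast
      rw [neg_mul, Real.sin_neg, mul_neg]
    rw [tsum_congr h4, tsum_neg] at h3
    linarith
  have h3 : HasSum (fun l : ℤ => Real.sin α * (ca H l * Real.sin (l * ψ))) 0 := by
    have := hsum.hasSum.mul_left (Real.sin α)
    rwa [h2, mul_zero] at this
  have h4 := h1.add h3
  rw [add_zero] at h4
  refine h4.congr_fun (fun l => ?_)
  rw [Real.cos_sub]
  ring

/-- the two-variable identity -/
theorem tri {F H : ℝ → ℝ} (hF : Continuous F) (hF1 : ∀ θ, |F θ| ≤ 1) (hc : Continuous H)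
    (he : ∀ θ, H (-θ) = H θ) (hp : ∀ θ, H (θ + 2 * Real.pi) = H θ)
    (hs : Summable fun k : ℤ => |ca H k|) (h1 : ∀ θ φ, F θ * F φ * H (θ - φ) = 0)
    (h2 : ∀ θ φ, F θ * F φ * H (θ + φ) = 0) (p q : ℤ) :
    HasSum (fun l : ℤ => ca H l * (ca F (p - l) * ca F (q - l))) 0 := by
  have hpi := Real.pi_pos
  have hb : ∀ (m : ℤ) (θ : ℝ), |F θ * Real.cos (m * θ)| ≤ 1 := by
    intro m θ
    rw [abs_mul]
    calc |F θ| * |Real.cos (m * θ)| ≤ 1 * 1 :=
          mul_le_mul (hF1 θ) (Real.abs_cos_le_one _) (abs_nonneg _) zero_le_one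
      _ = 1 := one_mul 1
  have hcm : ∀ m : ℤ, Continuous fun θ : ℝ => F θ * Real.cos (m * θ) := fun m =>
    hF.mul (Real.continuous_cos.comp (continuous_const.mul continuous_id))
  -- pointwise sums
  have hpt : ∀ θ φ : ℝ, HasSum (fun l : ℤ => ca H l * ((F θ * Real.cos ((p - l : ℤ) * θ)) *
      (F φ * Real.cos ((q - l : ℤ) * φ)))) 0 := by
    intro θ φ
    have a1 := cos_shift hc he hp hs (p * θ + q * φ) (θ + φ)
    have a2 := cos_shift hc he hp hs (p * θ - q * φ) (θ - φ)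
    have a3 := ((a1.add a2).mul_left (F θ * F φ / 2))
    have e0 : F θ * F φ / 2 * (Real.cos (p * θ + q * φ) * H (θ + φ) +
        Real.cos (p * θ - q * φ) * H (θ - φ)) = 0 := by
      have b1 := h1 θ φ
      have b2 := h2 θ φ
      linear_combination (Real.cos (p * θ + q * φ) / 2) * b2 + (Real.cos (p * θ - q * φ) / 2) * b1
    rw [e0] at a3
    refine a3.congr_fun (fun l => ?_)
    push_cast
    have c1 : (p * θ + q * φ - l * (θ + φ) : ℝ) = (p - l) * θ + (q - l) * φ := by ring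
    have c2 : (p * θ - q * φ - l * (θ - φ) : ℝ) = (p - l) * θ - (q - l) * φ := by ring
    rw [c1, c2, Real.cos_add, Real.cos_sub]
    ring
  -- integrate over φ
  have hφ : ∀ θ : ℝ, HasSum (fun l : ℤ => ca H l * ((F θ * Real.cos ((p - l : ℤ) * θ)) *
      ca F (q - l))) 0 := by
    intro θ
    have b1 : HasSum (fun l : ℤ => ∫ φ in (0:ℝ)..Real.pi, ca H l *
        ((F θ * Real.cos ((p - l : ℤ) * θ)) * (F φ * Real.cos ((q - l : ℤ) * φ))))
        (∫ φ in (0:ℝ)..Real.pi, (0 : ℝ)) := by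
      refine intervalIntegral.hasSum_integral_of_dominated_convergence
        (fun (l : ℤ) (_ : ℝ) => |ca H l|) (fun l => ?_) (fun l => ?_) ?_ ?_ ?_
      · exact (continuous_const.mul (continuous_const.mul (hcm (q - l)))).aestronglyMeasurable
      · refine Filter.Eventually.of_forall fun φ _ => ?_
        rw [norm_mul, norm_mul, Real.norm_eq_abs, Real.norm_eq_abs, Real.norm_eq_abs]
        refine mul_le_of_le_one_right (abs_nonneg _) ?_
        calc _ ≤ (1 : ℝ) * 1 := mul_le_mul (hb _ _) (hb _ _) (abs_nonneg _) zero_le_one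
          _ = 1 := one_mul 1
      · exact Filter.Eventually.of_forall fun φ _ => hs
      · exact intervalIntegrable_const
      · exact Filter.Eventually.of_forall fun φ _ => hpt θ φ
    rw [intervalIntegral.integral_zero] at b1
    have b2 := b1.mul_left (1 / Real.pi)
    rw [mul_zero] at b2
    refine b2.congr_fun (fun l => ?_)
    rw [intervalIntegral.integral_const_mul, intervalIntegral.integral_const_mul]
    unfold ca
    ring
  -- integrate over θ
  have hbca : ∀ m : ℤ, |ca F m| ≤ 1 := by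
    intro m
    unfold ca
    rw [abs_mul, abs_of_pos (by positivity)]
    have b1 : |∫ θ in (0:ℝ)..Real.pi, F θ * Real.cos (m * θ)| ≤ 1 * |Real.pi - 0| := by
      rw [← Real.norm_eq_abs]
      exact intervalIntegral.norm_integral_le_of_norm_le_const (fun θ _ => hb m θ)
    rw [sub_zero, abs_of_pos hpi, one_mul] at b1
    calc 1 / Real.pi * |∫ θ in (0:ℝ)..Real.pi, F θ * Real.cos (m * θ)| ≤ 1 / Real.pi * Real.pi := by
          gcongr
      _ = 1 := by field_simp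
  have b1 : HasSum (fun l : ℤ => ∫ θ in (0:ℝ)..Real.pi, ca H l *
      ((F θ * Real.cos ((p - l : ℤ) * θ)) * ca F (q - l))) (∫ θ in (0:ℝ)..Real.pi, (0 : ℝ)) := by
    refine intervalIntegral.hasSum_integral_of_dominated_convergence
      (fun (l : ℤ) (_ : ℝ) => |ca H l|) (fun l => ?_) (fun l => ?_) ?_ ?_ ?_
    · exact (continuous_const.mul ((hcm (p - l)).mul continuous_const)).aestronglyMeasurable
    · refine Filter.Eventually.of_forall fun φ _ => ?_
      rw [norm_mul, norm_mul, Real.norm_eq_abs, Real.norm_eq_abs, Real.norm_eq_abs]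
      refine mul_le_of_le_one_right (abs_nonneg _) ?_
      calc _ ≤ (1 : ℝ) * 1 := mul_le_mul (hb _ _) (hbca _) (abs_nonneg _) zero_le_one
        _ = 1 := one_mul 1
    · exact Filter.Eventually.of_forall fun φ _ => hs
    · exact intervalIntegrable_const
    · exact Filter.Eventually.of_forall fun θ _ => hφ θ
  rw [intervalIntegral.integral_zero] at b1
  have b2 := b1.mul_left (1 / Real.pi)
  rw [mul_zero] at b2
  refine b2.congr_fun (fun l => ?_)
  rw [intervalIntegral.integral_const_mul, intervalIntegral.integral_mul_const]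
  unfold ca
  ring

/-- the complementary function `H_δ = 1 - F_δ` -/
lemma ca_compl (δ : ℝ) (k : ℤ) : ca (fun θ => 1 - Fd δ θ) k = (if k = 0 then 1 else 0) - ca (Fd δ) k := by
  rw [ca_sub continuous_const (Fd_cont δ), ca_one]

lemma compl_summable {δ : ℝ} (hδ : 0 < δ) (hδ1 : δ ≤ 1) :
    Summable fun k : ℤ => |ca (fun θ => 1 - Fd δ θ) k| := by
  have s0 := Fd_summable hδ hδ1
  have s1 : Summable fun k : ℤ => |(if k = 0 then 1 else 0 : ℝ)| := by
    refine summable_of_ne_finset_zero (s := {0}) (fun k hk => ?_)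
    rw [Finset.mem_singleton] at hk
    rw [if_neg hk, abs_zero]
  refine Summable.of_nonneg_of_le (fun _ => abs_nonneg _) (fun k => ?_) (s1.add s0)
  rw [ca_compl]
  exact abs_sub _ _

/-- supports: two angles in the support of `F_δ`, `δ ≤ δ' / 8` -/
lemma supp_sub {δ δ' θ φ : ℝ} (hδ : 0 < δ) (hδ' : 8 * δ ≤ δ') :
    Fd δ θ * Fd δ φ * (1 - Fd δ' (θ - φ)) = 0 := by
  by_cases h1 : δ ≤ |Real.cos θ - 1|
  · rw [Fd_zero hδ h1]; ring
  by_cases h2 : δ ≤ |Real.cos φ - 1|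
  · rw [Fd_zero hδ h2]; ring
  push Not at h1 h2
  have h3 : |Real.cos (θ - φ) - 1| ≤ δ' / 2 := by
    have a1 := Real.cos_le_one θ
    have a2 := Real.cos_le_one φ
    have a3 := Real.cos_le_one (θ - φ)
    rw [abs_of_nonpos (by linarith)] at h1 h2 ⊢
    have s1 : Real.cos θ = 1 - 2 * Real.sin (θ / 2) ^ 2 := by
      have := Real.cos_sq' (θ / 2)
      have h := Real.cos_two_mul (θ / 2)
      rw [mul_div_cancel₀ θ two_ne_zero] at h
      rw [h, this]; ring
    have s2 : Real.cos φ = 1 - 2 * Real.sin (φ / 2) ^ 2 := by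
      have := Real.cos_sq' (φ / 2)
      have h := Real.cos_two_mul (φ / 2)
      rw [mul_div_cancel₀ φ two_ne_zero] at h
      rw [h, this]; ring
    have s3 : Real.cos (θ - φ) = 1 - 2 * Real.sin (θ / 2 - φ / 2) ^ 2 := by
      have := Real.cos_sq' (θ / 2 - φ / 2)
      have h := Real.cos_two_mul (θ / 2 - φ / 2)
      rw [show 2 * (θ / 2 - φ / 2) = θ - φ by ring] at h
      rw [h, this]; ring
    rw [s3]
    rw [s1] at h1
    rw [s2] at h2
    rw [Real.sin_sub]
    have c1 := Real.sin_sq_add_cos_sq (θ / 2)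
    have c2 := Real.sin_sq_add_cos_sq (φ / 2)
    set x := Real.sin (θ / 2)
    set y := Real.sin (φ / 2)
    set u := Real.cos (θ / 2)
    set v := Real.cos (φ / 2)
    have d1 : (x * v) ^ 2 ≤ x ^ 2 := by
      rw [mul_pow]
      nlinarith [sq_nonneg x, sq_nonneg y]
    have d2 : (u * y) ^ 2 ≤ y ^ 2 := by
      rw [mul_pow]
      nlinarith [sq_nonneg x, sq_nonneg y]
    nlinarith [sq_nonneg (x * v + u * y)]
  rw [Fd_one (by linarith) h3]
  ring

lemma supp_add {δ δ' θ φ : ℝ} (hδ : 0 < δ) (hδ' : 8 * δ ≤ δ') :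
    Fd δ θ * Fd δ φ * (1 - Fd δ' (θ + φ)) = 0 := by
  have := supp_sub (θ := θ) (φ := -φ) hδ hδ'
  rwa [Fd_even, sub_neg_eq_add] at this

end Pool.Agent.N315.BM
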