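import Pool.Agent.N315.BM.Pairs
import Pool.Agent.TH596.RO.LaC

/-!
# Compact perturbations of the identity: norm continuity of the conjugation action

If `T` is an isometry and `T - 1` is compact, then `U T U⁻¹ → T` in the operator norm if the
isometries `U` tend to `1` strongly: `W = U T U⁻¹ T⁻¹` is an isometry with `(W - 1)² → 0` in norm, and
`2 ^ n ‖W - 1‖ ≤ 2 + C n ‖(W - 1)²‖`. So a separable transitive space with one non-trivial compact
perturbation of the identity among its isometries has such isometries arbitrarily close to `1`.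
-/

set_option autoImplicit false

namespace Pool.Agent.N315.BM

open Pool.H590R3.Ab Pool.Agent.TH596.RO Metric Set

variable {X : Type*} [NormedAddCommGroup X] [NormedSpace ℝ X]

/-- compact operators -/
def CO (a : X →L[ℝ] X) : Prop := IsCompactOperator (a : X → X)

namespace CO

lemma add {a b : X →L[ℝ] X} (ha : CO a) (hb : CO b) : CO (a + b) := IsCompactOperator.add ha hb

lemma sub {a b : X →L[ℝ] X} (ha : CO a) (hb : CO b) : CO (a - b) := IsCompactOperator.sub ha hb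

lemma neg {a : X →L[ℝ] X} (ha : CO a) : CO (-a) := IsCompactOperator.neg ha

lemma smul {a : X →L[ℝ] X} (ha : CO a) (c : ℝ) : CO (c • a) := IsCompactOperator.smul ha c

lemma mul_right {a : X →L[ℝ] X} (ha : CO a) (b : X →L[ℝ] X) : CO (a * b) :=
  IsCompactOperator.comp_clm ha b

lemma mul_left {a : X →L[ℝ] X} (ha : CO a) (b : X →L[ℝ] X) : CO (b * a) :=
  IsCompactOperator.clm_comp ha b

lemma zero : CO (0 : X →L[ℝ] X) := isCompactOperator_zero

end CO

/-- uniform smallness of `(U - 1) K` for `U` near `1` -/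
lemma co_near {K : X →L[ℝ] X} (hK : CO K) {ε : ℝ} (hε : 0 < ε) :
    ∃ (s : Finset X) (r : ℝ), 0 < r ∧ ∀ U : X ≃ₗᵢ[ℝ] X, (∀ z ∈ s, ‖U z - z‖ ≤ r) →
      ‖(op U - 1) * K‖ ≤ ε := by
  have hc : IsCompact (closure ((K : X →ₗ[ℝ] X) '' closedBall 0 1)) :=
    IsCompactOperator.isCompact_closure_image_closedBall (f := (K : X →ₗ[ℝ] X)) hK 1
  obtain ⟨s, hs, hcov⟩ := hc.elim_finite_subcover_image (b := closure ((K : X →ₗ[ℝ] X) '' closedBall 0 1))
    (c := fun z => ball z (ε / 4)) (fun _ _ => isOpen_ball)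
    (fun z hz => mem_iUnion₂.2 ⟨z, hz, mem_ball_self (by positivity)⟩)
  refine ⟨hcov.1.toFinset, ε / 2, by positivity, fun U hU => ?_⟩
  refine ContinuousLinearMap.opNorm_le_of_unit_norm hε.le fun x hx => ?_
  have h1 : K x ∈ closure ((K : X →ₗ[ℝ] X) '' closedBall 0 1) :=
    subset_closure ⟨x, by rw [mem_closedBall_zero_iff, hx], rfl⟩
  obtain ⟨z, hz, hzx⟩ := mem_iUnion₂.1 (hcov.2 h1)
  rw [mem_ball, dist_eq_norm] at hzx
  have h2 := hU z (hcov.1.mem_toFinset.2 hz)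
  have h3 : ((op U - 1) * K) x = (U (K x - z) - (K x - z)) + (U z - z) := by
    show U (K x) - K x = _
    rw [map_sub]
    abel
  rw [h3]
  calc ‖(U (K x - z) - (K x - z)) + (U z - z)‖
      ≤ ‖U (K x - z) - (K x - z)‖ + ‖U z - z‖ := norm_add_le _ _
    _ ≤ (‖U (K x - z)‖ + ‖K x - z‖) + ε / 2 := add_le_add (norm_sub_le _ _) h2
    _ ≤ (ε / 4 + ε / 4) + ε / 2 := by
        rw [U.norm_map]
        linarith
    _ = ε := by ring

/-- an isometry which is almost unipotent of order two is almost the identity -/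
lemma unip_near (n : ℕ) : ∃ C : ℝ, 0 ≤ C ∧ ∀ W : X ≃ₗᵢ[ℝ] X,
    2 ^ n * ‖op W - 1‖ ≤ 2 + C * ‖(op W - 1) * (op W - 1)‖ := by
  induction n with
  | zero =>
    refine ⟨0, le_rfl, fun W => ?_⟩
    have h1 : ‖op W - 1‖ ≤ 2 := by
      refine (norm_sub_le _ _).trans ?_
      have h2 := op_norm_le W
      have h3 : ‖(1 : X →L[ℝ] X)‖ ≤ 1 := ContinuousLinearMap.norm_id_le
      linarith
    rw [pow_zero, one_mul, zero_mul, add_zero]
    exact h1
  | succ n ih =>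
    obtain ⟨C, hC, h⟩ := ih
    refine ⟨4 * C + 2 ^ n, by positivity, fun W => ?_⟩
    have h1 := h (W * W)
    have e1 : op (W * W) - 1 = (op W - 1) * (op W + 1) := by
      rw [op_mul, sub_mul, mul_add, mul_one, one_mul]; abel
    have e2 : (op (W * W) - 1) * (op (W * W) - 1) =
        ((op W - 1) * (op W - 1)) * ((op W + 1) * (op W + 1)) := by
      have hcomm : (op W + 1) * (op W - 1) = (op W - 1) * (op W + 1) := by
        rw [add_mul, mul_sub, sub_mul, mul_add]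
        simp only [mul_one, one_mul]
        abel
      rw [e1]
      calc (op W - 1) * (op W + 1) * ((op W - 1) * (op W + 1))
          = (op W - 1) * ((op W + 1) * (op W - 1)) * (op W + 1) := by simp only [mul_assoc]
        _ = _ := by rw [hcomm]; simp only [mul_assoc]
    have h3 : ‖op W + 1‖ ≤ 2 := by
      refine (norm_add_le _ _).trans ?_
      have h2 := op_norm_le W
      have h3 : ‖(1 : X →L[ℝ] X)‖ ≤ 1 := ContinuousLinearMap.norm_id_le
      linarith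
    have h4 : ‖(op (W * W) - 1) * (op (W * W) - 1)‖ ≤ 4 * ‖(op W - 1) * (op W - 1)‖ := by
      rw [e2]
      calc _ ≤ ‖(op W - 1) * (op W - 1)‖ * ‖(op W + 1) * (op W + 1)‖ := norm_mul_le _ _
        _ ≤ ‖(op W - 1) * (op W - 1)‖ * (2 * 2) := by
            gcongr
            exact (norm_mul_le _ _).trans (mul_le_mul h3 h3 (norm_nonneg _) (by norm_num))
        _ = _ := by ring
    have h5 : 2 * ‖op W - 1‖ ≤ ‖op (W * W) - 1‖ + ‖(op W - 1) * (op W - 1)‖ := by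
      have e3 : (2 : ℝ) • (op W - 1) = (op (W * W) - 1) - (op W - 1) * (op W - 1) := by
        rw [op_mul, two_smul, sub_mul, mul_sub]
        simp only [mul_one, one_mul]
        abel
      have e4 : 2 * ‖op W - 1‖ = ‖(2 : ℝ) • (op W - 1)‖ := by
        rw [norm_smul]; norm_num
      rw [e4, e3]
      exact norm_sub_le _ _
    have h6 : (2 : ℝ) ^ n * (2 * ‖op W - 1‖) ≤
        2 ^ n * (‖op (W * W) - 1‖ + ‖(op W - 1) * (op W - 1)‖) := by gcongr
    have h7 : C * ‖(op (W * W) - 1) * (op (W * W) - 1)‖ ≤ C * (4 * ‖(op W - 1) * (op W - 1)‖) := by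
      gcongr
    calc (2 : ℝ) ^ (n + 1) * ‖op W - 1‖ = 2 ^ n * (2 * ‖op W - 1‖) := by ring
      _ ≤ 2 ^ n * ‖op (W * W) - 1‖ + 2 ^ n * ‖(op W - 1) * (op W - 1)‖ := by
          rw [← mul_add]; exact h6
      _ ≤ 2 + (4 * C + 2 ^ n) * ‖(op W - 1) * (op W - 1)‖ := by
          rw [add_mul]
          linarith

lemma unip_near' {ε : ℝ} (hε : 0 < ε) : ∃ δ : ℝ, 0 < δ ∧ ∀ W : X ≃ₗᵢ[ℝ] X,
    ‖(op W - 1) * (op W - 1)‖ ≤ δ → ‖op W - 1‖ ≤ ε := by
  obtain ⟨n, hn⟩ := pow_unbounded_of_one_lt (3 / ε) (one_lt_two : (1 : ℝ) < 2)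
  obtain ⟨C, hC, h⟩ := unip_near (X := X) n
  refine ⟨1 / (C + 1), by positivity, fun W hW => ?_⟩
  have h1 := h W
  have h2 : C * ‖(op W - 1) * (op W - 1)‖ ≤ 1 := by
    calc C * ‖(op W - 1) * (op W - 1)‖ ≤ C * (1 / (C + 1)) := by gcongr
      _ ≤ 1 := by
        rw [mul_one_div, div_le_one (by positivity)]
        linarith
  have h3 : (2 : ℝ) ^ n * ‖op W - 1‖ ≤ 3 := by linarith
  have h4 : 0 < (2 : ℝ) ^ n := by positivity
  rw [div_lt_iff₀ hε] at hn
  by_contra hcon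
  push Not at hcon
  have : (2 : ℝ) ^ n * ε < 2 ^ n * ‖op W - 1‖ := by gcongr
  linarith

/-- norm continuity of the conjugation -/
theorem conj_near {T : X ≃ₗᵢ[ℝ] X} (hT : CO (op T - 1)) {ε : ℝ} (hε : 0 < ε) :
    ∃ (s : Finset X) (r : ℝ), 0 < r ∧ ∀ U : X ≃ₗᵢ[ℝ] X, (∀ z ∈ s, ‖U z - z‖ ≤ r) →
      ‖op (U * T * U⁻¹) - op T‖ ≤ ε := by
  classical
  obtain ⟨δ, hδ, hW⟩ := unip_near' (X := X) hε
  set K := op T - 1 with hK
  have hK2 : ‖K‖ ≤ 2 := by
    refine (norm_sub_le _ _).trans ?_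
    have h2 := op_norm_le T
    have h3 : ‖(1 : X →L[ℝ] X)‖ ≤ 1 := ContinuousLinearMap.norm_id_le
    linarith
  set η : ℝ := min 1 (δ / 13) with hη
  have hη0 : 0 < η := lt_min one_pos (by positivity)
  obtain ⟨s1, r1, hr1, h1⟩ := co_near hT hη0
  obtain ⟨s2, r2, hr2, h2⟩ := co_near (hT.mul_left (op T⁻¹)) hη0
  refine ⟨s1 ∪ s2, min r1 r2, lt_min hr1 hr2, fun U hU => ?_⟩
  have hU1 : ‖(op U - 1) * K‖ ≤ η := h1 U fun z hz =>
    (hU z (Finset.mem_union_left _ hz)).trans (min_le_left _ _)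
  have hU2 : ‖(op U⁻¹ - 1) * (op T⁻¹ * K)‖ ≤ η := h2 U⁻¹ fun z hz => by
    have h3 : U⁻¹ z - z = -(U⁻¹ (U z - z)) := by
      rw [map_sub]
      have : U⁻¹ (U z) = z := U.symm_apply_apply z
      rw [this]; abel
    rw [h3, norm_neg, (U⁻¹).norm_map]
    exact (hU z (Finset.mem_union_right _ hz)).trans (min_le_right _ _)
  set W := U * T * U⁻¹ * T⁻¹ with hWdef
  have e1 : op W - 1 = (op U - 1) * K * (op U⁻¹ * op T⁻¹) + K * (op U⁻¹ - 1) * op T⁻¹ := by
    have e2 : op W = op U * op T * op U⁻¹ * op T⁻¹ := by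
      rw [hWdef, op_mul, op_mul, op_mul]
    have e3 : (1 : X →L[ℝ] X) = op T * op T⁻¹ := (op_op_inv T).symm
    have e4 : op U * op U⁻¹ = 1 := op_op_inv U
    rw [e2, hK]
    simp only [sub_mul, mul_sub, one_mul, mul_one]
    have e5 : op U * op U⁻¹ * op T⁻¹ = op T⁻¹ := by rw [e4, one_mul]
    simp only [← mul_assoc]
    rw [e5, ← e3]
    abel
  set R1 := (op U - 1) * K * (op U⁻¹ * op T⁻¹) with hR1
  set R2 := K * (op U⁻¹ - 1) * op T⁻¹ with hR2
  have n1 : ‖R1‖ ≤ η := by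
    calc ‖R1‖ ≤ ‖(op U - 1) * K‖ * ‖op U⁻¹ * op T⁻¹‖ := norm_mul_le _ _
      _ ≤ η * (1 * 1) := by
        refine mul_le_mul hU1 ?_ (norm_nonneg _) hη0.le
        exact (norm_mul_le _ _).trans (mul_le_mul (op_norm_le _) (op_norm_le _) (norm_nonneg _)
          zero_le_one)
      _ = η := by ring
  have n3 : ‖op U⁻¹ - 1‖ ≤ 2 := by
    refine (norm_sub_le _ _).trans ?_
    have h2 := op_norm_le U⁻¹
    have h3 : ‖(1 : X →L[ℝ] X)‖ ≤ 1 := ContinuousLinearMap.norm_id_le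
    linarith
  have n2 : ‖R2‖ ≤ 4 := by
    calc ‖R2‖ ≤ ‖K * (op U⁻¹ - 1)‖ * ‖op T⁻¹‖ := norm_mul_le _ _
      _ ≤ (‖K‖ * ‖op U⁻¹ - 1‖) * 1 :=
        mul_le_mul (norm_mul_le _ _) (op_norm_le _) (norm_nonneg _) (by positivity)
      _ ≤ (2 * 2) * 1 := by gcongr
      _ = 4 := by norm_num
  have n4 : ‖R2 * R2‖ ≤ 4 * η := by
    have e2 : R2 * R2 = K * ((op U⁻¹ - 1) * (op T⁻¹ * K)) * ((op U⁻¹ - 1) * op T⁻¹) := by
      rw [hR2]; simp only [mul_assoc]
    rw [e2]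
    calc _ ≤ ‖K * ((op U⁻¹ - 1) * (op T⁻¹ * K))‖ * ‖(op U⁻¹ - 1) * op T⁻¹‖ := norm_mul_le _ _
      _ ≤ (‖K‖ * ‖(op U⁻¹ - 1) * (op T⁻¹ * K)‖) * (‖op U⁻¹ - 1‖ * ‖op T⁻¹‖) :=
        mul_le_mul (norm_mul_le _ _) (norm_mul_le _ _) (norm_nonneg _) (by positivity)
      _ ≤ (2 * η) * (2 * 1) := by
        gcongr
        exact op_norm_le _
      _ = 4 * η := by ring
  have hη1 : η ≤ 1 := min_le_left _ _
  have hη2 : 13 * η ≤ δ := by
    have : η ≤ δ / 13 := min_le_right _ _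
    linarith
  have n5 : ‖(op W - 1) * (op W - 1)‖ ≤ δ := by
    rw [e1, add_mul, mul_add, mul_add]
    calc ‖R1 * R1 + R1 * R2 + (R2 * R1 + R2 * R2)‖
        ≤ ‖R1 * R1 + R1 * R2‖ + ‖R2 * R1 + R2 * R2‖ := norm_add_le _ _
      _ ≤ (‖R1 * R1‖ + ‖R1 * R2‖) + (‖R2 * R1‖ + ‖R2 * R2‖) :=
        add_le_add (norm_add_le _ _) (norm_add_le _ _)
      _ ≤ (‖R1‖ * ‖R1‖ + ‖R1‖ * ‖R2‖) + (‖R2‖ * ‖R1‖ + 4 * η) := by
        gcongr
        · exact norm_mul_le _ _
        · exact norm_mul_le _ _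
        · exact norm_mul_le _ _
      _ ≤ (η * 1 + η * 4) + (4 * η + 4 * η) := by
        gcongr
        exact n1.trans hη1
      _ = 13 * η := by ring
      _ ≤ δ := hη2
  have h5 := hW W n5
  have e3 : op (U * T * U⁻¹) - op T = (op W - 1) * op T := by
    rw [sub_mul, one_mul, hWdef, ← op_mul]
    congr 2
    group
  rw [e3]
  calc ‖(op W - 1) * op T‖ ≤ ‖op W - 1‖ * ‖op T‖ := norm_mul_le _ _
    _ ≤ ε * 1 := mul_le_mul h5 (op_norm_le _) (norm_nonneg _) hε.le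
    _ = ε := mul_one _

/-- compact elements of `DD` vanish -/
lemma dd_compact [CompleteSpace X] (hX : ¬ FiniteDimensional ℝ X) {G : Subgroup (X ≃ₗᵢ[ℝ] X)}
    (hG : AT G) {a : X →L[ℝ] X} (ha : a ∈ DD G) (hc : CO a) : a = 0 := by
  by_contra hne
  have h1 := (core_DD hX hG).2 a ha
  have hn : 0 < ‖a‖ := norm_pos_iff.2 hne
  apply hX
  -- the image of the unit ball is totally bounded, hence so is the unit ball
  have hcc : IsCompact (closure ((a : X →ₗ[ℝ] X) '' closedBall 0 1)) :=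
    IsCompactOperator.isCompact_closure_image_closedBall (f := (a : X →ₗ[ℝ] X)) hc 1
  have htb : TotallyBounded ((a : X →ₗ[ℝ] X) '' closedBall 0 1) :=
    hcc.totallyBounded.subset subset_closure
  have hanti : AntilipschitzWith (Real.toNNReal ‖a‖⁻¹) (a : X → X) := by
    refine AntilipschitzWith.of_le_mul_dist fun x y => ?_
    rw [dist_eq_norm, dist_eq_norm, ← map_sub, h1, Real.coe_toNNReal _ (by positivity),
      ← mul_assoc, inv_mul_cancel₀ hn.ne', one_mul]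
  have hui : IsUniformInducing (a : X → X) := hanti.isUniformInducing a.uniformContinuous
  have htb2 : TotallyBounded (closedBall (0 : X) 1) := (totallyBounded_image_iff hui).1 htb
  have hcb : IsCompact (closedBall (0 : X) 1) :=
    isCompact_iff_totallyBounded_isComplete.2 ⟨htb2, isClosed_closedBall.isComplete⟩
  exact FiniteDimensional.of_isCompact_closedBall₀ ℝ one_pos hcb

/-- compact perturbations of the identity -/
def CP (T : X ≃ₗᵢ[ℝ] X) : Prop := CO (op T - 1)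

lemma CP.inv {T : X ≃ₗᵢ[ℝ] X} (h : CP T) : CP T⁻¹ := by
  have h1 : op T⁻¹ - 1 = -(op T⁻¹ * (op T - 1)) := by
    rw [mul_sub, op_inv_op, mul_one, neg_sub]
  unfold CP
  rw [h1]
  exact (CO.mul_left h _).neg

lemma CP.mul {S T : X ≃ₗᵢ[ℝ] X} (hS : CP S) (hT : CP T) : CP (S * T) := by
  have h1 : op (S * T) - 1 = (op S - 1) * op T + (op T - 1) := by
    rw [sub_mul, one_mul, op_mul]; abel
  unfold CP
  rw [h1]
  exact (CO.mul_right hS _).add hT

lemma CP.conj {S : X ≃ₗᵢ[ℝ] X} (hS : CP S) (T : X ≃ₗᵢ[ℝ] X) : CP (T * S * T⁻¹) := by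
  have h1 : op (T * S * T⁻¹) - 1 = op T * (op S - 1) * op T⁻¹ := by
    rw [mul_sub, sub_mul, mul_one, op_op_inv, op_mul, op_mul]
  unfold CP
  rw [h1]
  exact (CO.mul_left hS _).mul_right _

lemma CP.one : CP (1 : X ≃ₗᵢ[ℝ] X) := by
  unfold CP
  rw [op_one, sub_self]
  exact CO.zero

lemma CP.npow {T : X ≃ₗᵢ[ℝ] X} (h : CP T) (n : ℕ) : CP (T ^ n) := by
  induction n with
  | zero => rw [pow_zero]; exact CP.one
  | succ n ih => rw [pow_succ]; exact ih.mul h

lemma CP.zpow {T : X ≃ₗᵢ[ℝ] X} (h : CP T) (n : ℤ) : CP (T ^ n) := by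
  obtain ⟨k, rfl | rfl⟩ := n.eq_nat_or_neg
  · rw [zpow_natCast]; exact h.npow k
  · rw [zpow_neg, zpow_natCast]; exact (h.npow k).inv

/-- small compact perturbations of the identity -/
theorem small_cp [CompleteSpace X] [TopologicalSpace.SeparableSpace X]
    (hX : ¬ FiniteDimensional ℝ X) {G : Subgroup (X ≃ₗᵢ[ℝ] X)}
    (htr : ∀ x y : X, ‖x‖ = 1 → ‖y‖ = 1 → ∃ T ∈ G, T x = y)
    {T : X ≃ₗᵢ[ℝ] X} (hT : CP T) (hT1 : op T ≠ 1) {ε : ℝ} (hε : 0 < ε) :
    ∃ V : X ≃ₗᵢ[ℝ] X, CP V ∧ op V ≠ 1 ∧ ‖op V - 1‖ ≤ ε := by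
  have hAT : AT G := by
    intro x y hx hy ε hε
    obtain ⟨T, hT, hTx⟩ := htr x y hx hy
    exact ⟨T, hT, by rw [hTx, sub_self, norm_zero]; exact hε⟩
  obtain ⟨s, r, hr, hs⟩ := conj_near hT (half_pos hε)
  have hnot : op T ∉ DD G := by
    intro h
    have h1 : op T - 1 ∈ DD G := Subalgebra.sub_mem _ h (Subalgebra.one_mem _)
    have h2 := dd_compact hX hAT h1 hT
    exact hT1 (sub_eq_zero.1 h2)
  obtain ⟨U, hUG, hUs, hne⟩ : ∃ U ∈ G, (∀ z ∈ s, ‖U z - z‖ ≤ r) ∧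
      (U * T * U⁻¹) * T ≠ T * (U * T * U⁻¹) := by
    by_contra hcon
    push Not at hcon
    apply hnot
    refine loc_single hX htr T (ι := Fin s.card) (fun i => (s.equivFin.symm i : X)) hr
      fun U hU h => ?_
    refine hcon U hU (fun z hz => ?_)
    have := h (s.equivFin ⟨z, hz⟩)
    rwa [Equiv.symm_apply_apply] at this
  set A := U * T * U⁻¹ with hA
  have hAn := hs U hUs
  refine ⟨A * T * A⁻¹ * T⁻¹, (((hT.conj U).mul hT).mul (hT.conj U).inv).mul hT.inv, ?_, ?_⟩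
  · intro h1
    apply hne
    have h2 : A * T * A⁻¹ * T⁻¹ = 1 := op_ext (by rw [h1, op_one])
    have h3 : A * T * A⁻¹ = T := by rwa [mul_inv_eq_one] at h2
    rwa [mul_inv_eq_iff_eq_mul] at h3
  · have e1 : op (A * T * A⁻¹ * T⁻¹) - 1 =
        ((op A - op T) * op T - op T * (op A - op T)) * (op A⁻¹ * op T⁻¹) := by
      have e2 : op T * op A * (op A⁻¹ * op T⁻¹) = 1 := by
        rw [mul_assoc, ← mul_assoc (op A), op_op_inv, one_mul, op_op_inv]
      rw [sub_mul (op A), mul_sub (op T), sub_mul]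
      have e3 : op A * op T - op T * op T - (op T * op A - op T * op T) =
        op A * op T - op T * op A := by abel
      rw [← sub_mul, e3, sub_mul, e2, op_mul, op_mul, op_mul]
      simp only [mul_assoc]
    rw [e1]
    have h3 : ‖(op A - op T) * op T - op T * (op A - op T)‖ ≤ ε := by
      refine (norm_sub_le _ _).trans ?_
      have h4 : ‖(op A - op T) * op T‖ ≤ ε / 2 * 1 :=
        (norm_mul_le _ _).trans (mul_le_mul hAn (op_norm_le _) (norm_nonneg _) (by positivity))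
      have h5 : ‖op T * (op A - op T)‖ ≤ 1 * (ε / 2) :=
        (norm_mul_le _ _).trans (mul_le_mul (op_norm_le _) hAn (norm_nonneg _) zero_le_one)
      linarith
    calc _ ≤ ‖(op A - op T) * op T - op T * (op A - op T)‖ * ‖op A⁻¹ * op T⁻¹‖ :=
          norm_mul_le _ _
      _ ≤ ε * (1 * 1) := by
        refine mul_le_mul h3 ?_ (norm_nonneg _) hε.le
        exact (norm_mul_le _ _).trans (mul_le_mul (op_norm_le _) (op_norm_le _) (norm_nonneg _)
          zero_le_one)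
      _ = ε := by ring

end Pool.Agent.N315.BM
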