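import Pool.Agent.N315.BM.GIrr

/-!
# Transitive spaces with an isometry which is a finite rank perturbation of the identity

The invariant quadratic form `q (c x0) e = e c* c e`; it is bounded (uniform boundedness principle)
and multiplied by a constant by each isometry, hence equal to `‖x‖ ^ 2`.
-/

set_option autoImplicit false

namespace Pool.Agent.N315.BM

open Pool.H590R3.Ab Pool.Agent.TH596.RO

variable {X : Type*} [NormedAddCommGroup X] [NormedSpace ℝ X] {S : PSys X}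

/-- data: infinite dimension, transitivity, a minimal projection and a unit vector in its range -/
structure Datg (S : PSys X) (e : X →L[ℝ] X) (x0 : X) : Prop where
  inf : ¬ FiniteDimensional ℝ X
  tr : Tr X
  mp : MPg S e
  un : ‖x0‖ = 1
  fix : e x0 = x0

namespace Datg

variable {e : X →L[ℝ] X} {x0 : X}

lemma ne0 (D : Datg S e x0) : x0 ≠ 0 := by
  intro h
  have := D.un
  rw [h, norm_zero] at this
  exact zero_ne_one this

lemma rep (D : Datg S e x0) (z : X) : ∃ c d : X →L[ℝ] X, Pg S c d ∧ c x0 = z :=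
  D.mp.cyc D.inf D.tr D.ne0 D.fix z

lemma well (D : Datg S e x0) {c d c' d' : X →L[ℝ] X} (h : Pg S c d) (h' : Pg S c' d')
    (hz : c x0 = c' x0) : e * (d * c) * e = e * (d' * c') * e := by
  have hf : Pg S (c - c') (d - d') := h.sub h'
  obtain ⟨l, -, hl, hl0⟩ := D.mp.lam hf
  have h1 : l • x0 = 0 := by
    have h2 := DFunLike.congr_fun hl x0
    have h3 : e ((d - d') ((c - c') (e x0))) = l • e x0 := h2
    rw [D.fix] at h3
    rw [← h3]
    have h4 : (c - c') x0 = 0 := by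
      show c x0 - c' x0 = 0
      rw [hz, sub_self]
    rw [h4, map_zero, map_zero]
  have hl00 : l = 0 := (smul_eq_zero.1 h1).resolve_right D.ne0
  have h5 : (c - c') * e = 0 := hl0 hl00
  have h6 : e * (d - d') = 0 := by
    have h7 : Pg S ((c - c') * e) (e * (d - d')) := hf.mul D.mp.pr
    rw [h5] at h7
    exact h7.zero_left
  have h7 : c * e = c' * e := by rw [sub_mul] at h5; exact sub_eq_zero.1 h5
  have h8 : e * d = e * d' := by rw [mul_sub] at h6; exact sub_eq_zero.1 h6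
  have h9 : e * (d * c) * e = (e * d) * (c * e) := by simp only [mul_assoc]
  have h10 : e * (d' * c') * e = (e * d') * (c' * e) := by simp only [mul_assoc]
  rw [h9, h10, h7, h8]

/-- the quadratic form -/
noncomputable def q (D : Datg S e x0) (z : X) : ℝ :=
  (D.mp.lam (D.rep z).choose_spec.choose_spec.1).choose

lemma q_spec (D : Datg S e x0) {c d : X →L[ℝ] X} (h : Pg S c d) :
    e * (d * c) * e = D.q (c x0) • e := by
  have h1 := (D.rep (c x0)).choose_spec.choose_spec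
  rw [D.well h h1.1 h1.2.symm]
  exact (D.mp.lam h1.1).choose_spec.2.1

lemma q_nonneg (D : Datg S e x0) (z : X) : 0 ≤ D.q z :=
  (D.mp.lam (D.rep z).choose_spec.choose_spec.1).choose_spec.1

lemma q_x0 (D : Datg S e x0) : D.q x0 = 1 := by
  have h1 := D.q_spec Pg.one
  rw [mul_one, mul_one, D.mp.idem] at h1
  have h2 : (1 : ℝ) • e = D.q x0 • e := by
    rw [one_smul]
    exact h1
  exact (D.mp.smul_inj h2).symm

/-- the bilinear form -/
noncomputable def Bf (D : Datg S e x0) (u v : X) : ℝ := (D.q (u + v) - D.q u - D.q v) / 2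

lemma Bf_spec (D : Datg S e x0) {c d c' d' : X →L[ℝ] X} (h : Pg S c d) (h' : Pg S c' d') :
    e * (d * c' + d' * c) * e = (2 * D.Bf (c x0) (c' x0)) • e := by
  have h1 := D.q_spec (h.add h')
  have h2 := D.q_spec h
  have h3 := D.q_spec h'
  have h4 : (c + c') x0 = c x0 + c' x0 := rfl
  rw [h4] at h1
  have h5 : e * (d * c' + d' * c) * e = e * ((d + d') * (c + c')) * e - e * (d * c) * e -
      e * (d' * c') * e := by
    simp only [mul_add, add_mul]
    abel
  rw [h5, h1, h2, h3, ← sub_smul, ← sub_smul]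
  congr 1
  unfold Bf
  ring

lemma Bf_eq (D : Datg S e x0) {c d c' d' : X →L[ℝ] X} (h : Pg S c d) (h' : Pg S c' d') {s : ℝ}
    (hs : e * (d * c' + d' * c) * e = (2 * s) • e) : D.Bf (c x0) (c' x0) = s := by
  rw [D.Bf_spec h h'] at hs
  have := D.mp.smul_inj hs
  linarith

lemma Bf_symm (D : Datg S e x0) (u v : X) : D.Bf u v = D.Bf v u := by
  unfold Bf
  rw [add_comm u v]
  ring

lemma Bf_add (D : Datg S e x0) (u u' v : X) : D.Bf (u + u') v = D.Bf u v + D.Bf u' v := by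
  obtain ⟨c, d, h, rfl⟩ := D.rep u
  obtain ⟨c', d', h', rfl⟩ := D.rep u'
  obtain ⟨a, b, hab, rfl⟩ := D.rep v
  refine D.Bf_eq (h.add h') hab ?_
  have h1 := D.Bf_spec h hab
  have h2 := D.Bf_spec h' hab
  rw [mul_add (2 : ℝ), add_smul, ← h1, ← h2]
  simp only [mul_add, add_mul]
  abel

lemma Bf_smul (D : Datg S e x0) (r : ℝ) (u v : X) : D.Bf (r • u) v = r * D.Bf u v := by
  obtain ⟨c, d, h, rfl⟩ := D.rep u
  obtain ⟨a, b, hab, rfl⟩ := D.rep v
  refine D.Bf_eq (h.smul r) hab ?_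
  have h1 := D.Bf_spec h hab
  have h2 : (2 * (r * D.Bf (c x0) (a x0))) • e = r • ((2 * D.Bf (c x0) (a x0)) • e) := by
    rw [smul_smul]; ring_nf
  rw [h2, ← h1]
  simp only [mul_add, add_mul, smul_mul_assoc, mul_smul_comm, smul_add]

/-- the bilinear form as a linear map -/
noncomputable def BL (D : Datg S e x0) (v : X) : X →ₗ[ℝ] ℝ where
  toFun u := D.Bf u v
  map_add' u u' := D.Bf_add u u' v
  map_smul' r u := D.Bf_smul r u v

lemma BL_apply (D : Datg S e x0) (v u : X) : D.BL v u = D.Bf u v := rfl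

lemma Bf_adj (D : Datg S e x0) {c d : X →L[ℝ] X} (h : Pg S c d) (u : X) :
    D.Bf u (c x0) = D.Bf (e (d u)) x0 := by
  obtain ⟨a, b, hab, rfl⟩ := D.rep u
  have h1 : e (d (a x0)) = (e * (d * a)) x0 := rfl
  have h2 : Pg S (e * (d * a)) ((b * c) * e) := D.mp.pr.mul (h.symm.mul hab)
  have h3 : D.Bf ((e * (d * a)) x0) ((1 : X →L[ℝ] X) x0) = D.Bf (a x0) (c x0) := by
    refine D.Bf_eq h2 Pg.one ?_
    rw [← D.Bf_spec hab h]
    simp only [mul_one, one_mul, mul_add, add_mul, mul_assoc, D.mp.idem]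
    rw [← mul_assoc e e, D.mp.idem]
  rw [h1]
  exact h3.symm

lemma BL_cont (D : Datg S e x0) (v : X) : Continuous (D.BL v) := by
  obtain ⟨c, d, h, rfl⟩ := D.rep v
  haveI : FiniteDimensional ℝ (LinearMap.range (e : X →ₗ[ℝ] X)) := D.mp.fr
  have h1 : ∀ u, D.BL (c x0) u =
      ((D.BL x0).domRestrict (LinearMap.range (e : X →ₗ[ℝ] X))) ⟨e (d u), ⟨d u, rfl⟩⟩ := by
    intro u
    rw [BL_apply, D.Bf_adj h]
    rfl
  have h2 : Continuous ((D.BL x0).domRestrict (LinearMap.range (e : X →ₗ[ℝ] X))) :=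
    LinearMap.continuous_of_finiteDimensional _
  have h3 : Continuous fun u : X =>
      (⟨e (d u), ⟨d u, rfl⟩⟩ : LinearMap.range (e : X →ₗ[ℝ] X)) :=
    (e.continuous.comp d.continuous).subtype_mk _
  exact (h2.comp h3).congr (fun u => (h1 u).symm)

/-- the bilinear form as a continuous linear functional -/
noncomputable def BC (D : Datg S e x0) (v : X) : X →L[ℝ] ℝ := ⟨D.BL v, D.BL_cont v⟩

lemma BC_apply (D : Datg S e x0) (v u : X) : D.BC v u = D.Bf u v := rfl

lemma q_eq (D : Datg S e x0) (u : X) : D.q u = D.Bf u u := by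
  obtain ⟨c, d, h, rfl⟩ := D.rep u
  have h1 := D.q_spec h
  refine (D.Bf_eq h h ?_).symm
  rw [← two_mul, mul_assoc, mul_assoc, ← mul_assoc e]
  have h2 : e * 2 * (d * c * e) = (2 : ℝ) • (e * (d * c) * e) := by
    rw [two_smul, mul_two]
    simp only [add_mul, mul_assoc]
  rw [h2, h1, smul_smul]

/-- the form is bounded -/
theorem bounded [CompleteSpace X] (D : Datg S e x0) : ∃ M : ℝ, ∀ u, D.q u ≤ M * ‖u‖ ^ 2 := by
  have h1 : ∀ u : X, ∃ C, ∀ v : {v : X // ‖v‖ ≤ 1}, ‖D.BC v.1 u‖ ≤ C := by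
    intro u
    refine ⟨‖D.BC u‖, fun v => ?_⟩
    rw [BC_apply, D.Bf_symm, ← D.BC_apply]
    refine ((D.BC u).le_opNorm _).trans ?_
    calc ‖D.BC u‖ * ‖v.1‖ ≤ ‖D.BC u‖ * 1 := by gcongr; exact v.2
      _ = ‖D.BC u‖ := mul_one _
  obtain ⟨M, hM⟩ := banach_steinhaus h1
  refine ⟨M, fun u => ?_⟩
  by_cases hu : u = 0
  · rw [hu]
    have : D.q 0 = 0 := by
      rw [D.q_eq]
      have := D.Bf_smul 0 0 (0:X)
      rwa [zero_smul, zero_mul] at this
    rw [this]; simp
  have hn : 0 < ‖u‖ := norm_pos_iff.2 hu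
  set v := ‖u‖⁻¹ • u with hv
  have hv1 : ‖v‖ = 1 := by rw [hv, norm_smul, norm_inv, norm_norm, inv_mul_cancel₀ hn.ne']
  have huv : u = ‖u‖ • v := by rw [hv, smul_smul, mul_inv_cancel₀ hn.ne', one_smul]
  have h2 : D.q u = ‖u‖ ^ 2 * D.Bf v v := by
    rw [D.q_eq]
    conv_lhs => rw [huv]
    rw [D.Bf_smul, D.Bf_symm, D.Bf_smul]
    ring
  have h3 : D.Bf v v ≤ M := by
    have h4 := hM ⟨v, hv1.le⟩
    have h5 : |D.BC v v| ≤ M := by
      calc |D.BC v v| = ‖D.BC v v‖ := (Real.norm_eq_abs _).symm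
        _ ≤ ‖D.BC v‖ * ‖v‖ := (D.BC v).le_opNorm v
        _ = ‖D.BC v‖ := by rw [hv1, mul_one]
        _ ≤ M := h4
    exact (le_abs_self _).trans h5
  rw [h2, mul_comm]
  exact mul_le_mul_of_nonneg_right h3 (by positivity)

/-- semi-invariance -/
theorem semi (D : Datg S e x0) (U : X ≃ₗᵢ[ℝ] X) (u : X) : D.q (U u) = D.q (U x0) * D.q u := by
  obtain ⟨c, d, h, rfl⟩ := D.rep u
  obtain ⟨c', d', h', hc'⟩ := D.rep (U x0)
  have hU : ∀ (f : X →L[ℝ] X) (x : X), cj U f (U x) = U (f x) := by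
    intro f x
    show U (f (U⁻¹ (U x))) = U (f x)
    have : U⁻¹ (U x) = x := U.symm_apply_apply x
    rw [this]
  have hfix : cj U e (U x0) = U x0 := by rw [hU, D.fix]
  have hcU := h.conj U
  have heU := D.mp.pr.conj U
  have h1 : (cj U c * (cj U e * c')) x0 = U (c x0) := by
    show cj U c (cj U e (c' x0)) = U (c x0)
    rw [hc', hfix, hU]
  have h2 : (cj U e * c') x0 = U x0 := by
    show cj U e (c' x0) = U x0
    rw [hc', hfix]
  have h3 : Pg S (cj U c * (cj U e * c')) ((d' * cj U e) * cj U d) := hcU.mul (heU.mul h')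
  have h4 : Pg S (cj U e * c') (d' * cj U e) := heU.mul h'
  have h5 := D.q_spec h3
  have h6 := D.q_spec h4
  rw [h1] at h5
  rw [h2] at h6
  have h7 : cj U e * (cj U d * cj U c) * cj U e = D.q (c x0) • cj U e := by
    rw [← map_mul, ← map_mul, ← map_mul, D.q_spec h, map_smul]
  have hidem : cj U e * cj U e = cj U e := by rw [← map_mul, D.mp.idem]
  have h8 : e * ((d' * cj U e) * cj U d * (cj U c * (cj U e * c'))) * e =
      D.q (c x0) • (e * ((d' * cj U e) * (cj U e * c')) * e) := by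
    have h9 : e * ((d' * cj U e) * cj U d * (cj U c * (cj U e * c'))) * e =
        (e * d') * (cj U e * (cj U d * cj U c) * cj U e) * (c' * e) := by
      simp only [mul_assoc]
    have h10 : e * ((d' * cj U e) * (cj U e * c')) * e =
        (e * d') * (cj U e * cj U e) * (c' * e) := by
      simp only [mul_assoc]
    rw [h9, h10, h7, hidem]
    simp only [mul_smul_comm, smul_mul_assoc]
  rw [h8, h6, smul_smul] at h5
  have h9 := D.mp.smul_inj h5
  rw [← h9, mul_comm]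

theorem q_sphere [CompleteSpace X] (D : Datg S e x0) (U : X ≃ₗᵢ[ℝ] X) : D.q (U x0) = 1 := by
  obtain ⟨M, hM⟩ := D.bounded
  have hle : ∀ V : X ≃ₗᵢ[ℝ] X, D.q (V x0) ≤ 1 := by
    intro V
    have hpow : ∀ n : ℕ, D.q ((V ^ n) x0) = D.q (V x0) ^ n := by
      intro n
      induction n with
      | zero =>
        rw [pow_zero, pow_zero]
        exact D.q_x0
      | succ n ih =>
        have h1 : (V ^ (n + 1)) x0 = V ((V ^ n) x0) := by
          rw [pow_succ']; rfl
        rw [h1, D.semi, ih, pow_succ']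
    by_contra hcon
    push Not at hcon
    obtain ⟨n, hn⟩ := pow_unbounded_of_one_lt M hcon
    have h2 := hM ((V ^ n) x0)
    rw [hpow, (V ^ n).norm_map, D.un] at h2
    linarith
  have h1 : D.q (U⁻¹ x0) * D.q (U x0) = 1 := by
    have h2 := D.semi U⁻¹ (U x0)
    have h3 : U⁻¹ (U x0) = x0 := U.symm_apply_apply x0
    rw [h3, D.q_x0] at h2
    exact h2.symm
  have h2 := hle U
  have h3 := hle U⁻¹
  have h4 := D.q_nonneg (U x0)
  have h5 := D.q_nonneg (U⁻¹ x0)
  nlinarith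

theorem q_norm [CompleteSpace X] (D : Datg S e x0) (u : X) : D.q u = ‖u‖ ^ 2 := by
  by_cases hu : u = 0
  · rw [hu, D.q_eq]
    have := D.Bf_smul 0 0 (0:X)
    rw [zero_smul, zero_mul] at this
    rw [this]; simp
  have hn : 0 < ‖u‖ := norm_pos_iff.2 hu
  set v := ‖u‖⁻¹ • u with hv
  have hv1 : ‖v‖ = 1 := by rw [hv, norm_smul, norm_inv, norm_norm, inv_mul_cancel₀ hn.ne']
  have huv : u = ‖u‖ • v := by rw [hv, smul_smul, mul_inv_cancel₀ hn.ne', one_smul]
  obtain ⟨U, hU⟩ := D.tr x0 v D.un hv1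
  have h1 := D.q_sphere U
  rw [hU] at h1
  rw [D.q_eq]
  conv_lhs => rw [huv]
  rw [D.Bf_smul, D.Bf_symm, D.Bf_smul, ← D.q_eq, h1]
  ring

theorem par [CompleteSpace X] (D : Datg S e x0) (u v : X) :
    ‖u + v‖ * ‖u + v‖ + ‖u - v‖ * ‖u - v‖ = 2 * (‖u‖ * ‖u‖ + ‖v‖ * ‖v‖) := by
  have h1 := D.q_norm (u + v)
  have h2 := D.q_norm (u - v)
  have h3 := D.q_norm u
  have h4 := D.q_norm v
  rw [D.q_eq] at h1 h2 h3 h4
  have hneg : ∀ a b : X, D.Bf (-a) b = -D.Bf a b := by
    intro a b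
    have := D.Bf_smul (-1) a b
    rwa [neg_smul, one_smul, neg_one_mul] at this
  rw [D.Bf_add, D.Bf_symm u, D.Bf_symm v, D.Bf_add, D.Bf_add] at h1
  rw [sub_eq_add_neg u v, D.Bf_add, D.Bf_symm u, hneg, D.Bf_symm v, D.Bf_add, D.Bf_add, hneg, hneg]
    at h2
  have h5 : ‖u - v‖ = ‖u + -v‖ := by rw [sub_eq_add_neg]
  rw [h5]
  nlinarith [h1, h2, h3, h4]

end Datg

/-- A transitive infinite-dimensional Banach space with a pair system which contains an operator
`≠ 0` of finite rank is a Hilbert space. -/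
theorem finite_rank_g [CompleteSpace X] (hX : ¬ FiniteDimensional ℝ X) (htr : Tr X)
    {a b : X →L[ℝ] X} (hab : Pg S a b) (ha : a ≠ 0) (hf : FR a) (u v : X) :
    ‖u + v‖ * ‖u + v‖ + ‖u - v‖ * ‖u - v‖ = 2 * (‖u‖ * ‖u‖ + ‖v‖ * ‖v‖) := by
  obtain ⟨e, he⟩ := exists_MPg hab ha hf
  obtain ⟨x, hx, hex⟩ := he.exists_vec
  have hx' : ‖x‖ ≠ 0 := norm_ne_zero_iff.2 hx
  have D : Datg S e (‖x‖⁻¹ • x) :=
    ⟨hX, htr, he, by rw [norm_smul, norm_inv, norm_norm, inv_mul_cancel₀ hx'],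
      by rw [map_smul, hex]⟩
  exact D.par u v

end Pool.Agent.N315.BM
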