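import Pool.Agent.N315.BM.LF
import Pool.Agent.N315.BM.GForm

/-!
# The discrete case: the pair system of the compact perturbations of the identity
-/

set_option autoImplicit false

namespace Pool.Agent.N315.BM

open Pool.H590R3.Ab Pool.Agent.TH596.RO Pool.Agent.H984R3.AbPartiOf Filter Topology

variable {X : Type*} [NormedAddCommGroup X] [NormedSpace ℝ X]

/-- pairs of inverse group elements -/
def GS (s : Set (X ≃ₗᵢ[ℝ] X)) : Set ((X →L[ℝ] X) × (X →L[ℝ] X)) :=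
  {p | ∃ T ∈ Subgroup.closure s, p = (op T, op T⁻¹)}

/-- closed span -/
noncomputable def TC (s : Set (X ≃ₗᵢ[ℝ] X)) : Submodule ℝ ((X →L[ℝ] X) × (X →L[ℝ] X)) :=
  (Submodule.span ℝ (GS s)).topologicalClosure

lemma GS_sub_TC {s : Set (X ≃ₗᵢ[ℝ] X)} {p : (X →L[ℝ] X) × (X →L[ℝ] X)} (hp : p ∈ GS s) :
    p ∈ TC s := Submodule.le_topologicalClosure _ (Submodule.subset_span hp)

lemma TC_closed (s : Set (X ≃ₗᵢ[ℝ] X)) :
    IsClosed (TC s : Set ((X →L[ℝ] X) × (X →L[ℝ] X))) :=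
  Submodule.isClosed_topologicalClosure _

lemma TC_map {s s' : Set (X ≃ₗᵢ[ℝ] X)}
    (f : ((X →L[ℝ] X) × (X →L[ℝ] X)) →L[ℝ] ((X →L[ℝ] X) × (X →L[ℝ] X)))
    (h : ∀ p ∈ GS s, f p ∈ TC s') {p : (X →L[ℝ] X) × (X →L[ℝ] X)} (hp : p ∈ TC s) :
    f p ∈ TC s' := by
  have h1 : TC s ≤ (TC s').comap (f : _ →ₗ[ℝ] _) := by
    refine Submodule.topologicalClosure_minimal _ ?_ ((TC_closed s').preimage f.continuous)
    rw [Submodule.span_le]
    exact h
  exact h1 hp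

lemma TC_mono {s s' : Set (X ≃ₗᵢ[ℝ] X)} (h : s ⊆ s') : TC s ≤ TC s' := by
  refine Submodule.topologicalClosure_mono (Submodule.span_mono ?_)
  rintro p ⟨T, hT, rfl⟩
  exact ⟨T, Subgroup.closure_mono h hT, rfl⟩

lemma TC_mul {s : Set (X ≃ₗᵢ[ℝ] X)} {p q : (X →L[ℝ] X) × (X →L[ℝ] X)} (hp : p ∈ TC s)
    (hq : q ∈ TC s) : (p.1 * q.1, q.2 * p.2) ∈ TC s := by
  let F : ((X →L[ℝ] X) × (X →L[ℝ] X)) →
      ((X →L[ℝ] X) × (X →L[ℝ] X)) →L[ℝ] ((X →L[ℝ] X) × (X →L[ℝ] X)) := fun q =>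
    (((ContinuousLinearMap.mul ℝ (X →L[ℝ] X)).flip q.1).comp
      (ContinuousLinearMap.fst ℝ (X →L[ℝ] X) (X →L[ℝ] X))).prod
      ((ContinuousLinearMap.mul ℝ (X →L[ℝ] X) q.2).comp
        (ContinuousLinearMap.snd ℝ (X →L[ℝ] X) (X →L[ℝ] X)))
  let F' : ((X →L[ℝ] X) × (X →L[ℝ] X)) →
      ((X →L[ℝ] X) × (X →L[ℝ] X)) →L[ℝ] ((X →L[ℝ] X) × (X →L[ℝ] X)) := fun p =>
    ((ContinuousLinearMap.mul ℝ (X →L[ℝ] X) p.1).comp
      (ContinuousLinearMap.fst ℝ (X →L[ℝ] X) (X →L[ℝ] X))).prod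
      (((ContinuousLinearMap.mul ℝ (X →L[ℝ] X)).flip p.2).comp
        (ContinuousLinearMap.snd ℝ (X →L[ℝ] X) (X →L[ℝ] X)))
  have h1 : ∀ q ∈ GS s, ∀ p ∈ TC s, (p.1 * q.1, q.2 * p.2) ∈ TC s := by
    rintro q ⟨S, hS, rfl⟩ p hp
    refine TC_map (F (op S, op S⁻¹)) ?_ hp
    rintro _ ⟨T, hT, rfl⟩
    refine GS_sub_TC ⟨T * S, Subgroup.mul_mem _ hT hS, ?_⟩
    show (op T * op S, op S⁻¹ * op T⁻¹) = _
    rw [mul_inv_rev, op_mul, op_mul]
  exact TC_map (F' p) (fun q hq => h1 q hq p hp) hq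

/-- the pair system -/
noncomputable def psys [CompleteSpace X] (hd : Dis X) (htr : Tr X) {T0 : X ≃ₗᵢ[ℝ] X} (hT0 : CP T0)
    (hT01 : op T0 ≠ 1) : PSys X where
  P a b := ∃ s : Set (X ≃ₗᵢ[ℝ] X), s.Finite ∧ (∀ T ∈ s, CP T) ∧ (a, b) ∈ TC s
  psymm := by
    rintro a b ⟨s, hs, hc, h⟩
    refine ⟨s, hs, hc, ?_⟩
    refine TC_map (s := s) ((ContinuousLinearMap.snd ℝ (X →L[ℝ] X) (X →L[ℝ] X)).prod
      (ContinuousLinearMap.fst ℝ (X →L[ℝ] X) (X →L[ℝ] X))) ?_ h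
    rintro _ ⟨T, hT, rfl⟩
    refine GS_sub_TC ⟨T⁻¹, Subgroup.inv_mem _ hT, ?_⟩
    show (op T⁻¹, op T) = _
    rw [inv_inv]
  padd := by
    rintro a b a' b' ⟨s, hs, hc, h⟩ ⟨s', hs', hc', h'⟩
    refine ⟨s ∪ s', hs.union hs', ?_, ?_⟩
    · rintro T (hT | hT)
      · exact hc T hT
      · exact hc' T hT
    · exact Submodule.add_mem _ (TC_mono Set.subset_union_left h)
        (TC_mono Set.subset_union_right h')
  psmul := by
    rintro c a b ⟨s, hs, hc, h⟩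
    exact ⟨s, hs, hc, Submodule.smul_mem _ c h⟩
  pone := by
    refine ⟨∅, Set.finite_empty, fun T hT => absurd hT (Set.notMem_empty T), GS_sub_TC ⟨1,
      Subgroup.one_mem _, ?_⟩⟩
    rw [inv_one, op_one]
  pmul := by
    rintro a b a' b' ⟨s, hs, hc, h⟩ ⟨s', hs', hc', h'⟩
    refine ⟨s ∪ s', hs.union hs', ?_, ?_⟩
    · rintro T (hT | hT)
      · exact hc T hT
      · exact hc' T hT
    · exact TC_mul (TC_mono Set.subset_union_left h) (TC_mono Set.subset_union_right h')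
  pconj := by
    rintro U a b ⟨s, hs, hc, h⟩
    refine ⟨(fun T => U * T * U⁻¹) '' s, hs.image _, ?_, ?_⟩
    · rintro _ ⟨T, hT, rfl⟩
      exact (hc T hT).conj U
    · refine TC_map (s := s) (((cjL U).comp
        (ContinuousLinearMap.fst ℝ (X →L[ℝ] X) (X →L[ℝ] X))).prod ((cjL U).comp
        (ContinuousLinearMap.snd ℝ (X →L[ℝ] X) (X →L[ℝ] X)))) ?_ h
      rintro _ ⟨T, hT, rfl⟩
      refine GS_sub_TC ⟨U * T * U⁻¹, ?_, ?_⟩
      · induction hT using Subgroup.closure_induction with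
        | mem T hT => exact Subgroup.subset_closure ⟨T, hT, rfl⟩
        | one =>
          rw [mul_one, mul_inv_cancel]
          exact Subgroup.one_mem _
        | mul S T _ _ h1 h2 =>
          have : U * (S * T) * U⁻¹ = (U * S * U⁻¹) * (U * T * U⁻¹) := by group
          rw [this]
          exact Subgroup.mul_mem _ h1 h2
        | inv T _ h1 =>
          have : U * T⁻¹ * U⁻¹ = (U * T * U⁻¹)⁻¹ := by group
          rw [this]
          exact Subgroup.inv_mem _ h1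
      · show (cj U (op T), cj U (op T⁻¹)) = _
        rw [cj_op', cj_op', show (U * T * U⁻¹)⁻¹ = U * T⁻¹ * U⁻¹ by group]
  pgood := by
    rintro a b ⟨s, hs, hc, h⟩ F hF
    obtain ⟨W, hWfd, hFW, hWs⟩ := lf' hd htr hT0 hT01 hs.toFinset
      (fun T hT => hc T (hs.mem_toFinset.1 hT)) F hF
    haveI := hWfd
    have hWT : ∀ T ∈ Subgroup.closure s, ∀ w ∈ W, T w ∈ W := by
      intro T hT
      induction hT using Subgroup.closure_induction with
      | mem T hT => exact hWs T (hs.mem_toFinset.2 hT)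
      | one => exact fun w hw => hw
      | mul S T _ _ h1 h2 => exact fun w hw => h1 _ (h2 w hw)
      | inv T _ h1 => exact fun w hw => inv_mem h1 hw
    obtain ⟨β0, hs0, hp0, hi0⟩ := exists_inv_form W
    obtain ⟨π, hπ⟩ := Submodule.ClosedComplemented.of_finiteDimensional W
    have hπ' : ∀ u (hu : u ∈ W), π u = ⟨u, hu⟩ := fun u hu => hπ ⟨u, hu⟩
    let β : X →ₗ[ℝ] X →ₗ[ℝ] ℝ := β0.compl₁₂ (π : X →ₗ[ℝ] W) (π : X →ₗ[ℝ] W)
    have hβ : ∀ u v, β u v = β0 (π u) (π v) := fun u v => rfl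
    have hβc1 : ∀ v, Continuous fun u => β u v := fun v => by
      have h1 : Continuous (β0.flip (π v)) := LinearMap.continuous_of_finiteDimensional _
      exact h1.comp π.continuous
    have hβc2 : ∀ u, Continuous fun v => β u v := fun u => by
      have h1 : Continuous (β0 (π u)) := LinearMap.continuous_of_finiteDimensional _
      exact h1.comp π.continuous
    have hWcl : IsClosed (W : Set X) := Submodule.closed_of_finiteDimensional _
    -- the generators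
    have hgen : ∀ p ∈ GS s, (∀ u ∈ W, p.1 u ∈ W) ∧ (∀ u ∈ W, p.2 u ∈ W) ∧
        ∀ u ∈ W, ∀ v ∈ W, β (p.1 u) v = β u (p.2 v) := by
      rintro _ ⟨T, hT, rfl⟩
      have hp1 := hWT T hT
      let Tw : W →ₗ[ℝ] W := (T.toLinearEquiv : X →ₗ[ℝ] X).restrict hp1
      have hTwn : ∀ u, ‖Tw u‖ = ‖u‖ := fun u => T.norm_map u
      let Ti : W →ₗᵢ[ℝ] W := ⟨Tw, hTwn⟩
      let Te : W ≃ₗᵢ[ℝ] W := Ti.toLinearIsometryEquiv rfl
      have hTe : ∀ u : W, ((Te u : W) : X) = T u := fun u => rfl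
      have hinv : ∀ u (hu : u ∈ W), T⁻¹ u = (Te.symm ⟨u, hu⟩ : W) := by
        intro u hu
        have h1 : T ((Te.symm ⟨u, hu⟩ : W) : X) = u := by
          rw [← hTe, Te.apply_symm_apply]
        have h2 : T⁻¹ (T ((Te.symm ⟨u, hu⟩ : W) : X)) = T⁻¹ u := by rw [h1]
        rw [← h2]
        exact T.symm_apply_apply _
      refine ⟨hp1, fun u hu => ?_, fun u hu v hv => ?_⟩
      · show T⁻¹ u ∈ W
        rw [hinv u hu]
        exact Subtype.mem _
      · show β (T u) v = β u (T⁻¹ v)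
        have hTu : T u ∈ W := hp1 u hu
        have hTv : T⁻¹ v ∈ W := by rw [hinv v hv]; exact Subtype.mem _
        rw [hβ, hβ, hπ' _ hTu, hπ' _ hv, hπ' _ hu, hπ' _ hTv]
        have e1 : (⟨T u, hTu⟩ : W) = Te ⟨u, hu⟩ := rfl
        have e2 : (⟨T⁻¹ v, hTv⟩ : W) = Te.symm ⟨v, hv⟩ := Subtype.ext (hinv v hv)
        rw [e1, e2]
        have h3 := hi0 Te ⟨u, hu⟩ (Te.symm ⟨v, hv⟩)
        rw [Te.apply_symm_apply] at h3
        exact h3
    let t : Submodule ℝ ((X →L[ℝ] X) × (X →L[ℝ] X)) :=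
      { carrier := {p | (∀ u ∈ W, p.1 u ∈ W) ∧ (∀ u ∈ W, p.2 u ∈ W) ∧
          ∀ u ∈ W, ∀ v ∈ W, β (p.1 u) v = β u (p.2 v)}
        zero_mem' := by
          refine ⟨fun u _ => W.zero_mem, fun u _ => W.zero_mem, fun u _ v _ => ?_⟩
          show β (0 : X) v = β u (0 : X)
          rw [map_zero, map_zero, LinearMap.zero_apply]
        add_mem' := by
          intro p q h1 h2
          refine ⟨fun u hu => W.add_mem (h1.1 u hu) (h2.1 u hu),
            fun u hu => W.add_mem (h1.2.1 u hu) (h2.2.1 u hu), fun u hu v hv => ?_⟩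
          show β (p.1 u + q.1 u) v = β u (p.2 v + q.2 v)
          rw [map_add, map_add, LinearMap.add_apply, h1.2.2 u hu v hv, h2.2.2 u hu v hv]
        smul_mem' := by
          intro c p h1
          refine ⟨fun u hu => W.smul_mem c (h1.1 u hu),
            fun u hu => W.smul_mem c (h1.2.1 u hu), fun u hu v hv => ?_⟩
          show β (c • p.1 u) v = β u (c • p.2 v)
          rw [map_smul, map_smul, LinearMap.smul_apply, h1.2.2 u hu v hv] }
    have htcl : IsClosed (t : Set ((X →L[ℝ] X) × (X →L[ℝ] X))) := by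
      have c1 : ∀ u : X, Continuous fun p : (X →L[ℝ] X) × (X →L[ℝ] X) => p.1 u := fun u =>
        (ContinuousLinearMap.apply ℝ X u).continuous.comp continuous_fst
      have c2 : ∀ u : X, Continuous fun p : (X →L[ℝ] X) × (X →L[ℝ] X) => p.2 u := fun u =>
        (ContinuousLinearMap.apply ℝ X u).continuous.comp continuous_snd
      have e1 : (t : Set ((X →L[ℝ] X) × (X →L[ℝ] X))) =
          (⋂ u ∈ W, {p | p.1 u ∈ W}) ∩ ((⋂ u ∈ W, {p | p.2 u ∈ W}) ∩
            ⋂ u ∈ W, ⋂ v ∈ W, {p | β (p.1 u) v = β u (p.2 v)}) := by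
        ext p
        simp only [Set.mem_inter_iff, Set.mem_iInter]
        rfl
      rw [e1]
      refine IsClosed.inter ?_ (IsClosed.inter ?_ ?_)
      · exact isClosed_biInter fun u _ => hWcl.preimage (c1 u)
      · exact isClosed_biInter fun u _ => hWcl.preimage (c2 u)
      · refine isClosed_biInter fun u _ => isClosed_biInter fun v _ => ?_
        exact isClosed_eq ((hβc1 v).comp (c1 u)) ((hβc2 u).comp (c2 v))
    have hTCt : TC s ≤ t := by
      refine Submodule.topologicalClosure_minimal _ ?_ htcl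
      rw [Submodule.span_le]
      exact hgen
    obtain ⟨h1, h2, h3⟩ := hTCt h
    refine ⟨W, β, hWfd, hFW, fun u v => ?_, fun u hu hu0 => ?_, h1, h2, h3⟩
    · rw [hβ, hβ, hs0]
    · rw [hβ, hπ' u hu]
      exact hp0 _ (fun h => hu0 (by simpa using congrArg Subtype.val h))

/-- the discrete case -/
theorem discrete_case [CompleteSpace X] (hX : ¬ FiniteDimensional ℝ X) (hd : Dis X) (htr : Tr X)
    {T0 : X ≃ₗᵢ[ℝ] X} (hT0 : CP T0) (hT01 : op T0 ≠ 1) (u v : X) :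
    ‖u + v‖ * ‖u + v‖ + ‖u - v‖ * ‖u - v‖ = 2 * (‖u‖ * ‖u‖ + ‖v‖ * ‖v‖) := by
  obtain ⟨x0, hx0⟩ : ∃ x, T0 x ≠ x := by
    by_contra h
    push Not at h
    exact hT01 (ContinuousLinearMap.ext h)
  obtain ⟨δ0, hδ0, h⟩ := Fop_ne T0 hx0
  have h1 : min (δ0 / 2) 1 ≤ δ0 / 2 := min_le_left _ _
  have h2 : min (δ0 / 2) 1 ≤ 1 := min_le_right _ _
  have h3 : 0 < min (δ0 / 2) 1 := lt_min (by positivity) one_pos
  set δ := min (δ0 / 2) 1 with hδ
  have hne : QQ T0 δ x0 ≠ 0 := h δ h3 (by linarith) h2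
  have hne' : QQ T0 δ ≠ 0 := by
    intro h0
    rw [h0] at hne
    exact hne rfl
  refine finite_rank_g hX htr (S := psys hd htr hT0 hT01) (a := QQ T0 δ) (b := QQ T0 δ) ?_ hne'
    (fr_Fop hT0 h3 h2) u v
  refine ⟨{T0}, Set.finite_singleton T0, ?_, ?_⟩
  · intro T hT
    rw [Set.mem_singleton_iff.1 hT]
    exact hT0
  · have a1 : HasSum (fun k : ℤ => ca (fun θ => 1 - Fd δ θ) k • op (T0 ^ k)) (QQ T0 δ) :=
      (summable_term T0 (compl_summable h3 h2)).hasSum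
    have a2 : HasSum (fun k : ℤ => ca (fun θ => 1 - Fd δ θ) k • op (T0⁻¹ ^ k)) (QQ T0 δ) := by
      have := (summable_term T0⁻¹ (compl_summable h3 h2)).hasSum
      have e1 : Fop T0⁻¹ (ca (fun θ => 1 - Fd δ θ)) = QQ T0 δ := Fop_inv T0 _
      rw [← e1]
      exact this
    refine (TC_closed _).mem_of_tendsto (a1.prodMk a2) (Eventually.of_forall fun s => ?_)
    refine Submodule.sum_mem _ fun k _ => ?_
    have e1 : (ca (fun θ => 1 - Fd δ θ) k • op (T0 ^ k), ca (fun θ => 1 - Fd δ θ) k •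
        op (T0⁻¹ ^ k)) = ca (fun θ => 1 - Fd δ θ) k • (op (T0 ^ k), op (T0 ^ k)⁻¹) := by
      rw [inv_zpow]
      rfl
    rw [e1]
    refine Submodule.smul_mem _ _ (GS_sub_TC ⟨T0 ^ k, ?_, rfl⟩)
    exact Subgroup.zpow_mem _ (Subgroup.subset_closure (Set.mem_singleton T0)) k

end Pool.Agent.N315.BM
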