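import Pool.Agent.N315.BM.Form

/-!
# Skew-hermitian operators: generators of one-parameter groups of isometries
-/

set_option autoImplicit false

namespace Pool.Agent.N315.BM

open Pool.H590R3.Ab Pool.Agent.TH596.RO NormedSpace Filter Topology

variable {X : Type*} [NormedAddCommGroup X] [NormedSpace ℝ X]

noncomputable local instance : NormedAlgebra ℚ (X →L[ℝ] X) := NormedAlgebra.restrictScalars ℚ ℝ _

/-- skew-hermitian operators -/
def SH (A : X →L[ℝ] X) : Prop := ∀ t : ℝ, ‖exp (t • A)‖ ≤ 1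

/-- infinitesimal form -/
def Qd (A : X →L[ℝ] X) : Prop := ∃ c r : ℝ, 0 < r ∧ ∀ h : ℝ, |h| ≤ r → ‖1 + h • A‖ ≤ 1 + c * h ^ 2

lemma one_le' : ‖(1 : X →L[ℝ] X)‖ ≤ 1 := ContinuousLinearMap.norm_id_le

lemma pow_le' (A : X →L[ℝ] X) (n : ℕ) : ‖A ^ n‖ ≤ ‖A‖ ^ n := by
  induction n with
  | zero => rw [pow_zero, pow_zero]; exact one_le'
  | succ n ih =>
    rw [pow_succ, pow_succ]
    exact (norm_mul_le _ _).trans (mul_le_mul_of_nonneg_right ih (norm_nonneg _))

lemma real_hasSum (x : ℝ) : HasSum (fun n : ℕ => ((n.factorial : ℝ)⁻¹) * x ^ n) (Real.exp x) := by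
  rw [Real.exp_eq_exp_ℝ]
  exact exp_series_hasSum_exp' (𝕂 := ℝ) x

section
variable [CompleteSpace X]

lemma ex_hasSum (A : X →L[ℝ] X) : HasSum (fun n : ℕ => ((n.factorial : ℝ)⁻¹) • A ^ n) (exp A) :=
  exp_series_hasSum_exp' (𝕂 := ℝ) A

lemma term_le (A : X →L[ℝ] X) (n : ℕ) :
    ‖((n.factorial : ℝ)⁻¹) • A ^ n‖ ≤ ((n.factorial : ℝ)⁻¹) * ‖A‖ ^ n := by
  rw [norm_smul, norm_inv, Real.norm_natCast]
  exact mul_le_mul_of_nonneg_left (pow_le' A n) (by positivity)

lemma ex_norm_le (A : X →L[ℝ] X) : ‖exp A‖ ≤ Real.exp ‖A‖ := by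
  have h1 := real_hasSum ‖A‖
  rw [← (ex_hasSum A).tsum_eq, ← h1.tsum_eq]
  have h2 : Summable fun n : ℕ => ‖((n.factorial : ℝ)⁻¹) • A ^ n‖ :=
    Summable.of_nonneg_of_le (fun _ => norm_nonneg _) (term_le A) h1.summable
  exact (norm_tsum_le_tsum_norm h2).trans (Summable.tsum_le_tsum (term_le A) h2 h1.summable)

lemma ex_sub_le {A : X →L[ℝ] X} (hA : ‖A‖ ≤ 1) : ‖exp A - 1 - A‖ ≤ ‖A‖ ^ 2 := by
  have h1 := real_hasSum ‖A‖
  have h2 := ex_hasSum A
  have h3 : ‖exp A - 1 - A‖ ≤ Real.exp ‖A‖ - 1 - ‖A‖ := by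
    have h4 : HasSum (fun n : ℕ => (((n + 2).factorial : ℝ)⁻¹) • A ^ (n + 2)) (exp A - 1 - A) := by
      have := (hasSum_nat_add_iff' 2).2 h2
      rw [Finset.sum_range_succ, Finset.sum_range_one] at this
      simp only [Nat.factorial_zero, Nat.cast_one, inv_one, pow_zero, one_smul,
        Nat.factorial_one, pow_one] at this
      rwa [← sub_sub] at this
    have h5 : HasSum (fun n : ℕ => (((n + 2).factorial : ℝ)⁻¹) * ‖A‖ ^ (n + 2))
        (Real.exp ‖A‖ - 1 - ‖A‖) := by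
      have := (hasSum_nat_add_iff' 2).2 h1
      rw [Finset.sum_range_succ, Finset.sum_range_one] at this
      simp only [Nat.factorial_zero, Nat.cast_one, inv_one, pow_zero, one_mul,
        Nat.factorial_one, pow_one] at this
      rwa [← sub_sub] at this
    rw [← h4.tsum_eq, ← h5.tsum_eq]
    have h6 : Summable fun n : ℕ => ‖(((n + 2).factorial : ℝ)⁻¹) • A ^ (n + 2)‖ :=
      Summable.of_nonneg_of_le (fun _ => norm_nonneg _) (fun n => term_le A (n + 2)) h5.summable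
    exact (norm_tsum_le_tsum_norm h6).trans
      (Summable.tsum_le_tsum (fun n => term_le A (n + 2)) h6 h5.summable)
  refine h3.trans ?_
  have h7 := Real.abs_exp_sub_one_sub_id_le (x := ‖A‖) (by rwa [abs_of_nonneg (norm_nonneg _)])
  exact (le_abs_self _).trans h7

lemma ex_neg_mul (A : X →L[ℝ] X) : exp (-A) * exp A = 1 := by
  rw [← exp_add_of_commute (Commute.neg_left (Commute.refl A)), neg_add_cancel, exp_zero]

lemma ex_mul_neg (A : X →L[ℝ] X) : exp A * exp (-A) = 1 := by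
  rw [← exp_add_of_commute (Commute.neg_right (Commute.refl A)), add_neg_cancel, exp_zero]

lemma SH.qd {A : X →L[ℝ] X} (h : SH A) : Qd A := by
  refine ⟨‖A‖ ^ 2, (‖A‖ + 1)⁻¹, by positivity, fun t ht => ?_⟩
  have h1 : ‖t • A‖ ≤ 1 := by
    rw [norm_smul, Real.norm_eq_abs]
    calc |t| * ‖A‖ ≤ (‖A‖ + 1)⁻¹ * (‖A‖ + 1) := by
          gcongr
          linarith
      _ = 1 := inv_mul_cancel₀ (by positivity)
  have h2 := ex_sub_le h1
  have e1 : 1 + t • A = exp (t • A) - (exp (t • A) - 1 - t • A) := by abel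
  rw [e1]
  refine (norm_sub_le _ _).trans (add_le_add (h t) (h2.trans ?_))
  rw [norm_smul, Real.norm_eq_abs, mul_pow, sq_abs, mul_comm]

lemma Qd.sh {A : X →L[ℝ] X} (h : Qd A) : SH A := by
  obtain ⟨c, r, hr, hc⟩ := h
  intro t
  -- for large n
  set c' : ℝ := (c + ‖A‖ ^ 2) * t ^ 2 with hc'
  have hlim : Tendsto (fun n : ℕ => Real.exp (c' / (n : ℝ))) atTop (𝓝 1) := by
    have h1 : Tendsto (fun n : ℕ => c' / (n : ℝ)) atTop (𝓝 0) :=
      tendsto_const_div_atTop_nhds_zero_nat c'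
    have := (Real.continuous_exp.tendsto 0).comp h1
    rwa [Real.exp_zero] at this
  refine ge_of_tendsto hlim ?_
  obtain ⟨N, hN⟩ := exists_nat_gt (max (|t| / r) (|t| * ‖A‖))
  filter_upwards [eventually_ge_atTop (N + 1)] with n hn
  have hn1 : (N : ℝ) < n := by exact_mod_cast hn
  have hn0 : (0 : ℝ) < n := lt_of_le_of_lt (Nat.cast_nonneg N) hn1
  have h1 : |t / n| ≤ r := by
    rw [abs_div, abs_of_pos hn0, div_le_iff₀ hn0]
    have : |t| / r < n := ((le_max_left _ _).trans_lt hN).trans hn1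
    rw [div_lt_iff₀ hr] at this
    linarith
  have h2 : ‖(t / n) • A‖ ≤ 1 := by
    rw [norm_smul, Real.norm_eq_abs, abs_div, abs_of_pos hn0, div_mul_eq_mul_div,
      div_le_one hn0]
    exact (((le_max_right _ _).trans_lt hN).trans hn1).le
  have e1 : t • A = n • ((t / n) • A) := by
    rw [← Nat.cast_smul_eq_nsmul ℝ, smul_smul]
    congr 1
    field_simp
  rw [e1, exp_nsmul]
  have h3 : ‖exp ((t / n) • A)‖ ≤ 1 + c' / n ^ 2 := by
    have e2 : exp ((t / n) • A) = (1 + (t / n) • A) + (exp ((t / n) • A) - 1 - (t / n) • A) := by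
      abel
    rw [e2]
    refine (norm_add_le _ _).trans ((add_le_add (hc _ h1) (ex_sub_le h2)).trans ?_)
    rw [norm_smul, mul_pow, Real.norm_eq_abs, sq_abs, hc', div_pow]
    apply le_of_eq
    ring
  have h4 : 1 + c' / (n : ℝ) ^ 2 ≤ Real.exp (c' / n ^ 2) := by
    have := Real.add_one_le_exp (c' / (n : ℝ) ^ 2)
    linarith
  calc ‖exp ((t / n) • A) ^ n‖ ≤ ‖exp ((t / n) • A)‖ ^ n := pow_le' _ _
    _ ≤ Real.exp (c' / n ^ 2) ^ n := pow_le_pow_left₀ (norm_nonneg _) (h3.trans h4) n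
    _ = Real.exp (c' / n) := by
      rw [← Real.exp_nat_mul]
      congr 1
      field_simp

lemma SH.add {A B : X →L[ℝ] X} (hA : SH A) (hB : SH B) : SH (A + B) := by
  obtain ⟨c, r, hr, hc⟩ := hA.qd
  obtain ⟨d, s, hs, hd⟩ := hB.qd
  refine Qd.sh ⟨2 * (c + d), min r s / 2, by positivity, fun h hh => ?_⟩
  have h1 : |2 * h| ≤ r := by
    rw [abs_mul, abs_two]
    have := min_le_left r s
    linarith
  have h2 : |2 * h| ≤ s := by
    rw [abs_mul, abs_two]
    have := min_le_right r s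
    linarith
  have e1 : 1 + h • (A + B) = (1 / 2 : ℝ) • ((1 + (2 * h) • A) + (1 + (2 * h) • B)) := by
    rw [smul_add (1 / 2 : ℝ), smul_add (1 / 2 : ℝ), smul_add (1 / 2 : ℝ), smul_smul, smul_smul,
      smul_add h]
    have e2 : (1 / 2 : ℝ) * (2 * h) = h := by ring
    rw [e2]
    have e3 : (1 / 2 : ℝ) • (1 : X →L[ℝ] X) + (1 / 2 : ℝ) • (1 : X →L[ℝ] X) = 1 := by
      rw [← add_smul]; norm_num
    nth_rewrite 1 [← e3]
    abel
  rw [e1, norm_smul, Real.norm_of_nonneg (by norm_num : (0:ℝ) ≤ 1 / 2)]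
  have h3 := norm_add_le (1 + (2 * h) • A) (1 + (2 * h) • B)
  have h4 := hc _ h1
  have h5 := hd _ h2
  nlinarith

lemma SH.smul {A : X →L[ℝ] X} (hA : SH A) (s : ℝ) : SH (s • A) := by
  intro t
  rw [smul_smul]
  exact hA _

lemma SH.zero : SH (0 : X →L[ℝ] X) := by
  intro t
  rw [smul_zero, exp_zero]
  exact one_le'

lemma SH_closed : IsClosed {A : X →L[ℝ] X | SH A} := by
  have : {A : X →L[ℝ] X | SH A} = ⋂ t : ℝ, {A | ‖exp (t • A)‖ ≤ 1} := by
    ext A
    simp only [Set.mem_ofPred_eq, Set.mem_iInter]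
    rfl
  rw [this]
  refine isClosed_iInter fun t => isClosed_le ?_ continuous_const
  exact ((exp_continuous (𝔸 := X →L[ℝ] X)).comp (continuous_const_smul t)).norm

/-- the space of skew-hermitian operators -/
def SHm (X : Type*) [NormedAddCommGroup X] [NormedSpace ℝ X] [CompleteSpace X] :
    Submodule ℝ (X →L[ℝ] X) where
  carrier := {A | SH A}
  add_mem' := SH.add
  zero_mem' := SH.zero
  smul_mem' s _ h := SH.smul h s

lemma mem_SHm {A : X →L[ℝ] X} : A ∈ SHm X ↔ SH A := Iff.rfl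

lemma SHm_closed : IsClosed (SHm X : Set (X →L[ℝ] X)) := SH_closed

lemma SH.conj {A : X →L[ℝ] X} (hA : SH A) (U : X ≃ₗᵢ[ℝ] X) : SH (cj U A) := by
  obtain ⟨c, r, hr, hc⟩ := hA.qd
  refine Qd.sh ⟨c, r, hr, fun h hh => ?_⟩
  have e1 : 1 + h • cj U A = cj U (1 + h • A) := by
    rw [map_add, map_one, map_smul]
  rw [e1]
  refine le_trans ?_ (hc h hh)
  have e2 : cj U (1 + h • A) = op U * (1 + h • A) * op U⁻¹ := rfl
  rw [e2]
  calc _ ≤ ‖op U * (1 + h • A)‖ * ‖op U⁻¹‖ := norm_mul_le _ _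
    _ ≤ (‖op U‖ * ‖1 + h • A‖) * 1 :=
      mul_le_mul (norm_mul_le _ _) (op_norm_le _) (norm_nonneg _) (by positivity)
    _ ≤ (1 * ‖1 + h • A‖) * 1 := by
      gcongr
      exact op_norm_le _
    _ = _ := by ring

/-- the one-parameter group -/
noncomputable def SH.iso {A : X →L[ℝ] X} (hA : SH A) (t : ℝ) : X ≃ₗᵢ[ℝ] X where
  toFun x := (exp (t • A) : X →L[ℝ] X) x
  invFun x := (exp (-(t • A)) : X →L[ℝ] X) x
  map_add' x y := map_add _ x y
  map_smul' c x := map_smul _ c x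
  left_inv x := DFunLike.congr_fun (ex_neg_mul (t • A)) x
  right_inv x := DFunLike.congr_fun (ex_mul_neg (t • A)) x
  norm_map' x := by
    show ‖exp (t • A) x‖ = ‖x‖
    apply le_antisymm
    · have := (exp (t • A)).le_of_opNorm_le (hA t) x
      rwa [one_mul] at this
    · have h1 : exp (-(t • A)) (exp (t • A) x) = x := DFunLike.congr_fun (ex_neg_mul (t • A)) x
      have h2 : ‖exp (-(t • A))‖ ≤ 1 := by
        rw [← neg_smul]
        exact hA (-t)
      have := (exp (-(t • A))).le_of_opNorm_le h2 (exp (t • A) x)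
      rwa [one_mul, h1] at this

lemma SH.op_iso {A : X →L[ℝ] X} (hA : SH A) (t : ℝ) : op (hA.iso t) = exp (t • A) := by
  ext x; rfl

lemma FR_exp {A : X →L[ℝ] X} (hA : FR A) : FR (exp A - 1) := by
  haveI : FiniteDimensional ℝ (LinearMap.range (A : X →ₗ[ℝ] X)) := hA
  refine FR.mono hA ?_
  rintro _ ⟨x, rfl⟩
  have hcl : IsClosed (LinearMap.range (A : X →ₗ[ℝ] X) : Set X) :=
    Submodule.closed_of_finiteDimensional _
  have h1 : HasSum (fun n : ℕ => (((n + 1).factorial : ℝ)⁻¹) • A ^ (n + 1)) (exp A - 1) := by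
    have := (hasSum_nat_add_iff' 1).2 (ex_hasSum A)
    rw [Finset.sum_range_one] at this
    simpa using this
  have h2 : HasSum (fun n : ℕ => ((((n + 1).factorial : ℝ)⁻¹) • A ^ (n + 1)) x) ((exp A - 1) x) :=
    h1.mapL (ContinuousLinearMap.apply ℝ X x)
  refine hcl.mem_of_tendsto h2 (Eventually.of_forall fun s => ?_)
  refine Submodule.sum_mem _ fun n _ => ?_
  refine Submodule.smul_mem _ _ ?_
  rw [pow_succ']
  exact ⟨(A ^ n) x, rfl⟩

/-- a transitive space with a non-zero skew-hermitian operator of finite rank is a Hilbert space -/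
theorem finite_rank_SH (hX : ¬ FiniteDimensional ℝ X) (htr : Tr X) {A : X →L[ℝ] X} (hA : SH A)
    (hf : FR A) (h0 : A ≠ 0) (u v : X) :
    ‖u + v‖ * ‖u + v‖ + ‖u - v‖ * ‖u - v‖ = 2 * (‖u‖ * ‖u‖ + ‖v‖ * ‖v‖) := by
  have hn : 0 < ‖A‖ := norm_pos_iff.2 h0
  set t : ℝ := (2 * ‖A‖)⁻¹ with ht
  have hts : ‖t • A‖ = 1 / 2 := by
    rw [norm_smul, ht, norm_inv, norm_mul, norm_norm, Real.norm_ofNat]
    field_simp
  refine finite_rank hX htr (T := hA.iso t) ?_ ?_ u v
  · rw [hA.op_iso]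
    exact FR_exp (hf.smul t)
  · rw [hA.op_iso]
    intro h1
    have h2 := ex_sub_le (A := t • A) (by rw [hts]; norm_num)
    rw [h1, sub_self, zero_sub, norm_neg, hts] at h2
    norm_num at h2

end

end Pool.Agent.N315.BM
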