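import Pool.Agent.N315.BM.Coef
import Pool.Agent.N315.BM.SkewH
import Pool.Agent.N315.BM.Cpt

/-!
# From compact perturbations to skew-hermitian operators of finite rank

`T` an isometry with `T - 1` compact, `B` skew-hermitian, `T B ≠ B T`. For a suitable function `h` on
the circle which vanishes near `1`, the operator `∑ h_l T^l B T^{-l}` is skew-hermitian, not zero and
of finite rank.
-/

set_option autoImplicit false

namespace Pool.Agent.N315.BM

open Pool.H590R3.Ab Pool.Agent.TH596.RO Pool.Agent.H984R3.AbPartiOf Filter Topology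

variable {X : Type*} [NormedAddCommGroup X] [NormedSpace ℝ X]

lemma cj_cj_inv (T : X ≃ₗᵢ[ℝ] X) (a : X →L[ℝ] X) : cj T (cj T⁻¹ a) = a := by
  ext x
  show T (T⁻¹ (a (T (T⁻¹ x)))) = a x
  have h1 : T (T⁻¹ x) = x := T.apply_symm_apply x
  have h2 : T (T⁻¹ (a x)) = a x := T.apply_symm_apply _
  rw [h1, h2]

lemma cj_inv_cj (T : X ≃ₗᵢ[ℝ] X) (a : X →L[ℝ] X) : cj T⁻¹ (cj T a) = a := by
  have := cj_cj_inv T⁻¹ a
  rwa [inv_inv] at this

/-- conjugation as an isometry of the space of operators -/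
noncomputable def cjI (T : X ≃ₗᵢ[ℝ] X) : (X →L[ℝ] X) ≃ₗᵢ[ℝ] (X →L[ℝ] X) where
  toFun := cj T
  invFun := cj T⁻¹
  map_add' a b := map_add _ a b
  map_smul' c a := map_smul _ c a
  left_inv a := cj_inv_cj T a
  right_inv a := cj_cj_inv T a
  norm_map' a := by
    show ‖cj T a‖ = ‖a‖
    apply le_antisymm (norm_cj_le T a)
    have := norm_cj_le T⁻¹ (cj T a)
    rwa [cj_inv_cj] at this

lemma cjI_apply (T : X ≃ₗᵢ[ℝ] X) (a : X →L[ℝ] X) : cjI T a = cj T a := rfl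

/-- conjugation as a homomorphism -/
noncomputable def cjH : (X ≃ₗᵢ[ℝ] X) →* ((X →L[ℝ] X) ≃ₗᵢ[ℝ] (X →L[ℝ] X)) where
  toFun := cjI
  map_one' := by
    ext a x
    rfl
  map_mul' S T := by
    ext a x
    rfl

lemma cjI_zpow (T : X ≃ₗᵢ[ℝ] X) (k : ℤ) : (cjI T) ^ k = cjI (T ^ k) := (map_zpow cjH T k).symm

lemma op_cjI_zpow (T : X ≃ₗᵢ[ℝ] X) (k : ℤ) (a : X →L[ℝ] X) :
    op ((cjI T) ^ k) a = op (T ^ k) * a * op (T⁻¹ ^ k) := by
  rw [cjI_zpow, inv_zpow]
  rfl

/-- local version of `unip` -/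
lemma unip_loc {E : Type*} [NormedAddCommGroup E] [NormedSpace ℝ E] (n : E ≃ₗᵢ[ℝ] E) {x : E}
    (h : Co n x = x) : n x = x := by
  have h0 : n (n x) = (2:ℝ) • n x - x := by
    have h1 : (1 / 2 : ℝ) • (n x + n⁻¹ x) = x := h
    have h2 : n x + n⁻¹ x = (2 : ℝ) • x := by
      have h5 : n x + n⁻¹ x = (2 : ℝ) • ((1 / 2 : ℝ) • (n x + n⁻¹ x)) := by
        rw [smul_smul, show (2 : ℝ) * (1 / 2) = 1 by norm_num, one_smul]
      rw [h5, h1]
    have h3 := congrArg n h2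
    rw [map_add, map_smul] at h3
    have h4 : n (n⁻¹ x) = x := n.apply_symm_apply x
    rw [h4] at h3
    rw [← h3]; abel
  have hk : ∀ k : ℕ, (n^[k]) x = x + (k : ℝ) • (n x - x) ∧
      n ((n^[k]) x) = x + ((k : ℝ) + 1) • (n x - x) := by
    intro k
    induction k with
    | zero => simp
    | succ k ih =>
      have h1 : (n^[k+1]) x = x + ((k : ℝ) + 1) • (n x - x) := by
        rw [Function.iterate_succ_apply']
        exact ih.2
      refine ⟨by rw [h1]; push_cast; rfl, ?_⟩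
      rw [h1, map_add, map_smul, map_sub, h0]
      push_cast
      module
  have hb : ∀ k : ℕ, (k : ℝ) * ‖n x - x‖ ≤ 2 * ‖x‖ := by
    intro k
    have h1 : (k : ℝ) • (n x - x) = (n^[k]) x - x := by
      rw [(hk k).1]; abel
    have h2 : ∀ j : ℕ, ‖(n^[j]) x‖ = ‖x‖ := by
      intro j
      induction j with
      | zero => rfl
      | succ j ih =>
        rw [Function.iterate_succ_apply', n.norm_map]
        exact ih
    have h3 : ‖(k : ℝ) • (n x - x)‖ ≤ ‖(n^[k]) x‖ + ‖x‖ := by rw [h1]; exact norm_sub_le _ _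
    rw [norm_smul, Real.norm_of_nonneg (Nat.cast_nonneg k), h2] at h3
    linarith
  by_contra hne
  have hpos : 0 < ‖n x - x‖ := norm_pos_iff.2 (sub_ne_zero.2 hne)
  obtain ⟨k, hk'⟩ := exists_nat_gt (2 * ‖x‖ / ‖n x - x‖)
  rw [div_lt_iff₀ hpos] at hk'
  have := hb k
  linarith

lemma Fop_compl {E : Type*} [NormedAddCommGroup E] [NormedSpace ℝ E] [CompleteSpace E]
    (n : E ≃ₗᵢ[ℝ] E) {δ : ℝ} (hδ : 0 < δ) (hδ1 : δ ≤ 1) :
    Fop n (ca (fun θ => 1 - Fd δ θ)) = 1 - Fop n (ca (Fd δ)) := by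
  have s1 : Summable fun k : ℤ => |(if k = 0 then 1 else 0 : ℝ)| := by
    refine summable_of_ne_finset_zero (s := {0}) (fun k hk => ?_)
    rw [Finset.mem_singleton] at hk
    rw [if_neg hk, abs_zero]
  have h1 := Fop_lin n s1 (Fd_summable hδ hδ1) 1 (-1)
  rw [Fop_delta, one_smul, neg_smul, one_smul, ← sub_eq_add_neg] at h1
  rw [h1]
  congr 1
  funext k
  rw [ca_compl]
  ring

/-- the functions `1 - F_δ` detect non-fixed vectors -/
lemma Fop_ne {E : Type*} [NormedAddCommGroup E] [NormedSpace ℝ E] [CompleteSpace E]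
    (n : E ≃ₗᵢ[ℝ] E) {x : E} (hx : n x ≠ x) : ∃ δ0 : ℝ, 0 < δ0 ∧ ∀ δ : ℝ, 0 < δ → δ < δ0 → δ ≤ 1 →
    Fop n (ca (fun θ => 1 - Fd δ θ)) x ≠ 0 := by
  have hη : 0 < ‖Co n x - x‖ := by
    rw [norm_pos_iff, sub_ne_zero]
    exact fun h => hx (unip_loc n h)
  set η := ‖Co n x - x‖ with hηd
  obtain ⟨δ0, hδ0, h⟩ := Fd_small (ε := η / (2 * (‖x‖ + 1))) (by positivity)
  refine ⟨δ0, hδ0, fun δ hδ hδ2 hδ1 h0 => ?_⟩
  obtain ⟨hs, hle⟩ := h δ hδ hδ2 hδ1
  rw [Fop_compl n hδ hδ1] at h0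
  have h1 : Fop n (ca (Fd δ)) x = x := by
    have : x - Fop n (ca (Fd δ)) x = 0 := h0
    exact (sub_eq_zero.1 this).symm
  have h2 := DFunLike.congr_fun (Co_mul_Fop n (Fd_summable hδ hδ1) 1) x
  have h3 : Co n (Fop n (ca (Fd δ)) x) - (1:ℝ) • (Fop n (ca (Fd δ)) x) =
      Fop n (fun k => (ca (Fd δ) (k - 1) + ca (Fd δ) (k + 1)) / 2 - 1 * ca (Fd δ) k) x := h2
  rw [h1, one_smul] at h3
  have h4 := (Fop n (fun k => (ca (Fd δ) (k - 1) + ca (Fd δ) (k + 1)) / 2 - 1 * ca (Fd δ) k)).le_opNorm x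
  rw [← h3, ← hηd] at h4
  have h5 := (Fop_norm_le n hs).trans hle
  have h6 : η ≤ η / (2 * (‖x‖ + 1)) * ‖x‖ := h4.trans (mul_le_mul_of_nonneg_right h5 (norm_nonneg x))
  have h7 : η / (2 * (‖x‖ + 1)) * ‖x‖ ≤ η / 2 := by
    rw [div_mul_eq_mul_div, div_le_div_iff₀ (by positivity) (by norm_num)]
    have := norm_nonneg x
    nlinarith
  linarith

section
variable [CompleteSpace X]

lemma co_closed : IsClosed {a : X →L[ℝ] X | CO a} :=
  isClosed_setOfPred_isCompactOperator (σ₁₂ := RingHom.id ℝ) (M₁ := X) (M₂ := X)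

/-- `(1 - F_δ)(T)` is compact -/
lemma co_Fop {T : X ≃ₗᵢ[ℝ] X} (hT : CP T) {δ : ℝ} (hδ : 0 < δ) (hδ1 : δ ≤ 1) :
    CO (Fop T (ca (fun θ => 1 - Fd δ θ))) := by
  have h1 : HasSum (fun k : ℤ => ca (Fd δ) k • (1 - op (T ^ k))) (1 - Fop T (ca (Fd δ))) := by
    have a1 : HasSum (fun k : ℤ => ca (Fd δ) k • (1 : X →L[ℝ] X)) 1 := by
      have := (Fd_sum hδ hδ1).smul_const (1 : X →L[ℝ] X)
      rwa [one_smul] at this
    have a2 : HasSum (fun k : ℤ => ca (Fd δ) k • op (T ^ k)) (Fop T (ca (Fd δ))) :=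
      (summable_term T (Fd_summable hδ hδ1)).hasSum
    refine (a1.sub a2).congr_fun (fun k => ?_)
    rw [smul_sub]
  rw [Fop_compl T hδ hδ1]
  refine co_closed.mem_of_tendsto h1 (Eventually.of_forall fun s => ?_)
  show CO (∑ k ∈ s, ca (Fd δ) k • (1 - op (T ^ k)))
  induction s using Finset.induction_on with
  | empty =>
    rw [Finset.sum_empty]
    exact CO.zero
  | insert k s hk ih =>
    rw [Finset.sum_insert hk]
    refine CO.add (CO.smul ?_ _) ih
    have : (1 : X →L[ℝ] X) - op (T ^ k) = -(op (T ^ k) - 1) := by abel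
    rw [this]
    exact CO.neg (hT.zpow k)

/-- an operator which is reproduced by a compact one has finite rank -/
lemma fr_of_fix {κ Q : X →L[ℝ] X} (hκ : CO κ) (h : κ * Q = Q) : FR Q := by
  -- the space of fixed vectors of `κ`
  set V : Submodule ℝ X := LinearMap.ker ((κ - 1 : X →L[ℝ] X) : X →ₗ[ℝ] X) with hV
  have hVm : ∀ x ∈ V, κ x = x := by
    intro x hx
    have : κ x - x = 0 := hx
    exact sub_eq_zero.1 this
  have hVcl : IsClosed (V : Set X) := ContinuousLinearMap.isClosed_ker (κ - 1)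
  haveI : CompleteSpace V := hVcl.completeSpace_coe
  have hVfd : FiniteDimensional ℝ V := by
    have hcc : IsCompact (closure ((κ : X →ₗ[ℝ] X) '' Metric.closedBall 0 1)) :=
      IsCompactOperator.isCompact_closure_image_closedBall (f := (κ : X →ₗ[ℝ] X)) hκ 1
    have hsub : (fun v : V => (v : X)) '' Metric.closedBall 0 1 ⊆
        (κ : X →ₗ[ℝ] X) '' Metric.closedBall 0 1 := by
      rintro _ ⟨v, hv, rfl⟩
      refine ⟨v, ?_, hVm v v.2⟩
      rw [mem_closedBall_zero_iff] at hv ⊢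
      exact hv
    have htb : TotallyBounded ((fun v : V => (v : X)) '' Metric.closedBall 0 1) :=
      hcc.totallyBounded.subset (hsub.trans subset_closure)
    have htb2 : TotallyBounded (Metric.closedBall (0 : V) 1) :=
      (totallyBounded_image_iff (isUniformInducing_val (V : Set X))).1 htb
    have hcb : IsCompact (Metric.closedBall (0 : V) 1) :=
      isCompact_iff_totallyBounded_isComplete.2 ⟨htb2, Metric.isClosed_closedBall.isComplete⟩
    exact FiniteDimensional.of_isCompact_closedBall₀ ℝ one_pos hcb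
  show FiniteDimensional ℝ (LinearMap.range (Q : X →ₗ[ℝ] X))
  refine Submodule.finiteDimensional_of_le (S₂ := V) ?_
  rintro _ ⟨x, rfl⟩
  show κ (Q x) - Q x = 0
  rw [sub_eq_zero]
  exact DFunLike.congr_fun h x

/-- `(1 - F_δ)(T)` has finite rank -/
lemma fr_Fop {T : X ≃ₗᵢ[ℝ] X} (hT : CP T) {δ : ℝ} (hδ : 0 < δ) (hδ1 : δ ≤ 1) :
    FR (Fop T (ca (fun θ => 1 - Fd δ θ))) := by
  have hδ2 : 0 < δ / 2 := by positivity
  have hδ3 : δ / 2 ≤ 1 := by linarith
  refine fr_of_fix (co_Fop hT hδ2 hδ3) ?_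
  rw [Fop_compl T hδ2 hδ3, sub_mul, one_mul, sub_eq_self]
  refine Fop_mul_eq_zero T (Fd_summable hδ2 hδ3) (compl_summable hδ hδ1) (fun m => ?_)
  have hcc : Continuous fun θ => 1 - Fd δ θ := continuous_const.sub (Fd_cont δ)
  rw [prodS (Fd (δ / 2)) (fun θ => 1 - Fd δ θ) (Fd_cont _) hcc (Fd_even _) (Fd_per _)
    (fun θ => by rw [Fd_even]) (fun θ => by rw [Fd_per]) (Fd_summable hδ2 hδ3)
    (compl_summable hδ hδ1) m]
  have e1 : (fun θ => Fd (δ / 2) θ * (1 - Fd δ θ)) = fun _ => 0 := by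
    funext θ
    by_cases h : δ / 2 ≤ |Real.cos θ - 1|
    · rw [Fd_zero hδ2 h, zero_mul]
    · push Not at h
      rw [Fd_one hδ h.le, sub_self, mul_zero]
  rw [e1, ca_zero]

lemma Fop_inv (T : X ≃ₗᵢ[ℝ] X) (F : ℝ → ℝ) : Fop T⁻¹ (ca F) = Fop T (ca F) := by
  unfold Fop
  rw [← (Equiv.neg ℤ).tsum_eq]
  refine tsum_congr (fun k => ?_)
  show ca F (-k) • op (T⁻¹ ^ (-k)) = ca F k • op (T ^ k)
  rw [ca_neg, inv_zpow', neg_neg]

/-- the block near `1` vanishes -/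
theorem block {T : X ≃ₗᵢ[ℝ] X} (B : X →L[ℝ] X) {δ δ' : ℝ} (hδ : 0 < δ) (hδ' : 8 * δ ≤ δ')
    (hδ1 : δ' ≤ 1) :
    Fop T (ca (Fd δ)) * (Fop (cjI T) (ca (fun θ => 1 - Fd δ' θ)) B) * Fop T (ca (Fd δ)) = 0 := by
  set b : ℤ → ℝ := ca (Fd δ) with hb
  set h : ℤ → ℝ := ca (fun θ => 1 - Fd δ' θ) with hh
  have sb : Summable fun k => |b k| := Fd_summable hδ (by linarith)
  have sh : Summable fun k => |h k| := compl_summable (by linarith) hδ1
  have hC : Fop (cjI T) h B = ∑' l : ℤ, h l • (op (T ^ l) * B * op (T⁻¹ ^ l)) := by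
    have h1 := (summable_term (cjI T) sh).hasSum.mapL (ContinuousLinearMap.apply ℝ (X →L[ℝ] X) B)
    have h2 := h1.tsum_eq
    have h3 : Fop (cjI T) h B = ∑' l : ℤ, (h l • op ((cjI T) ^ l)) B := h2.symm
    rw [h3]
    refine tsum_congr (fun l => ?_)
    show h l • (op ((cjI T) ^ l) B) = _
    rw [op_cjI_zpow]
  have sf : Summable fun m : ℤ => ‖b m • op (T ^ m)‖ := summable_term_norm T sb
  have sg : Summable fun l : ℤ => ‖h l • (op (T ^ l) * B * op (T⁻¹ ^ l))‖ := by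
    refine Summable.of_nonneg_of_le (fun _ => norm_nonneg _) (fun l => ?_) (sh.mul_right ‖B‖)
    rw [norm_smul, Real.norm_eq_abs]
    refine mul_le_mul_of_nonneg_left ?_ (abs_nonneg _)
    calc _ ≤ ‖op (T ^ l) * B‖ * ‖op (T⁻¹ ^ l)‖ := norm_mul_le _ _
      _ ≤ (‖op (T ^ l)‖ * ‖B‖) * 1 :=
        mul_le_mul (norm_mul_le _ _) (op_norm_le _) (norm_nonneg _) (by positivity)
      _ ≤ (1 * ‖B‖) * 1 := by
        gcongr
        exact op_norm_le _
      _ = ‖B‖ := by ring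
  have h1 := tsum_mul_tsum_of_summable_norm sf sg
  have hs := summable_mul_of_summable_norm sf sg
  let e : ℤ × ℤ ≃ ℤ × ℤ :=
    { toFun := fun p => (p.1 - p.2, p.2)
      invFun := fun q => (q.1 + q.2, q.2)
      left_inv := fun p => by ext <;> simp
      right_inv := fun q => by ext <;> simp }
  have h2 : ∀ p : ℤ × ℤ, (b (e p).1 • op (T ^ (e p).1)) *
      (h (e p).2 • (op (T ^ (e p).2) * B * op (T⁻¹ ^ (e p).2))) =
      (op (T ^ p.1) * B) * ((h p.2 * b (p.1 - p.2)) • op (T⁻¹ ^ p.2)) := by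
    intro p
    show (b (p.1 - p.2) • op (T ^ (p.1 - p.2))) *
      (h p.2 • (op (T ^ p.2) * B * op (T⁻¹ ^ p.2))) = _
    have h3 : op (T ^ (p.1 - p.2)) * op (T ^ p.2) = op (T ^ p.1) := by
      rw [← op_mul, ← zpow_add, sub_add_cancel]
    rw [smul_mul_smul_comm, mul_smul_comm, mul_comm (b _)]
    congr 1
    rw [← mul_assoc, ← mul_assoc, h3]
  have hs' : Summable (fun p : ℤ × ℤ => (op (T ^ p.1) * B) *
      ((h p.2 * b (p.1 - p.2)) • op (T⁻¹ ^ p.2))) := by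
    have := e.summable_iff.2 hs
    refine this.congr (fun p => ?_)
    exact h2 p
  have hcoef : ∀ p : ℤ, Summable fun l : ℤ => |h l * b (p - l)| := by
    intro p
    have hbb : ∀ k, |b k| ≤ ∑' k, |b k| := fun k => sb.le_tsum k (fun _ _ => abs_nonneg _)
    refine Summable.of_nonneg_of_le (fun _ => abs_nonneg _) (fun l => ?_)
      (sh.mul_right (∑' k, |b k|))
    rw [abs_mul]
    exact mul_le_mul_of_nonneg_left (hbb _) (abs_nonneg _)
  have hD : Fop T b * (Fop (cjI T) h B) =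
      ∑' p : ℤ, (op (T ^ p) * B) * Fop T⁻¹ (fun l => h l * b (p - l)) := by
    rw [hC]
    unfold Fop
    rw [h1, ← e.tsum_eq, tsum_congr h2, hs'.tsum_prod]
    refine tsum_congr (fun p => ?_)
    exact (summable_term T⁻¹ (hcoef p)).tsum_mul_left (op (T ^ p) * B)
  have hsD : Summable fun p : ℤ => (op (T ^ p) * B) * Fop T⁻¹ (fun l => h l * b (p - l)) := by
    have := hs'.prod
    refine this.congr (fun p => ?_)
    exact (summable_term T⁻¹ (hcoef p)).tsum_mul_left (op (T ^ p) * B)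
  rw [hD, ← hsD.tsum_mul_right]
  refine (tsum_congr (fun p => ?_)).trans tsum_zero
  have hz : Fop T⁻¹ (fun l => h l * b (p - l)) * Fop T b = 0 := by
    rw [hb, ← Fop_inv T (Fd δ), ← hb]
    refine Fop_mul_eq_zero T⁻¹ (hcoef p) sb (fun m => ?_)
    have hcc : Continuous fun θ => 1 - Fd δ' θ := continuous_const.sub (Fd_cont δ')
    have := (tri (Fd_cont δ) (Fd_abs δ) hcc (fun θ => by rw [Fd_even])
      (fun θ => by rw [Fd_per]) sh (fun θ φ => supp_sub hδ hδ') (fun θ φ => supp_add hδ hδ')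
      p m).tsum_eq
    rw [← this]
    refine tsum_congr (fun l => ?_)
    rw [mul_assoc]
  rw [mul_assoc, hz, mul_zero]

/-- skew-hermitian operators of finite rank -/
theorem exists_fr {T : X ≃ₗᵢ[ℝ] X} (hT : CP T) {B : X →L[ℝ] X} (hB : SH B)
    (hne : cj T B ≠ B) : ∃ C : X →L[ℝ] X, SH C ∧ FR C ∧ C ≠ 0 := by
  obtain ⟨δ0, hδ0, h⟩ := Fop_ne (cjI T) (x := B) hne
  set δ' : ℝ := min (δ0 / 2) 1 with hδ'
  have h0 : 0 < δ' := lt_min (by positivity) one_pos
  have h1 : δ' < δ0 := (min_le_left _ _).trans_lt (by linarith)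
  have h2 : δ' ≤ 1 := min_le_right _ _
  set C := Fop (cjI T) (ca (fun θ => 1 - Fd δ' θ)) B with hC
  refine ⟨C, ?_, ?_, h δ' h0 h1 h2⟩
  · -- skew-hermitian
    have hs := (summable_term (cjI T) (compl_summable h0 h2)).hasSum.mapL
      (ContinuousLinearMap.apply ℝ (X →L[ℝ] X) B)
    refine SHm_closed.mem_of_tendsto hs (Eventually.of_forall fun s => ?_)
    refine Submodule.sum_mem _ fun k _ => ?_
    show (ca (fun θ => 1 - Fd δ' θ) k • op ((cjI T) ^ k)) B ∈ SHm X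
    refine Submodule.smul_mem _ _ ?_
    rw [cjI_zpow]
    exact hB.conj (T ^ k)
  · -- finite rank
    have h3 : 0 < δ' / 8 := by positivity
    have h4 : δ' / 8 ≤ 1 := by linarith
    set Q1 := Fop T (ca (Fd (δ' / 8))) with hQ1
    have hQ2 : FR (1 - Q1) := by
      rw [hQ1, ← Fop_compl T h3 h4]
      exact fr_Fop hT h3 h4
    have hz : Q1 * C * Q1 = 0 := block B h3 (by linarith) h2
    have e1 : C = (1 - Q1) * C + (Q1 * C) * (1 - Q1) + Q1 * C * Q1 := by
      rw [sub_mul, mul_sub, one_mul, mul_one]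
      abel
    rw [e1, hz, add_zero]
    exact (hQ2.mul_right C).add (hQ2.mul_left (Q1 * C))

end

end Pool.Agent.N315.BM
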