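import Pool.Agent.N315.BM.MinProj

/-!
# Algebraic irreducibility

If the isometry group is transitive and there is a minimal projection `e`, then every vector is of
the form `c x0`, where `c` is a linear combination of isometries which are finite rank perturbations
of the identity.
-/

set_option autoImplicit false

namespace Pool.Agent.N315.BM

open Pool.H590R3.Ab Pool.Agent.TH596.RO

variable {X : Type*} [NormedAddCommGroup X] [NormedSpace ℝ X]

/-- transitivity of the full isometry group -/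
def Tr (X : Type*) [NormedAddCommGroup X] [NormedSpace ℝ X] : Prop :=
  ∀ x y : X, ‖x‖ = 1 → ‖y‖ = 1 → ∃ T : X ≃ₗᵢ[ℝ] X, T x = y

lemma Tr.dir (htr : Tr X) {x y : X} (hx : x ≠ 0) (hy : y ≠ 0) :
    ∃ (T : X ≃ₗᵢ[ℝ] X) (s : ℝ), s ≠ 0 ∧ T x = s • y := by
  have hx' : ‖x‖ ≠ 0 := norm_ne_zero_iff.2 hx
  have hy' : ‖y‖ ≠ 0 := norm_ne_zero_iff.2 hy
  obtain ⟨T, hT⟩ := htr (‖x‖⁻¹ • x) (‖y‖⁻¹ • y)
    (by rw [norm_smul, norm_inv, norm_norm, inv_mul_cancel₀ hx'])
    (by rw [norm_smul, norm_inv, norm_norm, inv_mul_cancel₀ hy'])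
  refine ⟨T, ‖x‖ * ‖y‖⁻¹, mul_ne_zero hx' (inv_ne_zero hy'), ?_⟩
  rw [map_smul] at hT
  have h1 : T x = ‖x‖ • (‖x‖⁻¹ • T x) := by rw [smul_smul, mul_inv_cancel₀ hx', one_smul]
  rw [h1, hT, smul_smul]

namespace MP

lemma exists_at {e : X →L[ℝ] X} (h : MP e) (htr : Tr X) {y : X} (hy : y ≠ 0) :
    ∃ e' : X →L[ℝ] X, MP e' ∧ e' y = y := by
  obtain ⟨x, hx, hex⟩ := h.exists_vec
  obtain ⟨T, s, hs, hT⟩ := htr.dir hx hy
  refine ⟨cj T e, h.conj T, ?_⟩
  have hy' : y = s⁻¹ • T x := by rw [hT, smul_smul, inv_mul_cancel₀ hs, one_smul]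
  rw [hy', map_smul]
  congr 1
  show T (e (T⁻¹ (T x))) = T x
  have h1 : T⁻¹ (T x) = x := T.symm_apply_apply x
  rw [h1, hex]

/-- `e'' e e'' = l e''` with `l ≠ 0` if `e y ≠ 0` -/
lemma scal_ne {e e'' : X →L[ℝ] X} (h : MP e) (h'' : MP e'') {y : X} (hy : e'' y = y)
    (hey : e y ≠ 0) : ∃ l : ℝ, l ≠ 0 ∧ e'' * e * e'' = l • e'' := by
  obtain ⟨l, hl⟩ := h''.scal e h.pr
  refine ⟨l, ?_, hl⟩
  rintro rfl
  rw [zero_smul] at hl
  have h1 : (e'' * e) * (e * e'') = 0 := by
    have : (e'' * e) * (e * e'') = e'' * (e * e) * e'' := by simp only [mul_assoc]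
    rw [this, h.idem, hl]
  have h2 : e * e'' = 0 := (h.pr.mul h''.pr).pos' h1
  apply hey
  have h3 := DFunLike.congr_fun h2 y
  have h4 : e (e'' y) = 0 := h3
  rwa [hy] at h4

/-- the algebra is prime -/
theorem prime {e e' : X →L[ℝ] X} (h : MP e) (h' : MP e') (htr : Tr X) :
    ∃ c d : X →L[ℝ] X, Pr c d ∧ e' * c * e ≠ 0 := by
  by_contra hcon
  push Not at hcon
  have hcon' : ∀ c d, Pr c d → e * c * e' = 0 := by
    intro c d hcd
    have h1 := hcon d c hcd.symm
    have h2 : Pr (e * c * e') (e' * d * e) := by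
      have := (h.pr.mul hcd).mul h'.pr
      rwa [← mul_assoc] at this
    rw [h1] at h2
    exact h2.zero_right
  obtain ⟨x, hx, hex⟩ := h.exists_vec
  obtain ⟨x', hx', hex'⟩ := h'.exists_vec
  have h1 : e * e' = 0 := by
    have := hcon' 1 1 Pr.one
    rwa [mul_one] at this
  have h2 : e' * e = 0 := by
    have := hcon 1 1 Pr.one
    rwa [mul_one] at this
  have h3 : e x' = 0 := by
    rw [← hex']
    exact DFunLike.congr_fun h1 x'
  have h4 : e' x = 0 := by
    rw [← hex]
    exact DFunLike.congr_fun h2 x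
  have hey : e (x + x') = x := by rw [map_add, hex, h3, add_zero]
  have hey' : e' (x + x') = x' := by rw [map_add, hex', h4, zero_add]
  have hy : x + x' ≠ 0 := by
    intro h0
    rw [h0, map_zero] at hey
    exact hx hey.symm
  obtain ⟨e'', h'', hy''⟩ := h.exists_at htr hy
  obtain ⟨l, hl, hle⟩ := scal_ne h h'' hy'' (by rw [hey]; exact hx)
  have h5 : l • (e' * e'') = 0 := by
    have : l • (e' * e'') = e' * (e'' * e * e'') := by rw [hle, mul_smul_comm]
    rw [this]
    have h6 : e' * (e'' * e * e'') = (e' * e'' * e) * e'' := by simp only [mul_assoc]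
    rw [h6, hcon e'' e'' h''.pr, zero_mul]
  have h6 : e' * e'' = 0 := (smul_eq_zero.1 h5).resolve_left hl
  apply hx'
  rw [← hey', ← hy'']
  exact DFunLike.congr_fun h6 _

/-- the algebra acts irreducibly on the range of a minimal projection -/
theorem irr (hX : ¬ FiniteDimensional ℝ X) {e : X →L[ℝ] X} (h : MP e) (htr : Tr X) {x x' : X}
    (hx : x ≠ 0) (hex : e x = x) (hex' : e x' = x') : ∃ c d : X →L[ℝ] X, Pr c d ∧ c x = x' := by
  obtain ⟨y1, hy1, hey1⟩ : ∃ y1 : X, y1 ≠ 0 ∧ e y1 = 0 := by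
    by_contra hcon
    push Not at hcon
    apply hX
    have hinj : Function.Injective (e : X →ₗ[ℝ] X) := by
      rw [← LinearMap.ker_eq_bot, LinearMap.ker_eq_bot']
      intro m hm
      by_contra hm0
      exact hcon m hm0 hm
    haveI : FiniteDimensional ℝ (LinearMap.range (e : X →ₗ[ℝ] X)) := h.fr
    exact FiniteDimensional.of_injective ((e : X →ₗ[ℝ] X).rangeRestrict) (by
      intro u v huv
      exact hinj (congrArg Subtype.val huv))
  obtain ⟨e', h', hy1'⟩ := h.exists_at htr hy1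
  have hee' : e * e' = 0 := by
    obtain ⟨l, hl⟩ := h'.scal e h.pr
    have h1 : l • y1 = 0 := by
      have h2 := DFunLike.congr_fun hl y1
      have h3 : e' (e (e' y1)) = l • e' y1 := h2
      rw [hy1', hey1, map_zero] at h3
      exact h3.symm
    have hl0 : l = 0 := (smul_eq_zero.1 h1).resolve_right hy1
    rw [hl0, zero_smul] at hl
    refine (h.pr.mul h'.pr).pos' ?_
    have : (e' * e) * (e * e') = e' * (e * e) * e' := by simp only [mul_assoc]
    rw [this, h.idem, hl]
  have he'e : e' * e = 0 := by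
    have h1 : Pr (e * e') (e' * e) := h.pr.mul h'.pr
    rw [hee'] at h1
    exact h1.zero_left
  obtain ⟨c, d, hcd, hne⟩ := h.prime h' htr
  set a := e' * c * e with ha
  set b := e * d * e' with hb
  have hab : Pr a b := by
    have := (h'.pr.mul hcd).mul h.pr
    rwa [← mul_assoc] at this
  obtain ⟨l, -, hl, hl0⟩ := h.lam hab
  have hae : a * e = a := by rw [ha, mul_assoc, h.idem]
  have hea : e * b = b := by rw [hb, ← mul_assoc, ← mul_assoc, h.idem]
  have hba : b * a = l • e := by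
    rw [← hl]
    have : e * (b * a) * e = (e * b) * (a * e) := by simp only [mul_assoc]
    rw [this, hae, hea]
  have hlne : l ≠ 0 := by
    intro h0
    have := hl0 h0
    rw [hae] at this
    exact hne this
  have heax' : e (a x') = 0 := by
    have h1 : e * a = 0 := by
      rw [ha, ← mul_assoc, ← mul_assoc, hee', zero_mul, zero_mul]
    exact DFunLike.congr_fun h1 x'
  have hey : e (x + a x') = x := by rw [map_add, hex, heax', add_zero]
  have hy : x + a x' ≠ 0 := by
    intro h0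
    rw [h0, map_zero] at hey
    exact hx hey.symm
  obtain ⟨e'', h'', hy''⟩ := h.exists_at htr hy
  obtain ⟨μ, hμ, hμe⟩ := scal_ne h h'' hy'' (by rw [hey]; exact hx)
  have h1 : μ • (x + a x') = e'' x := by
    have h2 := DFunLike.congr_fun hμe (x + a x')
    have h3 : e'' (e (e'' (x + a x'))) = μ • e'' (x + a x') := h2
    rw [hy'', hey] at h3
    exact h3.symm
  have hbx : b x = 0 := by
    have h2 : b * e = 0 := by
      rw [hb, mul_assoc, he'e, mul_zero]
    rw [← hex]
    exact DFunLike.congr_fun h2 x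
  have hbax : b (a x') = l • x' := by
    have h2 := DFunLike.congr_fun hba x'
    have h3 : b (a x') = l • e x' := h2
    rw [h3, hex']
  have h2 : b (e'' x) = (μ * l) • x' := by
    rw [← h1, map_smul, map_add, hbx, hbax, zero_add, smul_smul]
  refine ⟨(μ * l)⁻¹ • (b * e''), (μ * l)⁻¹ • (e'' * a), (hab.symm.mul h''.pr).smul _, ?_⟩
  show (μ * l)⁻¹ • b (e'' x) = x'
  rw [h2, smul_smul, inv_mul_cancel₀ (mul_ne_zero hμ hlne), one_smul]

/-- algebraic irreducibility -/
theorem cyc (hX : ¬ FiniteDimensional ℝ X) {e : X →L[ℝ] X} (h : MP e) (htr : Tr X) {x0 : X}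
    (hx : x0 ≠ 0) (hex : e x0 = x0) (z : X) : ∃ c d : X →L[ℝ] X, Pr c d ∧ c x0 = z := by
  by_cases hz : z = 0
  · refine ⟨0, 0, Submodule.zero_mem _, ?_⟩
    rw [hz]; rfl
  obtain ⟨e', h', hez⟩ := h.exists_at htr hz
  obtain ⟨c, d, hcd, hne⟩ := h.prime h' htr
  set a := e' * c * e with ha
  set b := e * d * e' with hb
  have hab : Pr a b := by
    have := (h'.pr.mul hcd).mul h.pr
    rwa [← mul_assoc] at this
  obtain ⟨l, -, hl, hl0⟩ := h'.lam hab.symm
  have hbe : b * e' = b := by rw [hb, mul_assoc, h'.idem]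
  have hea : e' * a = a := by rw [ha, ← mul_assoc, ← mul_assoc, h'.idem]
  have hba : a * b = l • e' := by
    rw [← hl]
    have : e' * (a * b) * e' = (e' * a) * (b * e') := by simp only [mul_assoc]
    rw [this, hea, hbe]
  have hlne : l ≠ 0 := by
    intro h0
    have h1 := hl0 h0
    rw [hbe] at h1
    rw [h1] at hab
    exact hne hab.zero_right
  have hex1 : e (l⁻¹ • b z) = l⁻¹ • b z := by
    rw [map_smul]
    congr 1
    have h1 : e * b = b := by rw [hb, ← mul_assoc, ← mul_assoc, h.idem]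
    exact DFunLike.congr_fun h1 z
  obtain ⟨c', d', hcd', hc'⟩ := h.irr hX htr hx hex hex1
  refine ⟨a * c', d' * b, hab.mul hcd', ?_⟩
  show a (c' x0) = z
  rw [hc', map_smul]
  have h1 := DFunLike.congr_fun hba z
  have h2 : a (b z) = l • e' z := h1
  rw [h2, hez, smul_smul, inv_mul_cancel₀ hlne, one_smul]

end MP

end Pool.Agent.N315.BM
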