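import Pool.Agent.N315.BM.Pairs

/-!
# Minimal self-adjoint projections in the span of the finite rank perturbations of the identity
-/

set_option autoImplicit false

namespace Pool.Agent.N315.BM

open Pool.H590R3.Ab Pool.Agent.TH596.RO

/-- symmetric operators have eigenvectors -/
lemma sym_eig (V : Type*) [AddCommGroup V] [Module ℝ V] [FiniteDimensional ℝ V] [Nontrivial V]
    (β : V →ₗ[ℝ] V →ₗ[ℝ] ℝ) (hs : ∀ u v, β u v = β v u) (hp : ∀ u, u ≠ 0 → 0 < β u u)
    (f : V →ₗ[ℝ] V) (hf : ∀ u v, β (f u) v = β u (f v)) : ∃ v : V, v ≠ 0 ∧ ∃ μ : ℝ, f v = μ • v := by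
  let core : InnerProductSpace.Core ℝ V :=
    { inner := fun u v => β u v
      conj_inner_symm := fun u v => by
        show (starRingEnd ℝ) (β v u) = β u v
        rw [conj_trivial, hs]
      re_inner_nonneg := fun u => by
        show 0 ≤ RCLike.re (β u u)
        rw [RCLike.re_to_real]
        by_cases h : u = 0
        · rw [h]; simp
        · exact (hp u h).le
      add_left := fun u v w => by
        show β (u + v) w = β u w + β v w
        rw [map_add]; rfl
      smul_left := fun u v r => by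
        show β (r • u) v = (starRingEnd ℝ) r * β u v
        rw [map_smul]; rfl
      definite := fun u h => by
        by_contra hne
        exact (hp u hne).ne' h }
  letI : NormedAddCommGroup V := core.toNormedAddCommGroup
  letI : InnerProductSpace ℝ V := InnerProductSpace.ofCore core.toCore
  have hsym : f.IsSymmetric := fun u v => hf u v
  have h1 := hsym.hasEigenvalue_iSup_of_finiteDimensional
  obtain ⟨v, hv⟩ := h1.exists_hasEigenvector
  refine ⟨v, hv.2, _, hv.apply_eq_smul⟩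

variable {X : Type*} [NormedAddCommGroup X] [NormedSpace ℝ X]

lemma eig {b : X →L[ℝ] X} (h : Pr b b) (V : Submodule ℝ X) [FiniteDimensional ℝ V] (hV : V ≠ ⊥)
    (hb : ∀ v ∈ V, b v ∈ V) : ∃ v ∈ V, v ≠ 0 ∧ ∃ μ : ℝ, b v = μ • v := by
  obtain ⟨W, β, _, hF, hs, hp, -, -, hab⟩ := h.good V
  haveI : Nontrivial V := Submodule.nontrivial_iff_ne_bot.2 hV
  obtain ⟨v, hv0, μ, hv⟩ := sym_eig V (β.compl₁₂ V.subtype V.subtype) (fun u v => hs _ _)
    (fun u hu => hp _ (hF u.2) (fun h0 => hu (Subtype.ext h0)))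
    ((b : X →ₗ[ℝ] X).restrict hb) (fun u v => hab _ (hF u.2) _ (hF v.2))
  exact ⟨v, v.2, fun h0 => hv0 (Subtype.ext h0), μ, congrArg Subtype.val hv⟩

/-- the rank -/
noncomputable def rk (a : X →L[ℝ] X) : ℕ := Module.finrank ℝ (LinearMap.range (a : X →ₗ[ℝ] X))

lemma finrank_map_lt {V : Submodule ℝ X} [FiniteDimensional ℝ V] {f : X →ₗ[ℝ] X} {v : X}
    (hv : v ∈ V) (hv0 : v ≠ 0) (hf : f v = 0) :
    Module.finrank ℝ (V.map f) < Module.finrank ℝ V := by
  have h1 := LinearMap.finrank_range_add_finrank_ker (f.domRestrict V)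
  have h2 : LinearMap.range (f.domRestrict V) = V.map f := by
    rw [LinearMap.range_domRestrict]
  rw [h2] at h1
  have h3 : 0 < Module.finrank ℝ (LinearMap.ker (f.domRestrict V)) := by
    rw [Module.finrank_pos_iff]
    refine Submodule.nontrivial_iff_ne_bot.2 fun h => ?_
    have h4 : (⟨v, hv⟩ : V) ∈ LinearMap.ker (f.domRestrict V) := hf
    rw [h] at h4
    exact hv0 (congrArg Subtype.val ((Submodule.mem_bot ℝ).1 h4))
  omega

/-- minimal self-adjoint projections -/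
structure MP (e : X →L[ℝ] X) : Prop where
  pr : Pr e e
  idem : e * e = e
  ne : e ≠ 0
  fr : FR e
  scal : ∀ c, Pr c c → ∃ μ : ℝ, e * c * e = μ • e

lemma range_mul (a b : X →L[ℝ] X) : LinearMap.range ((a * b : X →L[ℝ] X) : X →ₗ[ℝ] X) =
    (LinearMap.range (b : X →ₗ[ℝ] X)).map (a : X →ₗ[ℝ] X) := by
  ext y
  simp only [LinearMap.mem_range, Submodule.mem_map]
  constructor
  · rintro ⟨x, rfl⟩
    exact ⟨b x, ⟨x, rfl⟩, rfl⟩
  · rintro ⟨_, ⟨x, rfl⟩, rfl⟩
    exact ⟨x, rfl⟩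

/-- existence of a minimal projection -/
theorem exists_MP {T : X ≃ₗᵢ[ℝ] X} (hT : FR (op T - 1)) (hT1 : op T ≠ 1) :
    ∃ e : X →L[ℝ] X, MP e := by
  classical
  have hex : ∃ r : ℕ, ∃ a b : X →L[ℝ] X, Pr a b ∧ a ≠ 0 ∧ FR a ∧ rk a = r :=
    ⟨_, op T - 1, op T⁻¹ - 1, (Pr.of_op hT).sub Pr.one, sub_ne_zero.2 hT1, hT, rfl⟩
  set m := Nat.find hex with hm
  have hmin : ∀ c d : X →L[ℝ] X, Pr c d → c ≠ 0 → FR c → m ≤ rk c := fun c d h1 h2 h3 =>
    Nat.find_min' hex ⟨c, d, h1, h2, h3, rfl⟩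
  obtain ⟨a, a', hab, ha0, haf, ham⟩ := Nat.find_spec hex
  rw [← hm] at ham
  -- the symmetric element
  set b := a' * a with hb
  have hbb : Pr b b := hab.symm.mul hab
  have hb0 : b ≠ 0 := fun h => ha0 (hab.pos' h)
  have hbf : FR b := haf.mul_left _
  have hbm : rk b ≤ m := by
    rw [← ham]
    haveI : FiniteDimensional ℝ (LinearMap.range (a : X →ₗ[ℝ] X)) := haf
    unfold rk
    rw [hb, range_mul]
    exact Submodule.finrank_map_le _ _
  have hbm' : rk b = m := le_antisymm hbm (hmin b b hbb hb0 hbf)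
  haveI hVfd : FiniteDimensional ℝ (LinearMap.range (b : X →ₗ[ℝ] X)) := hbf
  have hVne : LinearMap.range (b : X →ₗ[ℝ] X) ≠ ⊥ := by
    intro h
    apply hb0
    ext u
    have : b u ∈ LinearMap.range (b : X →ₗ[ℝ] X) := ⟨u, rfl⟩
    rw [h, Submodule.mem_bot] at this
    exact this
  obtain ⟨v, hvV, hv0, μ, hv⟩ := eig hbb _ hVne (fun v _ => ⟨v, rfl⟩)
  have hμ : μ ≠ 0 := by
    rintro rfl
    obtain ⟨u, hu⟩ := hvV
    have hu' : b u = v := hu
    rw [zero_smul, ← hu'] at hv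
    exact hv0 (by rw [← hu']; exact hbb.pos hv)
  have hsq : b * b = μ • b := by
    by_contra hne
    have hd : Pr (b * b - μ • b) (b * b - μ • b) := (hbb.mul hbb).sub (hbb.smul μ)
    have hd0 : b * b - μ • b ≠ 0 := sub_ne_zero.2 hne
    have hdf : FR (b * b - μ • b) := (hbf.mul_left _).sub (hbf.smul _)
    have h1 := hmin _ _ hd hd0 hdf
    have h2 : b * b - μ • b = (b - μ • 1) * b := by
      rw [sub_mul, smul_mul_assoc, one_mul]
    rw [h2] at h1
    unfold rk at h1 hbm'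
    rw [range_mul] at h1
    have h3 : Module.finrank ℝ ((LinearMap.range (b : X →ₗ[ℝ] X)).map
        ((b - μ • (1 : X →L[ℝ] X) : X →L[ℝ] X) : X →ₗ[ℝ] X)) <
        Module.finrank ℝ (LinearMap.range (b : X →ₗ[ℝ] X)) := by
      refine finrank_map_lt hvV hv0 ?_
      show b v - μ • v = 0
      rw [hv, sub_self]
    omega
  set e := μ⁻¹ • b with he
  have heb : b = μ • e := by rw [he, smul_smul, mul_inv_cancel₀ hμ, one_smul]
  have hee : e * e = e := by
    rw [he, smul_mul_smul_comm, hsq, smul_smul, mul_assoc, inv_mul_cancel₀ hμ, mul_one]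
  have hpe : Pr e e := hbb.smul _
  have hef : FR e := hbf.smul _
  have he0 : e ≠ 0 := by
    intro h
    rw [heb, h, smul_zero] at hb0
    exact hb0 rfl
  have hrange : LinearMap.range (e : X →ₗ[ℝ] X) = LinearMap.range (b : X →ₗ[ℝ] X) := by
    apply le_antisymm
    · rintro _ ⟨x, rfl⟩
      exact ⟨μ⁻¹ • x, by simp [he]⟩
    · rintro _ ⟨x, rfl⟩
      refine ⟨μ • x, ?_⟩
      show e (μ • x) = b x
      rw [map_smul, heb]; rfl
  have hem : rk e = m := by
    unfold rk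
    rw [hrange]
    exact hbm'
  refine ⟨e, hpe, hee, he0, hef, fun c hc => ?_⟩
  haveI : FiniteDimensional ℝ (LinearMap.range (e : X →ₗ[ℝ] X)) := hef
  have hd : Pr (e * c * e) (e * c * e) := by
    have := (hpe.mul hc).mul hpe
    rwa [← mul_assoc] at this
  obtain ⟨w, hwV, hw0, ν, hw⟩ := eig hd (LinearMap.range (e : X →ₗ[ℝ] X)) (by rw [hrange]; exact hVne)
    (fun v _ => ⟨c (e v), rfl⟩)
  refine ⟨ν, ?_⟩
  by_contra hne
  have hg : Pr (e * c * e - ν • e) (e * c * e - ν • e) := hd.sub (hpe.smul ν)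
  have hg0 : e * c * e - ν • e ≠ 0 := sub_ne_zero.2 hne
  have hgf : FR (e * c * e - ν • e) := (hef.mul_left _).sub (hef.smul _)
  have h1 := hmin _ _ hg hg0 hgf
  have h2 : e * c * e - ν • e = (e * c * e - ν • e) * e := by
    rw [sub_mul, smul_mul_assoc ν e e, mul_assoc (e * c) e e, hee]
  rw [h2] at h1
  unfold rk at h1 hem
  rw [range_mul] at h1
  obtain ⟨u, hu⟩ := hwV
  have hu' : e u = w := hu
  have hew : e w = w := by
    rw [← hu']
    exact DFunLike.congr_fun hee u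
  have h3 : Module.finrank ℝ ((LinearMap.range (e : X →ₗ[ℝ] X)).map
      ((e * c * e - ν • e : X →L[ℝ] X) : X →ₗ[ℝ] X)) <
      Module.finrank ℝ (LinearMap.range (e : X →ₗ[ℝ] X)) := by
    refine finrank_map_lt ⟨u, hu⟩ hw0 ?_
    show (e * c * e) w - ν • e w = 0
    rw [hw, hew, sub_self]
  omega

namespace MP

lemma conj {e : X →L[ℝ] X} (h : MP e) (U : X ≃ₗᵢ[ℝ] X) : MP (cj U e) := by
  have hinv : ∀ c : X →L[ℝ] X, cj U (cj U⁻¹ c) = c := by
    intro c
    ext x
    show U (U⁻¹ (c (U (U⁻¹ x)))) = c x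
    have h1 : U (U⁻¹ x) = x := U.apply_symm_apply x
    have h2 : U (U⁻¹ (c x)) = c x := U.apply_symm_apply _
    rw [h1, h2]
  have hinv' : ∀ c : X →L[ℝ] X, cj U⁻¹ (cj U c) = c := by
    intro c
    ext x
    show U⁻¹ (U (c (U⁻¹ (U x)))) = c x
    have h1 : U⁻¹ (U x) = x := U.symm_apply_apply x
    have h2 : U⁻¹ (U (c x)) = c x := U.symm_apply_apply _
    rw [h1, h2]
  refine ⟨h.pr.conj U, ?_, ?_, ?_, ?_⟩
  · rw [← map_mul, h.idem]
  · intro h0
    apply h.ne
    rw [← hinv' e, h0, map_zero]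
  · exact (h.fr.mul_left (op U)).mul_right (op U⁻¹)
  · intro c hc
    obtain ⟨μ, hμ⟩ := h.scal (cj U⁻¹ c) (hc.conj U⁻¹)
    refine ⟨μ, ?_⟩
    rw [← map_smul, ← hμ, map_mul, map_mul, hinv]

lemma exists_vec {e : X →L[ℝ] X} (h : MP e) : ∃ x : X, x ≠ 0 ∧ e x = x := by
  obtain ⟨u, hu⟩ : ∃ u, e u ≠ 0 := by
    by_contra hcon
    push Not at hcon
    exact h.ne (ContinuousLinearMap.ext hcon)
  exact ⟨e u, hu, DFunLike.congr_fun h.idem u⟩

lemma smul_inj {e : X →L[ℝ] X} (h : MP e) {s t : ℝ} (hst : s • e = t • e) : s = t := by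
  obtain ⟨x, hx, hex⟩ := h.exists_vec
  have h1 := DFunLike.congr_fun hst x
  have h2 : s • e x = t • e x := h1
  rw [hex] at h2
  exact smul_left_injective ℝ hx h2

lemma lam {e : X →L[ℝ] X} (h : MP e) {a b : X →L[ℝ] X} (hab : Pr a b) :
    ∃ l : ℝ, 0 ≤ l ∧ e * (b * a) * e = l • e ∧ (l = 0 → a * e = 0) := by
  obtain ⟨l, hl⟩ := h.scal (b * a) (hab.symm.mul hab)
  have hp : Pr (a * e) (e * b) := hab.mul h.pr
  have h1 : (e * b) * (a * e) = l • e := by
    rw [← hl]
    simp only [mul_assoc]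
  refine ⟨l, ?_, hl, fun h0 => ?_⟩
  · obtain ⟨x, hx, hex⟩ := h.exists_vec
    obtain ⟨W, β, _, hF, hs, hpos, ha, hb, hadj⟩ := hp.good (Submodule.span ℝ {x})
    have hxW : x ∈ W := hF (Submodule.mem_span_singleton_self x)
    have h2 := hadj x hxW _ (ha x hxW)
    have h3 : (e * b) ((a * e) x) = l • x := by
      have := DFunLike.congr_fun h1 x
      have h4 : (e * b) ((a * e) x) = l • e x := this
      rw [h4, hex]
    rw [h3, map_smul, smul_eq_mul] at h2
    have h4 := hpos x hxW hx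
    have h5 : 0 ≤ β ((a * e) x) ((a * e) x) := by
      by_cases h6 : (a * e) x = 0
      · rw [h6]; simp
      · exact (hpos _ (ha x hxW) h6).le
    by_contra hneg
    push Not at hneg
    nlinarith
  · rw [h0, zero_smul] at h1
    exact hp.pos' h1

end MP

end Pool.Agent.N315.BM
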