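import Pool.Agent.N315.BM.Pairs

/-!
# Pair systems

A pair system is an algebra of operators with an involution given by adjoints for inner products on
arbitrarily large finite-dimensional subspaces, and which is normalised by all isometries.
-/

set_option autoImplicit false

namespace Pool.Agent.N315.BM

open Pool.H590R3.Ab Pool.Agent.TH596.RO

/-- pair systems -/
structure PSys (X : Type*) [NormedAddCommGroup X] [NormedSpace ℝ X] where
  P : (X →L[ℝ] X) → (X →L[ℝ] X) → Prop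
  psymm : ∀ a b, P a b → P b a
  padd : ∀ a b a' b', P a b → P a' b' → P (a + a') (b + b')
  psmul : ∀ (c : ℝ) a b, P a b → P (c • a) (c • b)
  pone : P 1 1
  pmul : ∀ a b a' b', P a b → P a' b' → P (a * a') (b' * b)
  pconj : ∀ (U : X ≃ₗᵢ[ℝ] X) a b, P a b → P (cj U a) (cj U b)
  pgood : ∀ a b, P a b → ∀ F : Submodule ℝ X, FiniteDimensional ℝ F →
    ∃ (W : Submodule ℝ X) (β : X →ₗ[ℝ] X →ₗ[ℝ] ℝ), FiniteDimensional ℝ W ∧ F ≤ W ∧
      (∀ u v, β u v = β v u) ∧ (∀ u ∈ W, u ≠ 0 → 0 < β u u) ∧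
      (∀ u ∈ W, a u ∈ W) ∧ (∀ u ∈ W, b u ∈ W) ∧
      ∀ u ∈ W, ∀ v ∈ W, β (a u) v = β u (b v)

variable {X : Type*} [NormedAddCommGroup X] [NormedSpace ℝ X] {S : PSys X}

/-- pairs of a pair system -/
def Pg (S : PSys X) (a b : X →L[ℝ] X) : Prop := S.P a b

namespace Pg

lemma symm {a b : X →L[ℝ] X} (h : Pg S a b) : Pg S b a := S.psymm _ _ h

lemma add {a b a' b' : X →L[ℝ] X} (h : Pg S a b) (h' : Pg S a' b') : Pg S (a + a') (b + b') :=
  S.padd _ _ _ _ h h'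

lemma smul {a b : X →L[ℝ] X} (h : Pg S a b) (c : ℝ) : Pg S (c • a) (c • b) := S.psmul c _ _ h

lemma sub {a b a' b' : X →L[ℝ] X} (h : Pg S a b) (h' : Pg S a' b') : Pg S (a - a') (b - b') := by
  have h1 := h.add (h'.smul (-1))
  rwa [neg_smul, one_smul, neg_smul, one_smul, ← sub_eq_add_neg, ← sub_eq_add_neg] at h1

lemma one : Pg S (1 : X →L[ℝ] X) 1 := S.pone

lemma zero : Pg S (0 : X →L[ℝ] X) 0 := by
  have h1 := (one (S := S)).sub (one (S := S))
  rwa [sub_self] at h1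

lemma mul {a b a' b' : X →L[ℝ] X} (h : Pg S a b) (h' : Pg S a' b') : Pg S (a * a') (b' * b) :=
  S.pmul _ _ _ _ h h'

lemma conj {a b : X →L[ℝ] X} (h : Pg S a b) (U : X ≃ₗᵢ[ℝ] X) : Pg S (cj U a) (cj U b) :=
  S.pconj U _ _ h

theorem good {a b : X →L[ℝ] X} (h : Pg S a b) (F : Submodule ℝ X) [FiniteDimensional ℝ F] :
    ∃ (W : Submodule ℝ X) (β : X →ₗ[ℝ] X →ₗ[ℝ] ℝ), FiniteDimensional ℝ W ∧ F ≤ W ∧
      (∀ u v, β u v = β v u) ∧ (∀ u ∈ W, u ≠ 0 → 0 < β u u) ∧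
      (∀ u ∈ W, a u ∈ W) ∧ (∀ u ∈ W, b u ∈ W) ∧
      ∀ u ∈ W, ∀ v ∈ W, β (a u) v = β u (b v) := S.pgood _ _ h F inferInstance

/-- positivity -/
lemma pos {a b : X →L[ℝ] X} (h : Pg S a b) {u : X} (hu : b (a u) = 0) : a u = 0 := by
  obtain ⟨W, β, _, hF, _, hp, ha, hb, hab⟩ := h.good (Submodule.span ℝ {u})
  have huW : u ∈ W := hF (Submodule.mem_span_singleton_self u)
  by_contra hne
  have h1 := hp _ (ha u huW) hne
  rw [hab u huW _ (ha u huW), hu, map_zero] at h1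
  exact lt_irrefl _ h1

lemma pos' {a b : X →L[ℝ] X} (h : Pg S a b) (hu : b * a = 0) : a = 0 := by
  ext u
  exact h.pos (DFunLike.congr_fun hu u)

lemma zero_left {b : X →L[ℝ] X} (h : Pg S 0 b) : b = 0 := by
  refine h.symm.pos' ?_
  rw [zero_mul]

lemma zero_right {a : X →L[ℝ] X} (h : Pg S a 0) : a = 0 := h.symm.zero_left

/-- uniqueness of the adjoint -/
lemma unique {a b b' : X →L[ℝ] X} (h : Pg S a b) (h' : Pg S a b') : b = b' := by
  have h1 := h.sub h'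
  rw [sub_self] at h1
  exact sub_eq_zero.1 h1.zero_left

end Pg

end Pool.Agent.N315.BM
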