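import Mathlib

/-!
# An inner product on a finite-dimensional normed space which is invariant under all isometries

`Λ f = ∫ f w • w` over the unit ball is an equivariant isomorphism of the dual onto the space.
-/

set_option autoImplicit false

namespace Pool.Agent.N315.BM

open MeasureTheory Metric Set

theorem exists_inv_form (W : Type*) [NormedAddCommGroup W] [NormedSpace ℝ W]
    [FiniteDimensional ℝ W] :
    ∃ β : W →ₗ[ℝ] W →ₗ[ℝ] ℝ, (∀ u v, β u v = β v u) ∧ (∀ u, u ≠ 0 → 0 < β u u) ∧
      ∀ T : W ≃ₗᵢ[ℝ] W, ∀ u v, β (T u) (T v) = β u v := by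
  letI : MeasurableSpace W := borel W
  haveI : BorelSpace W := ⟨rfl⟩
  haveI : ProperSpace W := FiniteDimensional.proper ℝ W
  set μ : Measure W := Measure.addHaar with hμ
  set B : Set W := closedBall 0 1 with hB
  have hBc : IsCompact B := isCompact_closedBall 0 1
  have hcont : ∀ f : Module.Dual ℝ W, Continuous f := fun f => f.continuous_of_finiteDimensional
  -- integrability
  have hint1 : ∀ f : Module.Dual ℝ W, IntegrableOn (fun w => f w • w) B μ := fun f =>
    (((hcont f).smul continuous_id).continuousOn).integrableOn_compact hBc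
  have hint2 : ∀ f g : Module.Dual ℝ W, IntegrableOn (fun w => f w * g w) B μ := fun f g =>
    (((hcont f).mul (hcont g)).continuousOn).integrableOn_compact hBc
  let Λ : Module.Dual ℝ W →ₗ[ℝ] W :=
    { toFun := fun f => ∫ w in B, f w • w ∂μ
      map_add' := fun f g => by
        rw [← integral_add (hint1 f) (hint1 g)]
        refine integral_congr_ae (Filter.Eventually.of_forall fun w => ?_)
        simp only [LinearMap.add_apply, add_smul]
      map_smul' := fun c f => by
        rw [RingHom.id_apply, ← integral_smul]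
        refine integral_congr_ae (Filter.Eventually.of_forall fun w => ?_)
        simp only [LinearMap.smul_apply, smul_eq_mul, mul_smul] }
  have hΛ : ∀ f, Λ f = ∫ w in B, f w • w ∂μ := fun f => rfl
  have hgΛ : ∀ f g : Module.Dual ℝ W, g (Λ f) = ∫ w in B, f w * g w ∂μ := by
    intro f g
    have h := (LinearMap.toContinuousLinearMap g).integral_comp_comm (hint1 f)
    rw [hΛ]
    have e1 : (LinearMap.toContinuousLinearMap g) (∫ w in B, f w • w ∂μ) =
      g (∫ w in B, f w • w ∂μ) := rfl
    rw [← e1, ← h]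
    refine integral_congr_ae (Filter.Eventually.of_forall fun w => ?_)
    show g (f w • w) = f w * g w
    rw [map_smul, smul_eq_mul]
  have hpos : ∀ f : Module.Dual ℝ W, f ≠ 0 → 0 < f (Λ f) := by
    intro f hf
    rw [hgΛ]
    have hnn : ∀ w, 0 ≤ f w * f w := fun w => mul_self_nonneg _
    obtain ⟨w0, hw0⟩ : ∃ w, f w ≠ 0 := by
      by_contra h
      push Not at h
      exact hf (LinearMap.ext h)
    have hw00 : w0 ≠ 0 := by
      rintro rfl
      exact hw0 (map_zero f)
    set w1 : W := (2 * ‖w0‖)⁻¹ • w0 with hw1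
    have hn0 : 0 < ‖w0‖ := norm_pos_iff.2 hw00
    have hw1B : w1 ∈ ball (0 : W) 1 := by
      rw [mem_ball_zero_iff, hw1, norm_smul, norm_inv, norm_mul, norm_norm, Real.norm_ofNat]
      rw [inv_mul_lt_iff₀ (by positivity)]
      linarith
    have hfw1 : f w1 ≠ 0 := by
      rw [hw1, map_smul, smul_eq_mul]
      exact mul_ne_zero (by positivity) hw0
    have hsupp : 0 < μ (Function.support (fun w => f w * f w) ∩ B) := by
      have ho : IsOpen ({w | f w ≠ 0} ∩ ball (0 : W) 1) :=
        ((isOpen_ne_fun (hcont f) continuous_const)).inter isOpen_ball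
      refine lt_of_lt_of_le (ho.measure_pos μ ⟨w1, hfw1, hw1B⟩) (measure_mono ?_)
      rintro w ⟨h1, h2⟩
      exact ⟨mul_ne_zero h1 h1, ball_subset_closedBall h2⟩
    exact (setIntegral_pos_iff_support_of_nonneg_ae
      (Filter.Eventually.of_forall fun w => hnn w) (hint2 f f)).2 hsupp
  have hinj : Function.Injective Λ := by
    rw [← LinearMap.ker_eq_bot, LinearMap.ker_eq_bot']
    intro f hf
    by_contra h
    have := hpos f h
    rw [hf, map_zero] at this
    exact lt_irrefl _ this
  let Λe : Module.Dual ℝ W ≃ₗ[ℝ] W :=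
    LinearEquiv.ofInjectiveOfFinrankEq Λ hinj Subspace.dual_finrank_eq
  have hΛe : ∀ f, Λe f = Λ f := fun f => rfl
  -- measure preservation
  have hmp : ∀ T : W ≃ₗᵢ[ℝ] W, μ.map T = μ := by
    intro T
    have hdet : LinearMap.det (T.toLinearEquiv : W →ₗ[ℝ] W) ≠ 0 :=
      (LinearEquiv.isUnit_det' T.toLinearEquiv).ne_zero
    have h1 := Measure.map_linearMap_addHaar_eq_smul_addHaar μ hdet
    have h1' : μ.map T = ENNReal.ofReal |(LinearMap.det (T.toLinearEquiv : W →ₗ[ℝ] W))⁻¹| • μ := h1
    have h2 : (μ.map T) B = μ B := by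
      rw [Measure.map_apply T.continuous.measurable isClosed_closedBall.measurableSet]
      congr 1
      ext w
      simp [hB]
    have hB0 : μ B ≠ 0 := (measure_closedBall_pos μ 0 zero_lt_one).ne'
    have hBt : μ B ≠ ⊤ := hBc.measure_lt_top.ne
    rw [h1', Measure.smul_apply, smul_eq_mul] at h2
    have h3 : ENNReal.ofReal |(LinearMap.det (T.toLinearEquiv : W →ₗ[ℝ] W))⁻¹| = 1 := by
      have h4 : ENNReal.ofReal |(LinearMap.det (T.toLinearEquiv : W →ₗ[ℝ] W))⁻¹| * μ B = 1 * μ B := by
        rw [h2, one_mul]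
      exact (ENNReal.mul_left_inj hB0 hBt).1 h4
    rw [h1', h3, one_smul]
  have heq : ∀ (T : W ≃ₗᵢ[ℝ] W) (f : Module.Dual ℝ W),
      Λ (f.comp (T.symm.toLinearEquiv : W →ₗ[ℝ] W)) = T (Λ f) := by
    intro T f
    rw [hΛ, hΛ]
    have hme : MeasurableEmbedding T := T.toHomeomorph.measurableEmbedding
    have hpre : T ⁻¹' B = B := by
      ext w
      simp [hB]
    have h1 : ∫ w in B, (f.comp (T.symm.toLinearEquiv : W →ₗ[ℝ] W)) w • w ∂μ =
        ∫ w in B, f w • T w ∂μ := by
      have h2 := hme.setIntegral_map (μ := μ)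
        (fun w => (f.comp (T.symm.toLinearEquiv : W →ₗ[ℝ] W)) w • w) B
      rw [hmp T, hpre] at h2
      rw [h2]
      refine integral_congr_ae (Filter.Eventually.of_forall fun w => ?_)
      show f (T.symm (T w)) • T w = f w • T w
      rw [T.symm_apply_apply]
    rw [h1]
    have h3 := (T.toContinuousLinearEquiv : W →L[ℝ] W).integral_comp_comm (hint1 f)
    have e1 : (T.toContinuousLinearEquiv : W →L[ℝ] W) (∫ w in B, f w • w ∂μ) =
      T (∫ w in B, f w • w ∂μ) := rfl
    rw [← e1, ← h3]
    refine integral_congr_ae (Filter.Eventually.of_forall fun w => ?_)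
    show f w • T w = T (f w • w)
    rw [map_smul]
  refine ⟨(Λe.symm : W →ₗ[ℝ] Module.Dual ℝ W), ?_, ?_, ?_⟩
  · intro u v
    obtain ⟨f, rfl⟩ := Λe.surjective u
    obtain ⟨g, rfl⟩ := Λe.surjective v
    show (Λe.symm (Λe f)) (Λe g) = (Λe.symm (Λe g)) (Λe f)
    rw [Λe.symm_apply_apply, Λe.symm_apply_apply, hΛe, hΛe, hgΛ, hgΛ]
    refine integral_congr_ae (Filter.Eventually.of_forall fun w => ?_)
    exact mul_comm _ _
  · intro u hu
    obtain ⟨f, rfl⟩ := Λe.surjective u
    show 0 < (Λe.symm (Λe f)) (Λe f)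
    rw [Λe.symm_apply_apply]
    refine hpos f ?_
    rintro rfl
    exact hu (map_zero _)
  · intro T u v
    obtain ⟨f, rfl⟩ := Λe.surjective u
    show (Λe.symm (T (Λe f))) (T v) = (Λe.symm (Λe f)) v
    have h1 : T (Λe f) = Λe (f.comp (T.symm.toLinearEquiv : W →ₗ[ℝ] W)) := (heq T f).symm
    rw [h1, Λe.symm_apply_apply, Λe.symm_apply_apply]
    show f (T.symm (T v)) = f v
    rw [T.symm_apply_apply]

end Pool.Agent.N315.BM
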