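import Pool.Agent.N315.BM.Rec
import Pool.Agent.N315.BM.FinRank

/-!
# Local finiteness in the discrete case

If the group of compact perturbations of the identity is norm discrete and contains `T0 ≠ 1`, and the
isometry group is transitive, then for finitely many compact perturbations `T` of the identity every
vector lies in a finite-dimensional subspace which is invariant under all these `T`.
-/

set_option autoImplicit false

namespace Pool.Agent.N315.BM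

open Pool.H590R3.Ab Pool.Agent.TH596.RO Pool.Agent.H984R3.AbPartiOf Filter Topology

variable {X : Type*} [NormedAddCommGroup X] [NormedSpace ℝ X]

/-- spectral part near `1` -/
noncomputable def PP (T : X ≃ₗᵢ[ℝ] X) (δ : ℝ) : X →L[ℝ] X := Fop T (ca (Fd δ))

/-- spectral part away from `1` -/
noncomputable def QQ (T : X ≃ₗᵢ[ℝ] X) (δ : ℝ) : X →L[ℝ] X := Fop T (ca (fun θ => 1 - Fd δ θ))

lemma fd_sup {ι : Type*} (s : Finset ι) (S : ι → Submodule ℝ X)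
    (h : ∀ i ∈ s, FiniteDimensional ℝ (S i)) : FiniteDimensional ℝ (s.sup S : Submodule ℝ X) := by
  classical
  induction s using Finset.induction_on with
  | empty =>
    rw [Finset.sup_empty]
    infer_instance
  | insert i s hi ih =>
    haveI := ih (fun j hj => h j (Finset.mem_insert_of_mem hj))
    haveI := h i (Finset.mem_insert_self i s)
    rw [Finset.sup_insert]
    infer_instance

lemma inv_mem {z : X ≃ₗᵢ[ℝ] X} {Y : Submodule ℝ X} [FiniteDimensional ℝ Y]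
    (hY : ∀ y ∈ Y, z y ∈ Y) {y : X} (hy : y ∈ Y) : z⁻¹ y ∈ Y := by
  have h1 : Y.map (z.toLinearEquiv : X →ₗ[ℝ] X) ≤ Y := by
    rintro _ ⟨u, hu, rfl⟩
    exact hY u hu
  have h2 : Y.map (z.toLinearEquiv : X →ₗ[ℝ] X) = Y :=
    Submodule.eq_of_le_of_finrank_eq h1 (LinearEquiv.finrank_map_eq z.toLinearEquiv Y)
  rw [← h2] at hy
  obtain ⟨u, hu, rfl⟩ := hy
  have : z⁻¹ (z u) = u := z.symm_apply_apply u
  show z⁻¹ (z u) ∈ Y
  rw [this]
  exact hu

lemma zpow_mem' {z : X ≃ₗᵢ[ℝ] X} {Y : Submodule ℝ X} [FiniteDimensional ℝ Y]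
    (hY : ∀ y ∈ Y, z y ∈ Y) (k : ℤ) {y : X} (hy : y ∈ Y) : (z ^ k) y ∈ Y := by
  have hn : ∀ (w : X ≃ₗᵢ[ℝ] X), (∀ y ∈ Y, w y ∈ Y) → ∀ (n : ℕ), ∀ y ∈ Y, (w ^ n) y ∈ Y := by
    intro w hw n
    induction n with
    | zero => intro y hy; exact hy
    | succ n ih =>
      intro y hy
      rw [pow_succ']
      exact hw _ (ih y hy)
  obtain ⟨n, rfl | rfl⟩ := k.eq_nat_or_neg
  · rw [zpow_natCast]
    exact hn z hY n y hy
  · rw [zpow_neg, zpow_natCast, ← inv_pow]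
    exact hn z⁻¹ (fun y hy => inv_mem hY hy) n y hy

section
variable [CompleteSpace X]

lemma PP_eq (T : X ≃ₗᵢ[ℝ] X) {δ : ℝ} (hδ : 0 < δ) (hδ1 : δ ≤ 1) : QQ T δ = 1 - PP T δ :=
  Fop_compl T hδ hδ1

lemma PP_QQ (T : X ≃ₗᵢ[ℝ] X) {δ δ1 : ℝ} (hδ1 : 0 < δ1) (h : δ1 ≤ δ / 2) (hδ : δ ≤ 1) :
    PP T δ1 * QQ T δ = 0 := by
  have h0 : 0 < δ := by linarith
  have h1 : δ1 ≤ 1 := by linarith
  refine Fop_mul_eq_zero T (Fd_summable hδ1 h1) (compl_summable h0 hδ) (fun m => ?_)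
  have hcc : Continuous fun θ => 1 - Fd δ θ := continuous_const.sub (Fd_cont δ)
  rw [prodS (Fd δ1) (fun θ => 1 - Fd δ θ) (Fd_cont _) hcc (Fd_even _) (Fd_per _)
    (fun θ => by rw [Fd_even]) (fun θ => by rw [Fd_per]) (Fd_summable hδ1 h1)
    (compl_summable h0 hδ) m]
  have e1 : (fun θ => Fd δ1 θ * (1 - Fd δ θ)) = fun _ => 0 := by
    funext θ
    by_cases h2 : δ1 ≤ |Real.cos θ - 1|
    · rw [Fd_zero hδ1 h2, zero_mul]
    · push Not at h2
      rw [Fd_one h0 (by linarith), sub_self, mul_zero]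
  rw [e1, ca_zero]

lemma QQ_PP (T : X ≃ₗᵢ[ℝ] X) {δ δ1 : ℝ} (hδ1 : 0 < δ1) (h : δ1 ≤ δ / 2) (hδ : δ ≤ 1) :
    QQ T δ * PP T δ1 = 0 := by
  rw [← PP_QQ T hδ1 h hδ]
  exact Fop_comm T (compl_summable (by linarith) hδ) (Fd_summable hδ1 (by linarith))

lemma PP_PP (T : X ≃ₗᵢ[ℝ] X) {δ δ1 : ℝ} (hδ1 : 0 < δ1) (h : δ1 ≤ δ / 2) (hδ : δ ≤ 1) :
    PP T δ * PP T δ1 = PP T δ1 := by
  have h1 := QQ_PP T hδ1 h hδ
  rw [PP_eq T (by linarith) hδ, sub_mul, one_mul] at h1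
  exact (sub_eq_zero.1 h1).symm

lemma comm_zpow {S T : X ≃ₗᵢ[ℝ] X} (h : Commute S T) (k : ℤ) :
    op S * op (T ^ k) = op (T ^ k) * op S := by
  rw [← op_mul, ← op_mul, (h.zpow_right k).eq]

lemma QQ_comm {S T : X ≃ₗᵢ[ℝ] X} (h : Commute S T) {δ : ℝ} (hδ : 0 < δ) (hδ1 : δ ≤ 1) (x : X) :
    S (QQ T δ x) = QQ T δ (S x) :=
  DFunLike.congr_fun (Fop_comm_of T (compl_summable hδ hδ1) (op S) (comm_zpow h)) x

lemma PP_mem {z : X ≃ₗᵢ[ℝ] X} {Y : Submodule ℝ X} [FiniteDimensional ℝ Y]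
    (hY : ∀ y ∈ Y, z y ∈ Y) {δ : ℝ} (hδ : 0 < δ) (hδ1 : δ ≤ 1) {y : X} (hy : y ∈ Y) :
    PP z δ y ∈ Y := by
  have hcl : IsClosed (Y : Set X) := Submodule.closed_of_finiteDimensional _
  have h1 := (summable_term z (Fd_summable hδ hδ1)).hasSum.mapL (ContinuousLinearMap.apply ℝ X y)
  refine hcl.mem_of_tendsto h1 (Eventually.of_forall fun s => ?_)
  refine Submodule.sum_mem _ fun k _ => ?_
  exact Y.smul_mem _ (zpow_mem' hY k hy)

/-- the fixed part of a vector in a finite-dimensional invariant subspace -/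
lemma fixed_part {z : X ≃ₗᵢ[ℝ] X} {Y : Submodule ℝ X} [FiniteDimensional ℝ Y]
    (hY : ∀ y ∈ Y, z y ∈ Y) {y : X} (hy : y ∈ Y) :
    ∃ y' ∈ Y, z y' = y' ∧ ∃ δ : ℝ, 0 < δ ∧ δ ≤ 1 ∧ ∃ w, y - y' = QQ z δ w := by
  classical
  let V : ℝ → Submodule ℝ X := fun δ => Y.map (PP z δ : X →ₗ[ℝ] X)
  have hex : ∃ m : ℕ, ∃ δ : ℝ, 0 < δ ∧ δ ≤ 1 ∧ Module.finrank ℝ (V δ) = m :=
    ⟨_, 1, one_pos, le_rfl, rfl⟩
  obtain ⟨δ, hδ, hδ1, hm⟩ := Nat.find_spec hex
  have hmin : ∀ δ' : ℝ, 0 < δ' → δ' ≤ 1 → Module.finrank ℝ (V δ) ≤ Module.finrank ℝ (V δ') := by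
    intro δ' h1 h2
    rw [hm]
    exact Nat.find_min' hex ⟨δ', h1, h2, rfl⟩
  have hVV : ∀ δ1 : ℝ, 0 < δ1 → δ1 ≤ δ / 2 → V δ1 = V δ := by
    intro δ1 h1 h2
    have hle : V δ1 ≤ V δ := by
      rintro _ ⟨u, hu, rfl⟩
      refine ⟨PP z δ1 u, PP_mem hY h1 (by linarith) hu, ?_⟩
      exact DFunLike.congr_fun (PP_PP z h1 h2 hδ1) u
    exact Submodule.eq_of_le_of_finrank_le hle (hmin δ1 h1 (by linarith))
  have hzero : ∀ v ∈ V δ, ∀ δ' : ℝ, 0 < δ' → δ' ≤ 1 → QQ z δ' v = 0 := by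
    intro v hv δ' h1 h2
    have hm1 : min δ δ' ≤ δ := min_le_left _ _
    have hm2 : min δ δ' ≤ δ' := min_le_right _ _
    have hm3 : 0 < min δ δ' := lt_min hδ h1
    rw [← hVV (min δ δ' / 2) (by positivity) (by linarith)] at hv
    obtain ⟨u, hu, rfl⟩ := hv
    exact DFunLike.congr_fun (QQ_PP z (δ := δ') (δ1 := min δ δ' / 2) (by positivity)
      (by linarith) h2) u
  have hfix : ∀ v ∈ V δ, z v = v := by
    intro v hv
    by_contra hne
    obtain ⟨δ0, hδ0, h⟩ := Fop_ne z hne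
    have h1 : min (δ0 / 2) 1 ≤ δ0 / 2 := min_le_left _ _
    have h2 : min (δ0 / 2) 1 ≤ 1 := min_le_right _ _
    have h3 : 0 < min (δ0 / 2) 1 := lt_min (by positivity) one_pos
    exact h (min (δ0 / 2) 1) h3 (by linarith) h2 (hzero v hv _ h3 h2)
  refine ⟨PP z δ y, PP_mem hY hδ hδ1 hy, hfix _ ⟨y, hy, rfl⟩, δ, hδ, hδ1, y, ?_⟩
  rw [PP_eq z hδ hδ1]
  rfl

/-- the fixed space of a compact operator -/
lemma fd_fix {κ : X →L[ℝ] X} (hκ : CO κ) :
    FiniteDimensional ℝ (LinearMap.ker ((κ - 1 : X →L[ℝ] X) : X →ₗ[ℝ] X)) := by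
  set V : Submodule ℝ X := LinearMap.ker ((κ - 1 : X →L[ℝ] X) : X →ₗ[ℝ] X) with hV
  have hVm : ∀ x ∈ V, κ x = x := by
    intro x hx
    have : κ x - x = 0 := hx
    exact sub_eq_zero.1 this
  have hVcl : IsClosed (V : Set X) := ContinuousLinearMap.isClosed_ker (κ - 1)
  haveI : CompleteSpace V := hVcl.completeSpace_coe
  have hcc : IsCompact (closure ((κ : X →ₗ[ℝ] X) '' Metric.closedBall 0 1)) :=
    IsCompactOperator.isCompact_closure_image_closedBall (f := (κ : X →ₗ[ℝ] X)) hκ 1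
  have hsub : (fun v : V => (v : X)) '' Metric.closedBall 0 1 ⊆
      (κ : X →ₗ[ℝ] X) '' Metric.closedBall 0 1 := by
    rintro _ ⟨v, hv, rfl⟩
    refine ⟨v, ?_, hVm v v.2⟩
    rw [mem_closedBall_zero_iff] at hv ⊢
    exact hv
  have htb : TotallyBounded ((fun v : V => (v : X)) '' Metric.closedBall 0 1) :=
    hcc.totallyBounded.subset (hsub.trans subset_closure)
  have htb2 : TotallyBounded (Metric.closedBall (0 : V) 1) :=
    (totallyBounded_image_iff (isUniformInducing_val (V : Set X))).1 htb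
  have hcb : IsCompact (Metric.closedBall (0 : V) 1) :=
    isCompact_iff_totallyBounded_isComplete.2 ⟨htb2, Metric.isClosed_closedBall.isComplete⟩
  exact FiniteDimensional.of_isCompact_closedBall₀ ℝ one_pos hcb

/-- vectors of finite order -/
lemma fd_order {T : X ≃ₗᵢ[ℝ] X} (hT : CP T) {n : ℕ} (hn : 1 ≤ n) {Z : Submodule ℝ X}
    (hZ : ∀ v ∈ Z, (T ^ n) v = v) :
    FiniteDimensional ℝ (Z.map ((op T - 1 : X →L[ℝ] X) : X →ₗ[ℝ] X)) := by
  set κ : X →L[ℝ] X := (n : ℝ)⁻¹ • ∑ k ∈ Finset.range n, (1 - op (T ^ k)) with hκ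
  have hn0 : (n : ℝ) ≠ 0 := by
    have : 0 < n := hn
    positivity
  have hc : CO κ := by
    refine CO.smul ?_ _
    have : ∀ m : ℕ, CO (∑ k ∈ Finset.range m, (1 - op (T ^ k))) := by
      intro m
      induction m with
      | zero => rw [Finset.sum_range_zero]; exact CO.zero
      | succ m ih =>
        rw [Finset.sum_range_succ]
        refine CO.add ih ?_
        have e1 : (1 : X →L[ℝ] X) - op (T ^ m) = -(op (T ^ m) - 1) := by abel
        rw [e1]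
        exact CO.neg (hT.npow m)
    exact this n
  haveI := fd_fix hc
  refine Submodule.finiteDimensional_of_le
    (S₂ := LinearMap.ker ((κ - 1 : X →L[ℝ] X) : X →ₗ[ℝ] X)) ?_
  rintro _ ⟨v, hv, rfl⟩
  show κ (T v - v) - (T v - v) = 0
  have h1 : (∑ k ∈ Finset.range n, (1 - op (T ^ k))) (T v - v) =
      (n : ℝ) • (T v - v) - ((T ^ n) v - v) := by
    have h2 : ∀ m : ℕ, (∑ k ∈ Finset.range m, (1 - op (T ^ k))) (T v - v) =
        (m : ℝ) • (T v - v) - ((T ^ m) v - v) := by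
      intro m
      induction m with
      | zero =>
        rw [Finset.sum_range_zero, Nat.cast_zero, zero_smul, pow_zero]
        show (0 : X) = 0 - (v - v)
        rw [sub_self, sub_zero]
      | succ m ih =>
        rw [Finset.sum_range_succ]
        have e1 : (∑ k ∈ Finset.range m, (1 - op (T ^ k)) + (1 - op (T ^ m))) (T v - v) =
            (∑ k ∈ Finset.range m, (1 - op (T ^ k))) (T v - v) +
              ((T v - v) - (T ^ m) (T v - v)) := rfl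
        have e2 : (T ^ (m + 1)) v = (T ^ m) (T v) := by rw [pow_succ]; rfl
        rw [e1, ih, e2, map_sub, Nat.cast_succ, add_smul, one_smul]
        abel
    exact h2 n
  have h3 : κ (T v - v) = (n : ℝ)⁻¹ • (∑ k ∈ Finset.range n, (1 - op (T ^ k))) (T v - v) := rfl
  rw [h3, h1, hZ v hv, sub_self, sub_zero, smul_smul, inv_mul_cancel₀ hn0, one_smul, sub_self]

/-- local finiteness for vectors in the range of a spectral projection -/
theorem lf_range (hd : Dis X) (s : Finset (X ≃ₗᵢ[ℝ] X)) (hs : ∀ T ∈ s, CP T) {T₁ : X ≃ₗᵢ[ℝ] X}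
    (hT₁ : T₁ ∈ s) {δ : ℝ} (hδ : 0 < δ) (hδ1 : δ ≤ 1) (x : X) :
    ∃ W : Submodule ℝ X, FiniteDimensional ℝ W ∧ QQ T₁ δ x ∈ W ∧ ∀ T ∈ s, ∀ w ∈ W, T w ∈ W := by
  classical
  have hcp := fun (T : X ≃ₗᵢ[ℝ] X) (hT : T ∈ s) =>
    comm_pow hd (hs T hT) (s := (s : Set (X ≃ₗᵢ[ℝ] X))) s.finite_toSet hs
  choose! n hn1 hn2 using hcp
  set z : (X ≃ₗᵢ[ℝ] X) → (X ≃ₗᵢ[ℝ] X) := fun T => T ^ (n T) with hz
  have hzc : ∀ T ∈ s, ∀ S ∈ s, Commute (z T) S := fun T hT S hS => hn2 T hT S hS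
  have hzz : ∀ T ∈ s, ∀ S ∈ s, Commute (z T) (z S) := fun T hT S hS => (hzc T hT S hS).pow_right _
  have hzcp : ∀ T ∈ s, CP (z T) := fun T hT => (hs T hT).npow _
  set Y : Submodule ℝ X := LinearMap.range (QQ T₁ δ : X →ₗ[ℝ] X) with hY
  have hYfd : FiniteDimensional ℝ Y := fr_Fop (hs T₁ hT₁) hδ hδ1
  have hzY : ∀ T ∈ s, ∀ y ∈ Y, z T y ∈ Y := by
    rintro T hT _ ⟨u, rfl⟩
    exact ⟨z T u, (QQ_comm (hzc T hT T₁ hT₁) hδ hδ1 u).symm⟩
  set y := QQ T₁ δ x with hy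
  have key : ∀ s' : Finset (X ≃ₗᵢ[ℝ] X), s' ⊆ s → ∃ W : Submodule ℝ X, FiniteDimensional ℝ W ∧
      (∀ S ∈ s, ∀ w ∈ W, S w ∈ W) ∧ ∃ y' ∈ Y, y - y' ∈ W ∧ ∀ T ∈ s', z T y' = y' := by
    intro s'
    induction s' using Finset.induction_on with
    | empty =>
      intro _
      refine ⟨⊥, inferInstance, ?_, y, ⟨x, rfl⟩, ?_, fun T hT => absurd hT (Finset.notMem_empty T)⟩
      · intro S _ w hw
        rw [Submodule.mem_bot] at hw ⊢
        rw [hw, map_zero]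
      · rw [sub_self]; exact Submodule.zero_mem _
    | insert T s' hTs' ih =>
      intro hss
      have hTs : T ∈ s := hss (Finset.mem_insert_self T s')
      have hs's : s' ⊆ s := fun S hS => hss (Finset.mem_insert_of_mem hS)
      obtain ⟨W, hWfd, hWinv, y', hy'Y, hyy', hy'⟩ := ih hs's
      let Y' : Submodule ℝ X :=
        { carrier := {v | v ∈ Y ∧ ∀ S ∈ s', z S v = v}
          add_mem' := fun {a b} ha hb => ⟨Y.add_mem ha.1 hb.1, fun S hS => by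
            rw [map_add, ha.2 S hS, hb.2 S hS]⟩
          zero_mem' := ⟨Y.zero_mem, fun S _ => map_zero _⟩
          smul_mem' := fun c a ha => ⟨Y.smul_mem c ha.1, fun S hS => by
            rw [map_smul, ha.2 S hS]⟩ }
      have hY'Y : Y' ≤ Y := fun v hv => hv.1
      haveI : FiniteDimensional ℝ Y' := Submodule.finiteDimensional_of_le hY'Y
      have hTY' : ∀ v ∈ Y', z T v ∈ Y' := by
        rintro v ⟨hv1, hv2⟩
        refine ⟨hzY T hTs v hv1, fun S hS => ?_⟩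
        have h1 : (z S * z T) v = (z T * z S) v := by rw [(hzz S (hs's hS) T hTs).eq]
        have h2 : z S (z T v) = z T (z S v) := h1
        rw [h2, hv2 S hS]
      obtain ⟨y'', ⟨hy''Y, hy''s⟩, hTy'', δ', hδ', hδ'1, w, hw⟩ :=
        fixed_part (z := z T) hTY' (y := y') ⟨hy'Y, hy'⟩
      haveI : FiniteDimensional ℝ (LinearMap.range (QQ (z T) δ' : X →ₗ[ℝ] X)) :=
        fr_Fop (hzcp T hTs) hδ' hδ'1
      haveI := hWfd
      refine ⟨W ⊔ LinearMap.range (QQ (z T) δ' : X →ₗ[ℝ] X), inferInstance, ?_, y'', hy''Y, ?_, ?_⟩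
      · intro S hS v hv
        obtain ⟨a, ha, b, ⟨u, rfl⟩, rfl⟩ := Submodule.mem_sup.1 hv
        rw [map_add]
        refine Submodule.add_mem_sup (hWinv S hS a ha) ⟨S u, ?_⟩
        exact (QQ_comm (hzc T hTs S hS).symm hδ' hδ'1 u).symm
      · have : y - y'' = (y - y') + (y' - y'') := by abel
        rw [this, hw]
        exact Submodule.add_mem_sup hyy' ⟨w, rfl⟩
      · intro S hS
        rcases Finset.mem_insert.1 hS with rfl | hS'
        · exact hTy''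
        · exact hy''s S hS'
  obtain ⟨W, hWfd, hWinv, y', -, hyy', hy'⟩ := key s (Finset.Subset.refl s)
  let Z : Submodule ℝ X :=
    { carrier := {v | ∀ S ∈ s, z S v = v}
      add_mem' := fun {a b} ha hb => fun S hS => by rw [map_add, ha S hS, hb S hS]
      zero_mem' := fun S _ => map_zero _
      smul_mem' := fun c a ha => fun S hS => by rw [map_smul, ha S hS] }
  have hZinv : ∀ S ∈ s, ∀ v ∈ Z, S v ∈ Z := by
    intro S hS v hv T hT
    have h1 : (z T * S) v = (S * z T) v := by rw [(hzc T hT S hS).eq]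
    have h2 : z T (S v) = S (z T v) := h1
    rw [h2, hv T hT]
  set W0 : Submodule ℝ X := s.sup fun T => Z.map ((op T - 1 : X →L[ℝ] X) : X →ₗ[ℝ] X) with hW0
  haveI hW0fd : FiniteDimensional ℝ W0 :=
    fd_sup s _ fun T hT => fd_order (hs T hT) (hn1 T hT) fun v hv => hv T hT
  have hW0Z : W0 ≤ Z := by
    refine Finset.sup_le fun T hT => ?_
    rintro _ ⟨v, hv, rfl⟩
    show T v - v ∈ Z
    exact Z.sub_mem (hZinv T hT v hv) hv
  have hstep : ∀ T ∈ s, ∀ v ∈ Z, T v - v ∈ W0 := by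
    intro T hT v hv
    exact (Finset.le_sup (f := fun T => Z.map ((op T - 1 : X →L[ℝ] X) : X →ₗ[ℝ] X)) hT :
      _ ≤ W0) ⟨v, hv, rfl⟩
  haveI := hWfd
  refine ⟨W ⊔ (W0 ⊔ Submodule.span ℝ {y'}), inferInstance, ?_, ?_⟩
  · have : y = (y - y') + (0 + y') := by abel
    rw [this]
    exact Submodule.add_mem_sup hyy' (Submodule.add_mem_sup (Submodule.zero_mem _)
      (Submodule.mem_span_singleton_self y'))
  · intro T hT v hv
    obtain ⟨a, ha, b, hb, rfl⟩ := Submodule.mem_sup.1 hv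
    obtain ⟨c, hc, d, hd', rfl⟩ := Submodule.mem_sup.1 hb
    obtain ⟨r, rfl⟩ := Submodule.mem_span_singleton.1 hd'
    have e1 : T (a + (c + r • y')) = T a + (((T c - c) + c + r • (T y' - y')) + r • y') := by
      rw [map_add, map_add, map_smul, smul_sub]
      abel
    rw [e1]
    refine Submodule.add_mem_sup (hWinv T hT a ha) (Submodule.add_mem_sup ?_ ?_)
    · exact W0.add_mem (W0.add_mem (hstep T hT c (hW0Z hc)) hc)
        (W0.smul_mem r (hstep T hT y' hy'))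
    · exact Submodule.smul_mem _ r (Submodule.mem_span_singleton_self y')

/-- every vector is in the range of a spectral projection of a conjugate -/
lemma exists_range (htr : Tr X) {T0 : X ≃ₗᵢ[ℝ] X} (hT0 : CP T0) (hT01 : op T0 ≠ 1) {y : X}
    (hy : y ≠ 0) : ∃ T₁ : X ≃ₗᵢ[ℝ] X, CP T₁ ∧ ∃ δ : ℝ, 0 < δ ∧ δ ≤ 1 ∧ ∃ x, y = QQ T₁ δ x := by
  obtain ⟨x0, hx0⟩ : ∃ x, T0 x ≠ x := by
    by_contra h
    push Not at h
    exact hT01 (ContinuousLinearMap.ext h)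
  obtain ⟨δ0, hδ0, h⟩ := Fop_ne T0 hx0
  have h1 : min (δ0 / 2) 1 ≤ δ0 / 2 := min_le_left _ _
  have h2 : min (δ0 / 2) 1 ≤ 1 := min_le_right _ _
  have h3 : 0 < min (δ0 / 2) 1 := lt_min (by positivity) one_pos
  set δ := min (δ0 / 2) 1 with hδ
  have hne : QQ T0 δ x0 ≠ 0 := h δ h3 (by linarith) h2
  obtain ⟨U, r, hr, hU⟩ := htr.dir hne hy
  refine ⟨U * T0 * U⁻¹, hT0.conj U, δ, h3, h2, r⁻¹ • U x0, ?_⟩
  have h4 : QQ (U * T0 * U⁻¹) δ = op U * QQ T0 δ * op U⁻¹ :=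
    (Fop_conj T0 U (compl_summable h3 h2)).symm
  have h5 : QQ (U * T0 * U⁻¹) δ (U x0) = U (QQ T0 δ x0) := by
    rw [h4]
    show U (QQ T0 δ (U⁻¹ (U x0))) = _
    have : U⁻¹ (U x0) = x0 := U.symm_apply_apply x0
    rw [this]
  rw [map_smul, h5, hU, smul_smul, inv_mul_cancel₀ hr, one_smul]

/-- local finiteness -/
theorem lf (hd : Dis X) (htr : Tr X) {T0 : X ≃ₗᵢ[ℝ] X} (hT0 : CP T0) (hT01 : op T0 ≠ 1)
    (s : Finset (X ≃ₗᵢ[ℝ] X)) (hs : ∀ T ∈ s, CP T) (y : X) :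
    ∃ W : Submodule ℝ X, FiniteDimensional ℝ W ∧ y ∈ W ∧ ∀ T ∈ s, ∀ w ∈ W, T w ∈ W := by
  classical
  by_cases hy : y = 0
  · refine ⟨⊥, inferInstance, ?_, ?_⟩
    · rw [hy]; exact Submodule.zero_mem _
    · intro S _ w hw
      rw [Submodule.mem_bot] at hw ⊢
      rw [hw, map_zero]
  obtain ⟨T₁, hT₁, δ, hδ, hδ1, x, hx⟩ := exists_range htr hT0 hT01 hy
  obtain ⟨W, h1, h2, h3⟩ := lf_range hd (insert T₁ s) (by
    intro T hT
    rcases Finset.mem_insert.1 hT with rfl | hT'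
    · exact hT₁
    · exact hs T hT') (Finset.mem_insert_self T₁ s) hδ hδ1 x
  refine ⟨W, h1, ?_, fun T hT => h3 T (Finset.mem_insert_of_mem hT)⟩
  rw [hx]
  exact h2

/-- local finiteness, subspaces -/
theorem lf' (hd : Dis X) (htr : Tr X) {T0 : X ≃ₗᵢ[ℝ] X} (hT0 : CP T0) (hT01 : op T0 ≠ 1)
    (s : Finset (X ≃ₗᵢ[ℝ] X)) (hs : ∀ T ∈ s, CP T) (F : Submodule ℝ X)
    (hF : FiniteDimensional ℝ F) :
    ∃ W : Submodule ℝ X, FiniteDimensional ℝ W ∧ F ≤ W ∧ ∀ T ∈ s, ∀ w ∈ W, T w ∈ W := by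
  classical
  choose Wf h1 h2 h3 using fun y : X => lf hd htr hT0 hT01 s hs y
  obtain ⟨t, ht⟩ : F.FG := (Submodule.fg_iff_finiteDimensional F).2 hF
  refine ⟨t.sup Wf, fd_sup t Wf fun y _ => h1 y, ?_, ?_⟩
  · rw [← ht, Submodule.span_le]
    intro y hy
    exact (Finset.le_sup (f := Wf) hy : Wf y ≤ t.sup Wf) (h2 y)
  · intro T hT
    have : t.sup Wf ≤ (t.sup Wf).comap (T.toLinearEquiv : X →ₗ[ℝ] X) := by
      refine Finset.sup_le fun y hy => ?_
      intro w hw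
      exact (Finset.le_sup (f := Wf) hy : Wf y ≤ t.sup Wf) (h3 y T hT w hw)
    intro w hw
    exact this hw

end

end Pool.Agent.N315.BM
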