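import Pool.Agent.N315.BM.Cpt
import Pool.Agent.N315.BM.Irr
import Pool.Agent.R287.UPa

/-!
# Ultrapowers of Banach spaces: operators, transitivity, compactness
-/

set_option autoImplicit false

namespace Pool.Agent.N315.BM

open Pool.H590R3.Ab Pool.Agent.TH596.RO Pool.Agent.R287.UP Filter Topology
open scoped ENNReal

variable (E : Type) [NormedAddCommGroup E] [NormedSpace ℝ E]

/-- the ultrapower -/
abbrev UX : Type := UltraProd ℝ (hyperfilter ℕ) (fun _ : ℕ => E)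

noncomputable instance [CompleteSpace E] : CompleteSpace (UX E) :=
  inferInstanceAs (CompleteSpace (lp (fun _ : ℕ => E) ∞ ⧸ nullFam ℝ (hyperfilter ℕ) (fun _ : ℕ => E)))

variable {E}

/-- bounded sequences -/
noncomputable def sq (x : ℕ → E) (C : ℝ) (h : ∀ n, ‖x n‖ ≤ C) : lp (fun _ : ℕ => E) ∞ :=
  ⟨x, memℓp_infty ⟨C, by rintro _ ⟨n, rfl⟩; exact h n⟩⟩

lemma sq_apply (x : ℕ → E) (C : ℝ) (h : ∀ n, ‖x n‖ ≤ C) (n : ℕ) : sq x C h n = x n := rfl

/-- the class of a bounded sequence -/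
noncomputable def cls (x : ℕ → E) (C : ℝ) (h : ∀ n, ‖x n‖ ≤ C) : UX E :=
  mk ℝ (hyperfilter ℕ) (fun _ : ℕ => E) (sq x C h)

lemma cls_tendsto (x : ℕ → E) (C : ℝ) (h : ∀ n, ‖x n‖ ≤ C) :
    Tendsto (fun n => ‖x n‖) (hyperfilter ℕ : Filter ℕ) (𝓝 ‖cls x C h‖) :=
  tendsto_norm (𝕜 := ℝ) (sq x C h)

lemma exists_cls (y : UX E) {r : ℝ} (hr : ‖y‖ < r) :
    ∃ (x : ℕ → E) (h : ∀ n, ‖x n‖ ≤ r), y = cls x r h := by
  obtain ⟨x, hx⟩ := mk_surjective (𝕜 := ℝ) (U := hyperfilter ℕ) (X := fun _ : ℕ => E) y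
  have h0 : 0 ≤ r := (norm_nonneg y).trans hr.le
  rw [← hx] at hr
  have hev := eventually_norm_lt hr
  classical
  refine ⟨fun n => if ‖x n‖ ≤ r then x n else 0, fun n => ?_, ?_⟩
  · dsimp only
    split_ifs with h
    · exact h
    · rw [norm_zero]; exact h0
  · rw [← hx]
    unfold cls
    rw [mk_eq_mk, mem_nullFam']
    intro ε hε
    filter_upwards [hev] with i hi
    have : (x - sq (fun n => if ‖x n‖ ≤ r then x n else 0) r (fun n => by
        dsimp only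
        split_ifs with h
        · exact h
        · rw [norm_zero]; exact h0)) i = 0 := by
      rw [lp.coeFn_sub, Pi.sub_apply, sq_apply, if_pos hi.le, sub_self]
    rw [this, norm_zero]
    exact hε

lemma exists_cls' (y : UX E) : ∃ (x : ℕ → E) (C : ℝ) (h : ∀ n, ‖x n‖ ≤ C), y = cls x C h := by
  obtain ⟨x, h, hx⟩ := exists_cls y (lt_add_one ‖y‖)
  exact ⟨x, _, h, hx⟩

lemma cls_eq {x y : ℕ → E} {C D : ℝ} (hx : ∀ n, ‖x n‖ ≤ C) (hy : ∀ n, ‖y n‖ ≤ D)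
    (h : Tendsto (fun n => ‖x n - y n‖) (hyperfilter ℕ : Filter ℕ) (𝓝 0)) :
    cls x C hx = cls y D hy := by
  unfold cls
  rw [mk_eq_mk, mem_nullFam]
  refine h.congr fun n => ?_
  rw [lp.coeFn_sub, Pi.sub_apply, sq_apply, sq_apply]

lemma norm_cls_eq {x : ℕ → E} {C : ℝ} (hx : ∀ n, ‖x n‖ ≤ C) {r : ℝ}
    (h : Tendsto (fun n => ‖x n‖) (hyperfilter ℕ : Filter ℕ) (𝓝 r)) : ‖cls x C hx‖ = r :=
  tendsto_nhds_unique (cls_tendsto x C hx) h

section operators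

/-- termwise application -/
noncomputable def lA (A : ℕ → E →L[ℝ] E) (C : ℝ) (hC : ∀ n, ‖A n‖ ≤ C) :
    lp (fun _ : ℕ => E) ∞ →ₗ[ℝ] lp (fun _ : ℕ => E) ∞ where
  toFun x := sq (fun n => A n (x n)) (C * ‖x‖) (fun n =>
    ((A n).le_of_opNorm_le (hC n) _).trans (mul_le_mul_of_nonneg_left
      (lp.norm_apply_le_norm (by simp) _ n) ((norm_nonneg _).trans (hC n))))
  map_add' x y := by
    ext n
    exact map_add (A n) (x n) (y n)
  map_smul' c x := by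
    ext n
    exact map_smul (A n) c (x n)

lemma lA_null (A : ℕ → E →L[ℝ] E) (C : ℝ) (hC : ∀ n, ‖A n‖ ≤ C) :
    nullFam ℝ (hyperfilter ℕ) (fun _ : ℕ => E) ≤
      (nullFam ℝ (hyperfilter ℕ) (fun _ : ℕ => E)).comap (lA A C hC) := by
  intro x hx
  rw [Submodule.mem_comap, mem_nullFam]
  rw [mem_nullFam] at hx
  have h1 := hx.const_mul C
  rw [mul_zero] at h1
  exact squeeze_zero (fun n => norm_nonneg _) (fun n => (A n).le_of_opNorm_le (hC n) _) h1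

/-- the ultraproduct of a bounded sequence of operators -/
noncomputable def uo (A : ℕ → E →L[ℝ] E) (C : ℝ) (hC : ∀ n, ‖A n‖ ≤ C) : UX E →L[ℝ] UX E :=
  LinearMap.mkContinuous (Submodule.mapQ _ _ (lA A C hC) (lA_null A C hC)) C (by
    intro y
    obtain ⟨x, rfl⟩ := mk_surjective (𝕜 := ℝ) (U := hyperfilter ℕ) (X := fun _ : ℕ => E) y
    show ‖mk ℝ (hyperfilter ℕ) (fun _ : ℕ => E) (lA A C hC x)‖ ≤ C * _
    refine le_of_tendsto_of_tendsto' (tendsto_norm (𝕜 := ℝ) (lA A C hC x))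
      ((tendsto_norm (𝕜 := ℝ) x).const_mul C) (fun n => ?_)
    exact (A n).le_of_opNorm_le (hC n) _)

lemma uo_cls (A : ℕ → E →L[ℝ] E) (C : ℝ) (hC : ∀ n, ‖A n‖ ≤ C) (x : ℕ → E) (D : ℝ)
    (hx : ∀ n, ‖x n‖ ≤ D) : ∃ hx', uo A C hC (cls x D hx) = cls (fun n => A n (x n)) (C * D) hx' := by
  have hC0 : 0 ≤ C := (norm_nonneg _).trans (hC 0)
  refine ⟨fun n => ((A n).le_of_opNorm_le (hC n) _).trans
    (mul_le_mul_of_nonneg_left (hx n) hC0), ?_⟩
  rfl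

lemma uo_norm_le {A : ℕ → E →L[ℝ] E} {C : ℝ} (hC : ∀ n, ‖A n‖ ≤ C) {c : ℝ} (hc : 0 ≤ c)
    (h : ∀ᶠ n in (hyperfilter ℕ : Filter ℕ), ‖A n‖ ≤ c) : ‖uo A C hC‖ ≤ c := by
  refine ContinuousLinearMap.opNorm_le_bound _ hc fun y => ?_
  obtain ⟨x, D, hx, rfl⟩ := exists_cls' y
  obtain ⟨hx', he⟩ := uo_cls A C hC x D hx
  rw [he]
  refine le_of_tendsto_of_tendsto (cls_tendsto _ _ hx') ((cls_tendsto x D hx).const_mul c) ?_
  filter_upwards [h] with n hn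
  exact (A n).le_of_opNorm_le hn _

/-- two bounded sequences of operators whose difference tends to zero -/
lemma uo_ext {A : ℕ → E →L[ℝ] E} {C : ℝ} (hC : ∀ n, ‖A n‖ ≤ C) (B : UX E →L[ℝ] UX E)
    (h : ∀ (x : ℕ → E) (D : ℝ) (hx : ∀ n, ‖x n‖ ≤ D) (D' : ℝ)
      (hx' : ∀ n, ‖A n (x n)‖ ≤ D'), B (cls x D hx) = cls (fun n => A n (x n)) D' hx') :
    uo A C hC = B := by
  ext y
  obtain ⟨x, D, hx, rfl⟩ := exists_cls' y
  obtain ⟨hx', he⟩ := uo_cls A C hC x D hx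
  rw [he, h x D hx _ hx']

lemma uo_one (h : ∀ _ : ℕ, ‖(1 : E →L[ℝ] E)‖ ≤ 1) : uo (fun _ => (1 : E →L[ℝ] E)) 1 h = 1 :=
  uo_ext _ _ fun _ _ _ _ _ => cls_eq _ _ (by simp)

lemma uo_add_smul {A B : ℕ → E →L[ℝ] E} {C D K : ℝ} (hA : ∀ n, ‖A n‖ ≤ C) (hB : ∀ n, ‖B n‖ ≤ D)
    (s : ℝ) (hK : ∀ n, ‖A n + s • B n‖ ≤ K) :
    uo (fun n => A n + s • B n) K hK = uo A C hA + s • uo B D hB := by
  refine uo_ext _ _ fun x R hx R' hx' => ?_
  show uo A C hA (cls x R hx) + s • uo B D hB (cls x R hx) = _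
  obtain ⟨h1, e1⟩ := uo_cls A C hA x R hx
  obtain ⟨h2, e2⟩ := uo_cls B D hB x R hx
  rw [e1, e2]
  unfold cls
  rw [← map_smul, ← map_add]
  congr 1

lemma uo_mul {A B : ℕ → E →L[ℝ] E} {C D K : ℝ} (hA : ∀ n, ‖A n‖ ≤ C) (hB : ∀ n, ‖B n‖ ≤ D)
    (hK : ∀ n, ‖A n * B n‖ ≤ K) :
    uo (fun n => A n * B n) K hK = uo A C hA * uo B D hB := by
  refine uo_ext _ _ fun x R hx R' hx' => ?_
  show uo A C hA (uo B D hB (cls x R hx)) = _
  obtain ⟨h2, e2⟩ := uo_cls B D hB x R hx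
  rw [e2]
  obtain ⟨h1, e1⟩ := uo_cls A C hA _ _ h2
  rw [e1]
  rfl

lemma uo_congr {A B : ℕ → E →L[ℝ] E} {C D : ℝ} (hA : ∀ n, ‖A n‖ ≤ C) (hB : ∀ n, ‖B n‖ ≤ D)
    (h : Tendsto (fun n => ‖A n - B n‖) (hyperfilter ℕ : Filter ℕ) (𝓝 0)) :
    uo A C hA = uo B D hB := by
  refine uo_ext _ _ fun x R hx R' hx' => ?_
  obtain ⟨h1, e1⟩ := uo_cls B D hB x R hx
  rw [e1]
  refine cls_eq _ _ ?_
  have hR : 0 ≤ R := (norm_nonneg _).trans (hx 0)
  have h2 := h.mul_const R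
  rw [zero_mul] at h2
  refine squeeze_zero (fun n => norm_nonneg _) (fun n => ?_) h2
  have h3 : B n (x n) - A n (x n) = -((A n - B n) (x n)) := by
    show _ = -(A n (x n) - B n (x n))
    abel
  rw [h3, norm_neg]
  exact ((A n - B n).le_opNorm _).trans (mul_le_mul_of_nonneg_left (hx n) (norm_nonneg _))

/-- the ultraproduct of a sequence of isometries -/
noncomputable def ui (T : ℕ → E ≃ₗᵢ[ℝ] E) : UX E ≃ₗᵢ[ℝ] UX E where
  toFun := uo (fun n => op (T n)) 1 (fun n => op_norm_le _)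
  invFun := uo (fun n => op (T n)⁻¹) 1 (fun n => op_norm_le _)
  map_add' x y := map_add _ x y
  map_smul' c x := map_smul _ c x
  left_inv y := by
    obtain ⟨x, D, hx, rfl⟩ := exists_cls' y
    obtain ⟨h1, e1⟩ := uo_cls (fun n => op (T n)) 1 (fun n => op_norm_le _) x D hx
    rw [e1]
    obtain ⟨h2, e2⟩ := uo_cls (fun n => op (T n)⁻¹) 1 (fun n => op_norm_le _) _ _ h1
    rw [e2]
    refine cls_eq _ _ ?_
    have : ∀ n, op (T n)⁻¹ (op (T n) (x n)) - x n = 0 := fun n =>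
      sub_eq_zero.2 ((T n).symm_apply_apply _)
    simp only [this, norm_zero]
    exact tendsto_const_nhds
  right_inv y := by
    obtain ⟨x, D, hx, rfl⟩ := exists_cls' y
    obtain ⟨h1, e1⟩ := uo_cls (fun n => op (T n)⁻¹) 1 (fun n => op_norm_le _) x D hx
    rw [e1]
    obtain ⟨h2, e2⟩ := uo_cls (fun n => op (T n)) 1 (fun n => op_norm_le _) _ _ h1
    rw [e2]
    refine cls_eq _ _ ?_
    have : ∀ n, op (T n) (op (T n)⁻¹ (x n)) - x n = 0 := fun n =>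
      sub_eq_zero.2 ((T n).apply_symm_apply _)
    simp only [this, norm_zero]
    exact tendsto_const_nhds
  norm_map' y := by
    obtain ⟨x, D, hx, rfl⟩ := exists_cls' y
    obtain ⟨h1, e1⟩ := uo_cls (fun n => op (T n)) 1 (fun n => op_norm_le _) x D hx
    show ‖uo (fun n => op (T n)) 1 (fun n => op_norm_le _) (cls x D hx)‖ = _
    rw [e1]
    refine norm_cls_eq _ ?_
    refine (cls_tendsto x D hx).congr fun n => ?_
    exact ((T n).norm_map _).symm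

lemma op_ui (T : ℕ → E ≃ₗᵢ[ℝ] E) : op (ui T) = uo (fun n => op (T n)) 1 (fun n => op_norm_le _) := by
  ext y; rfl

/-- the ultrapower of a space with dense orbits is transitive -/
theorem ux_tr (h : ∀ x y : E, ‖x‖ = 1 → ‖y‖ = 1 → ∀ ε : ℝ, 0 < ε → ∃ T : E ≃ₗᵢ[ℝ] E, ‖T x - y‖ < ε) :
    Tr (UX E) := by
  intro u v hu hv
  obtain ⟨x, C, hx, rfl⟩ := exists_cls' u
  obtain ⟨y, D, hy, rfl⟩ := exists_cls' v
  have key : ∀ n, ∃ T : E ≃ₗᵢ[ℝ] E,
      ‖T (x n) - y n‖ ≤ |‖x n‖ - ‖y n‖| + ‖x n‖ * (1 / ((n : ℝ) + 1)) := by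
    intro n
    by_cases hx0 : x n = 0
    · refine ⟨1, ?_⟩
      rw [hx0, map_zero, norm_zero, zero_sub, zero_sub, zero_mul, add_zero, abs_neg, norm_neg]
      exact le_abs_self _
    by_cases hy0 : y n = 0
    · refine ⟨1, ?_⟩
      rw [hy0, norm_zero, sub_zero, sub_zero, LinearIsometryEquiv.norm_map]
      have : 0 ≤ ‖x n‖ * (1 / ((n : ℝ) + 1)) := by positivity
      have h2 := le_abs_self ‖x n‖
      linarith
    have hxn : 0 < ‖x n‖ := norm_pos_iff.2 hx0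
    have hyn : 0 < ‖y n‖ := norm_pos_iff.2 hy0
    obtain ⟨T, hT⟩ := h (‖x n‖⁻¹ • x n) (‖y n‖⁻¹ • y n)
      (by rw [norm_smul, norm_inv, norm_norm, inv_mul_cancel₀ hxn.ne'])
      (by rw [norm_smul, norm_inv, norm_norm, inv_mul_cancel₀ hyn.ne']) (1 / ((n : ℝ) + 1))
      (by positivity)
    refine ⟨T, ?_⟩
    have e1 : T (x n) - y n = ‖x n‖ • (T (‖x n‖⁻¹ • x n) - ‖y n‖⁻¹ • y n) +
        (‖x n‖ - ‖y n‖) • (‖y n‖⁻¹ • y n) := by
      rw [map_smul, smul_sub, sub_smul, smul_smul, mul_inv_cancel₀ hxn.ne', one_smul, smul_smul,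
        smul_smul, mul_inv_cancel₀ hyn.ne', one_smul]
      abel
    have e2 : ‖‖y n‖⁻¹ • y n‖ = 1 := by
      rw [norm_smul, norm_inv, norm_norm, inv_mul_cancel₀ hyn.ne']
    rw [e1]
    refine (norm_add_le _ _).trans ?_
    rw [norm_smul, norm_smul, e2, mul_one, norm_norm, Real.norm_eq_abs, add_comm]
    gcongr
  choose T hT using key
  refine ⟨ui T, ?_⟩
  show uo (fun n => op (T n)) 1 (fun n => op_norm_le _) (cls x C hx) = cls y D hy
  obtain ⟨h1, e1⟩ := uo_cls (fun n => op (T n)) 1 (fun n => op_norm_le _) x C hx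
  rw [e1]
  refine cls_eq _ _ ?_
  have t1 := cls_tendsto x C hx
  have t2 := cls_tendsto y D hy
  rw [hu] at t1
  rw [hv] at t2
  have t3 : Tendsto (fun n : ℕ => 1 / ((n : ℝ) + 1)) (hyperfilter ℕ : Filter ℕ) (𝓝 0) :=
    tendsto_one_div_add_atTop_nhds_zero_nat.mono_left Nat.hyperfilter_le_atTop
  have t4 := (t1.sub t2).abs.add (t1.mul t3)
  rw [sub_self, abs_zero, mul_zero, add_zero] at t4
  exact squeeze_zero (fun n => norm_nonneg _) hT t4

/-- the canonical embedding -/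
noncomputable def emb : E →ₗᵢ[ℝ] UX E where
  toFun x := cls (fun _ => x) ‖x‖ (fun _ => le_rfl)
  map_add' x y := by
    unfold cls
    rw [← map_add]
    congr 1
  map_smul' c x := by
    unfold cls
    rw [RingHom.id_apply, ← map_smul]
    congr 1
  norm_map' x := norm_cls_eq _ tendsto_const_nhds

lemma emb_apply (x : E) : emb x = cls (fun _ => x) ‖x‖ (fun _ => le_rfl) := rfl

lemma ux_inf (h : ¬ FiniteDimensional ℝ E) : ¬ FiniteDimensional ℝ (UX E) := by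
  intro h1
  exact h (FiniteDimensional.of_injective (emb (E := E)).toLinearMap (emb (E := E)).injective)

/-- the ultrapower of a compact operator is compact -/
theorem co_uo {K : E →L[ℝ] E} (hK : CO K) (C : ℝ) (hC : ∀ _ : ℕ, ‖K‖ ≤ C) :
    CO (uo (fun _ => K) C hC) := by
  have hc : IsCompact (closure ((K : E →ₗ[ℝ] E) '' Metric.closedBall 0 1)) :=
    IsCompactOperator.isCompact_closure_image_closedBall (f := (K : E →ₗ[ℝ] E)) hK 1
  refine ⟨emb (E := E) '' closure ((K : E →ₗ[ℝ] E) '' Metric.closedBall 0 1),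
    hc.image (emb (E := E)).continuous, ?_⟩
  refine Filter.mem_of_superset (Metric.ball_mem_nhds 0 one_pos) ?_
  intro y hy
  rw [mem_ball_zero_iff] at hy
  obtain ⟨x, hx, rfl⟩ := exists_cls y hy
  have hmem : ∀ n, K (x n) ∈ closure ((K : E →ₗ[ℝ] E) '' Metric.closedBall 0 1) := fun n =>
    subset_closure ⟨x n, by rw [mem_closedBall_zero_iff]; exact hx n, rfl⟩
  obtain ⟨z, hz, hlim⟩ := hc.ultrafilter_le_nhds ((hyperfilter ℕ).map fun n => K (x n)) (by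
    rw [Ultrafilter.coe_map, le_principal_iff]
    exact Filter.mem_map.2 (Filter.univ_mem' hmem))
  refine ⟨z, hz, ?_⟩
  obtain ⟨h1, e1⟩ := uo_cls (fun _ => K) C hC x 1 hx
  rw [e1, emb_apply]
  refine cls_eq _ _ ?_
  have h2 : Tendsto (fun n => K (x n)) (hyperfilter ℕ : Filter ℕ) (𝓝 z) := hlim
  have h3 := (tendsto_const_nhds (x := z)).sub h2
  rw [sub_self] at h3
  exact tendsto_zero_iff_norm_tendsto_zero.1 h3

end operators

end Pool.Agent.N315.BM
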