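import Pool.Agent.N315.BM.FinRank
import Pool.Agent.N315.BM.Ultra

/-!
# Separable transitive spaces with one compact perturbation of the identity
-/

set_option autoImplicit false

namespace Pool.Agent.N315.BM

open Pool.H590R3.Ab Pool.Agent.TH596.RO Pool.Agent.H984R3.AbPartiOf Filter Topology NormedSpace
  TopologicalSpace

section
variable {X : Type*} [NormedAddCommGroup X] [NormedSpace ℝ X] [CompleteSpace X]

noncomputable local instance : NormedAlgebra ℚ (X →L[ℝ] X) := NormedAlgebra.restrictScalars ℚ ℝ _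

/-- compact operators on infinite-dimensional spaces are not bounded below -/
lemma co_below (hX : ¬ FiniteDimensional ℝ X) {a : X →L[ℝ] X} (hc : CO a) {ε : ℝ} (hε : 0 < ε) :
    ∃ x : X, ‖x‖ = 1 ∧ ‖a x‖ ≤ ε := by
  by_contra hcon
  push Not at hcon
  have h1 : ∀ x, ‖x‖ ≤ ε⁻¹ * ‖a x‖ := by
    intro x
    by_cases hx : x = 0
    · rw [hx, norm_zero]
      positivity
    have hn : 0 < ‖x‖ := norm_pos_iff.2 hx
    have h2 := hcon (‖x‖⁻¹ • x) (by rw [norm_smul, norm_inv, norm_norm, inv_mul_cancel₀ hn.ne'])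
    rw [map_smul, norm_smul, norm_inv, norm_norm, ← div_eq_inv_mul, lt_div_iff₀ hn] at h2
    rw [← div_eq_inv_mul, le_div_iff₀ hε]
    linarith
  apply hX
  have hcc : IsCompact (closure ((a : X →ₗ[ℝ] X) '' Metric.closedBall 0 1)) :=
    IsCompactOperator.isCompact_closure_image_closedBall (f := (a : X →ₗ[ℝ] X)) hc 1
  have htb : TotallyBounded ((a : X →ₗ[ℝ] X) '' Metric.closedBall 0 1) :=
    hcc.totallyBounded.subset subset_closure
  have hanti : AntilipschitzWith (Real.toNNReal ε⁻¹) (a : X → X) := by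
    refine AntilipschitzWith.of_le_mul_dist fun x y => ?_
    rw [dist_eq_norm, dist_eq_norm, ← map_sub, Real.coe_toNNReal _ (by positivity)]
    exact h1 _
  have hui : IsUniformInducing (a : X → X) := hanti.isUniformInducing a.uniformContinuous
  have htb2 : TotallyBounded (Metric.closedBall (0 : X) 1) := (totallyBounded_image_iff hui).1 htb
  have hcb : IsCompact (Metric.closedBall (0 : X) 1) :=
    isCompact_iff_totallyBounded_isComplete.2 ⟨htb2, Metric.isClosed_closedBall.isComplete⟩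
  exact FiniteDimensional.of_isCompact_closedBall₀ ℝ one_pos hcb

/-- `exp (s (V - 1))` is a contraction for `s ≥ 0` -/
lemma exp_sub_one (V : X ≃ₗᵢ[ℝ] X) {s : ℝ} (hs : 0 ≤ s) : ‖exp (s • (op V - 1))‖ ≤ 1 := by
  have e1 : s • (op V - 1) = s • op V + algebraMap ℝ (X →L[ℝ] X) (-s) := by
    rw [smul_sub, Algebra.algebraMap_eq_smul_one, neg_smul, sub_eq_add_neg]
  have hcomm : Commute (s • op V) (algebraMap ℝ (X →L[ℝ] X) (-s)) :=
    Algebra.commute_algebraMap_right _ _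
  rw [e1, exp_add_of_commute hcomm, ← algebraMap_exp_comm (𝕂 := ℝ), ← Real.exp_eq_exp_ℝ,
    Algebra.algebraMap_eq_smul_one, mul_smul_comm, mul_one, norm_smul, Real.norm_eq_abs,
    abs_of_pos (Real.exp_pos _)]
  have h1 : ‖exp (s • op V)‖ ≤ Real.exp s := by
    refine (ex_norm_le _).trans (Real.exp_le_exp.2 ?_)
    rw [norm_smul, Real.norm_of_nonneg hs]
    exact mul_le_of_le_one_right hs (op_norm_le V)
  calc Real.exp (-s) * ‖exp (s • op V)‖ ≤ Real.exp (-s) * Real.exp s := by gcongr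
    _ = 1 := by rw [← Real.exp_add, neg_add_cancel, Real.exp_zero]

/-- one-sided quadratic bound -/
lemma one_add_le (V : X ≃ₗᵢ[ℝ] X) {m h : ℝ} (hm : 0 ≤ m) (hh : 0 ≤ h)
    (hn : ‖m • (op V - 1)‖ ≤ 1) (h1 : h ≤ 1) : ‖1 + h • (m • (op V - 1))‖ ≤ 1 + h ^ 2 := by
  set A := m • (op V - 1) with hA
  have h2 : ‖h • A‖ ≤ h := by
    rw [norm_smul, Real.norm_of_nonneg hh]
    exact mul_le_of_le_one_right hh hn
  have h3 := ex_sub_le (h2.trans h1)
  have h4 : ‖exp (h • A)‖ ≤ 1 := by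
    rw [hA, smul_smul]
    exact exp_sub_one V (mul_nonneg hh hm)
  have e1 : 1 + h • A = exp (h • A) - (exp (h • A) - 1 - h • A) := by abel
  rw [e1]
  refine (norm_sub_le _ _).trans (add_le_add h4 (h3.trans ?_))
  exact pow_le_pow_left₀ (norm_nonneg _) h2 2

/-- a transitive space with a compact perturbation of the identity and a skew-hermitian operator
which is neither zero nor bounded below is a Hilbert space -/
theorem of_sh (hX : ¬ FiniteDimensional ℝ X) (htr : Tr X) {T : X ≃ₗᵢ[ℝ] X} (hT : CP T)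
    (hT1 : op T ≠ 1) {A : X →L[ℝ] X} (hA : SH A) (hA0 : A ≠ 0) {x : X} (hx : x ≠ 0)
    (hAx : A x = 0) (u v : X) :
    ‖u + v‖ * ‖u + v‖ + ‖u - v‖ * ‖u - v‖ = 2 * (‖u‖ * ‖u‖ + ‖v‖ * ‖v‖) := by
  have hAT : AT (⊤ : Subgroup (X ≃ₗᵢ[ℝ] X)) := by
    intro x y hx hy ε hε
    obtain ⟨T, hTx⟩ := htr x y hx hy
    exact ⟨T, Subgroup.mem_top T, by rw [hTx, sub_self, norm_zero]; exact hε⟩
  obtain ⟨U, hU⟩ : ∃ U : X ≃ₗᵢ[ℝ] X, op (U * T * U⁻¹) * A ≠ A * op (U * T * U⁻¹) := by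
    by_contra hcon
    push Not at hcon
    let 𝒩 : Submodule ℝ (X →L[ℝ] X) :=
      { carrier := {a | ∀ U : X ≃ₗᵢ[ℝ] X, op (U * T * U⁻¹) * a = a * op (U * T * U⁻¹)}
        add_mem' := fun {a b} ha hb U => by rw [mul_add, add_mul, ha U, hb U]
        zero_mem' := fun U => by rw [mul_zero, zero_mul]
        smul_mem' := fun c a ha U => by rw [mul_smul_comm, smul_mul_assoc, ha U] }
    have hinv : ∀ S ∈ (⊤ : Subgroup (X ≃ₗᵢ[ℝ] X)), ∀ a ∈ 𝒩, cj S a ∈ 𝒩 := by
      intro S _ a ha U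
      have h1 := ha (S⁻¹ * U)
      have h2 := congrArg (cj S) h1
      rw [map_mul, map_mul, cj_op'] at h2
      have h3 : S * (S⁻¹ * U * T * (S⁻¹ * U)⁻¹) * S⁻¹ = U * T * U⁻¹ := by group
      rwa [h3] at h2
    obtain ⟨y, hy⟩ : ∃ y, T y ≠ y := by
      by_contra h
      push Not at h
      exact hT1 (ContinuousLinearMap.ext h)
    obtain ⟨δ0, hδ0, hδ⟩ := Fop_ne T hy
    set δ : ℝ := min (δ0 / 2) 1 with hδd
    have h0 : 0 < δ := lt_min (by positivity) one_pos
    have h1 : δ < δ0 := (min_le_left _ _).trans_lt (by linarith)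
    have h2 : δ ≤ 1 := min_le_right _ _
    set Q := Fop T (ca (fun θ => 1 - Fd δ θ)) with hQ
    have hQy : Q y ≠ 0 := hδ δ h0 h1 h2
    have hQf : FiniteDimensional ℝ (LinearMap.range (Q : X →ₗ[ℝ] X)) := fr_Fop hT h0 h2
    have hval : ∀ a ∈ 𝒩, a (Q y) ∈ LinearMap.range (Q : X →ₗ[ℝ] X) := by
      intro a ha
      have h3 : a * Q = Q * a := by
        refine Fop_comm_of T (compl_summable h0 h2) a (fun k => ?_)
        have h4 : op T * a = a * op T := by
          have := ha 1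
          rwa [one_mul, inv_one, mul_one] at this
        have h5 : Commute a (op T) := h4.symm
        have hpow : ∀ n : ℕ, op (T ^ n) = op T ^ n := by
          intro n
          induction n with
          | zero => rw [pow_zero, pow_zero, op_one]
          | succ n ih => rw [pow_succ, pow_succ, op_mul, ih]
        have hinv' : a * op T⁻¹ = op T⁻¹ * a := by
          calc a * op T⁻¹ = (op T⁻¹ * op T) * a * op T⁻¹ := by rw [op_inv_op, one_mul]
            _ = op T⁻¹ * (op T * a) * op T⁻¹ := by simp only [mul_assoc]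
            _ = op T⁻¹ * (a * op T) * op T⁻¹ := by rw [h4]
            _ = op T⁻¹ * a * (op T * op T⁻¹) := by simp only [mul_assoc]
            _ = op T⁻¹ * a := by rw [op_op_inv, mul_one]
        have hpow' : ∀ n : ℕ, op (T⁻¹ ^ n) = op T⁻¹ ^ n := by
          intro n
          induction n with
          | zero => rw [pow_zero, pow_zero, op_one]
          | succ n ih => rw [pow_succ, pow_succ, op_mul, ih]
        obtain ⟨n, rfl | rfl⟩ := k.eq_nat_or_neg
        · rw [zpow_natCast, hpow]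
          exact (h5.pow_right n).eq
        · rw [zpow_neg, zpow_natCast, ← inv_pow, hpow']
          have h6 : Commute a (op T⁻¹) := hinv'
          exact (h6.pow_right n).eq
      refine ⟨a y, ?_⟩
      exact (DFunLike.congr_fun h3 y).symm
    have hAD : A ∈ DD (⊤ : Subgroup (X ≃ₗᵢ[ℝ] X)) :=
      pt_op hX hAT hinv hQy hQf hval (a := A) hcon
    have h3 := (core_DD hX hAT).2 A hAD x
    rw [hAx, norm_zero] at h3
    have h4 : ‖A‖ ≠ 0 := norm_ne_zero_iff.2 hA0
    exact (mul_ne_zero h4 (norm_ne_zero_iff.2 hx)) h3.symm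
  have hne : cj T (cj U⁻¹ A) ≠ cj U⁻¹ A := by
    intro h
    apply hU
    have h1 := congrArg (cj U) h
    rw [cj_cj_inv] at h1
    have h2 : cj U (cj T (cj U⁻¹ A)) = op (U * T * U⁻¹) * A * op (U * T⁻¹ * U⁻¹) := by
      ext z
      rfl
    rw [h2] at h1
    have h3 : op (U * T⁻¹ * U⁻¹) * op (U * T * U⁻¹) = 1 := by
      rw [← op_mul, ← op_one]
      congr 1
      group
    calc op (U * T * U⁻¹) * A = op (U * T * U⁻¹) * A * (op (U * T⁻¹ * U⁻¹) * op (U * T * U⁻¹)) := by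
          rw [h3, mul_one]
      _ = (op (U * T * U⁻¹) * A * op (U * T⁻¹ * U⁻¹)) * op (U * T * U⁻¹) := by
          simp only [mul_assoc]
      _ = A * op (U * T * U⁻¹) := by rw [h1]
  obtain ⟨C, hC, hCf, hC0⟩ := exists_fr hT (hA.conj U⁻¹) hne
  exact finite_rank_SH hX htr hC hCf hC0 u v

end

/-- the ultrapower of a compact perturbation of the identity -/
lemma ui_cp {E : Type} [NormedAddCommGroup E] [NormedSpace ℝ E] {T : E ≃ₗᵢ[ℝ] E} (hT : CP T) :
    CP (ui (fun _ : ℕ => T)) := by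
  have e1 : op (ui (fun _ : ℕ => T)) - 1 = uo (fun _ => op T - 1) ‖op T - 1‖ (fun _ => le_rfl) := by
    symm
    refine uo_ext _ _ fun x R hx R' hx' => ?_
    show op (ui fun _ => T) (cls x R hx) - cls x R hx = _
    rw [op_ui]
    obtain ⟨h1, e1⟩ := uo_cls (fun _ => op T) 1 (fun _ => op_norm_le T) x R hx
    rw [e1]
    unfold cls
    rw [← map_sub]
    congr 1
  show CO _
  rw [e1]
  exact co_uo hT _ _

lemma ui_ne {E : Type} [NormedAddCommGroup E] [NormedSpace ℝ E] {T : E ≃ₗᵢ[ℝ] E}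
    (hT1 : op T ≠ 1) : op (ui (fun _ : ℕ => T)) ≠ 1 := by
  intro h0
  apply hT1
  ext z
  have h1 := DFunLike.congr_fun h0 (emb z)
  obtain ⟨h2, e2⟩ := uo_cls (fun _ => op T) 1 (fun _ => op_norm_le T) (fun _ => z) ‖z‖
    (fun _ => le_rfl)
  rw [op_ui, emb_apply, e2] at h1
  have h3 : cls (fun _ => op T z) (1 * ‖z‖) h2 = cls (fun _ => z) ‖z‖ (fun _ => le_rfl) := h1
  have h4 : cls (fun _ => op T z - z) (‖op T z - z‖) (fun _ => le_rfl) = 0 := by
    have h5 : cls (fun _ => op T z) (1 * ‖z‖) h2 - cls (fun _ => z) ‖z‖ (fun _ => le_rfl) = 0 :=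
      sub_eq_zero.2 h3
    rw [← h5]
    unfold cls
    rw [← map_sub]
    congr 1
  have h5 : ‖cls (fun _ => op T z - z) (‖op T z - z‖) (fun _ => le_rfl)‖ = ‖op T z - z‖ :=
    norm_cls_eq _ tendsto_const_nhds
  rw [h4, norm_zero] at h5
  exact sub_eq_zero.1 (norm_eq_zero.1 h5.symm)

/-- the non-discrete case -/
theorem caseA {E : Type} [NormedAddCommGroup E] [NormedSpace ℝ E] [CompleteSpace E]
    (hE : ¬ FiniteDimensional ℝ E) (hor : ∀ x y : E, ‖x‖ = 1 → ‖y‖ = 1 → ∀ ε : ℝ, 0 < ε →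
      ∃ T : E ≃ₗᵢ[ℝ] E, ‖T x - y‖ < ε) {T : E ≃ₗᵢ[ℝ] E} (hT : CP T) (hT1 : op T ≠ 1)
    (hsm : ∀ k : ℕ, ∃ V : E ≃ₗᵢ[ℝ] E, CP V ∧ op V ≠ 1 ∧ ‖op V - 1‖ ≤ 1 / ((k : ℝ) + 1))
    (u v : E) :
    ‖u + v‖ * ‖u + v‖ + ‖u - v‖ * ‖u - v‖ = 2 * (‖u‖ * ‖u‖ + ‖v‖ * ‖v‖) := by
  choose V hVc hV1 hVn using hsm
  have hVpos : ∀ k, 0 < ‖op (V k) - 1‖ := fun k => norm_pos_iff.2 (sub_ne_zero.2 (hV1 k))
  set m : ℕ → ℝ := fun k => ‖op (V k) - 1‖⁻¹ with hm
  have hmpos : ∀ k, 0 < m k := fun k => inv_pos.2 (hVpos k)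
  set A : ℕ → E →L[ℝ] E := fun k => m k • (op (V k) - 1) with hA
  have hAn : ∀ k, ‖A k‖ = 1 := by
    intro k
    show ‖m k • (op (V k) - 1)‖ = 1
    rw [norm_smul, Real.norm_of_nonneg (hmpos k).le]
    exact inv_mul_cancel₀ (hVpos k).ne'
  have hA1 : ∀ k, ‖A k‖ ≤ 1 := fun k => (hAn k).le
  set Â := uo A 1 hA1 with hÂ
  have t0 : Tendsto (fun n : ℕ => 1 / ((n : ℝ) + 1)) (hyperfilter ℕ : Filter ℕ) (𝓝 0) :=
    tendsto_one_div_add_atTop_nhds_zero_nat.mono_left Nat.hyperfilter_le_atTop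
  -- skew-hermitian
  have hbound : ∀ (h : ℝ), |h| ≤ 1 → ∀ k, ‖1 + h • A k‖ ≤ 1 + h ^ 2 + 1 / ((k : ℝ) + 1) := by
    intro h hh k
    have hk : 0 ≤ 1 / ((k : ℝ) + 1) := by positivity
    rcases le_total 0 h with h0 | h0
    · rw [abs_of_nonneg h0] at hh
      have := one_add_le (V k) (hmpos k).le h0 (hA1 k) hh
      linarith
    · rw [abs_of_nonpos h0] at hh
      set s := -h with hs
      have hs0 : 0 ≤ s := by linarith
      have hBn : ‖m k • (op (V k)⁻¹ - 1)‖ ≤ 1 := by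
        have e1 : op (V k)⁻¹ - 1 = -(op (V k)⁻¹ * (op (V k) - 1)) := by
          rw [mul_sub, op_inv_op, mul_one, neg_sub]
        rw [norm_smul, Real.norm_of_nonneg (hmpos k).le, e1, norm_neg]
        calc m k * ‖op (V k)⁻¹ * (op (V k) - 1)‖ ≤ m k * (1 * ‖op (V k) - 1‖) := by
              refine mul_le_mul_of_nonneg_left ((norm_mul_le _ _).trans ?_) (hmpos k).le
              exact mul_le_mul_of_nonneg_right (op_norm_le _) (norm_nonneg _)
          _ = 1 := by rw [one_mul]; exact inv_mul_cancel₀ (hVpos k).ne'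
      have h1 := one_add_le (V k)⁻¹ (hmpos k).le hs0 hBn hh
      have e2 : 1 + h • A k = (1 + s • (m k • (op (V k)⁻¹ - 1))) -
          s • (m k • (op (V k)⁻¹ * ((op (V k) - 1) * (op (V k) - 1)))) := by
        have e3 : op (V k)⁻¹ * ((op (V k) - 1) * (op (V k) - 1)) =
            (op (V k)⁻¹ - 1) + (op (V k) - 1) := by
          rw [mul_sub (op (V k) - 1), mul_one, sub_mul, one_mul, mul_sub, mul_sub, mul_sub,
            op_inv_op, ← mul_assoc, op_inv_op, one_mul, mul_one]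
          abel
        rw [e3, smul_add (m k), smul_add s]
        have e4 : h • A k = -(s • (m k • (op (V k) - 1))) := by
          rw [hs, neg_smul, neg_neg]
        rw [e4]
        abel
      have h2 : ‖s • (m k • (op (V k)⁻¹ * ((op (V k) - 1) * (op (V k) - 1))))‖ ≤
          1 / ((k : ℝ) + 1) := by
        rw [norm_smul, norm_smul, Real.norm_of_nonneg hs0, Real.norm_of_nonneg (hmpos k).le]
        have h3 : ‖op (V k)⁻¹ * ((op (V k) - 1) * (op (V k) - 1))‖ ≤
            ‖op (V k) - 1‖ * ‖op (V k) - 1‖ := by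
          calc _ ≤ ‖op (V k)⁻¹‖ * ‖(op (V k) - 1) * (op (V k) - 1)‖ := norm_mul_le _ _
            _ ≤ 1 * (‖op (V k) - 1‖ * ‖op (V k) - 1‖) :=
              mul_le_mul (op_norm_le _) (norm_mul_le _ _) (norm_nonneg _) zero_le_one
            _ = _ := one_mul _
        calc s * (m k * ‖op (V k)⁻¹ * ((op (V k) - 1) * (op (V k) - 1))‖)
            ≤ 1 * (m k * (‖op (V k) - 1‖ * ‖op (V k) - 1‖)) := by
              have := hmpos k
              gcongr
          _ = ‖op (V k) - 1‖ := by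
              rw [one_mul, ← mul_assoc]
              show ‖op (V k) - 1‖⁻¹ * ‖op (V k) - 1‖ * ‖op (V k) - 1‖ = _
              rw [inv_mul_cancel₀ (hVpos k).ne', one_mul]
          _ ≤ _ := hVn k
      rw [e2]
      refine (norm_sub_le _ _).trans ?_
      have h4 : s ^ 2 = h ^ 2 := by rw [hs, neg_sq]
      rw [h4] at h1
      linarith
  have hSH : SH Â := by
    refine Qd.sh ⟨1, 1, one_pos, fun h hh => ?_⟩
    have hK : ∀ k, ‖(1 : E →L[ℝ] E) + h • A k‖ ≤ 1 + h ^ 2 + 1 := fun k =>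
      (hbound h hh k).trans (by
        have : 1 / ((k : ℝ) + 1) ≤ 1 := by
          rw [div_le_one (by positivity)]
          have : (0 : ℝ) ≤ k := Nat.cast_nonneg k
          linarith
        linarith)
    have e1 : (1 : UX E →L[ℝ] UX E) + h • Â = uo (fun k => 1 + h • A k) _ hK := by
      rw [uo_add_smul (A := fun _ => (1 : E →L[ℝ] E)) (fun _ => one_le') hA1 h hK, uo_one]
    rw [e1, one_mul]
    refine le_of_forall_pos_le_add fun ε hε => ?_
    refine uo_norm_le hK (by positivity) ?_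
    have h2 : ∀ᶠ k : ℕ in (hyperfilter ℕ : Filter ℕ), 1 / ((k : ℝ) + 1) < ε :=
      t0.eventually (gt_mem_nhds hε)
    filter_upwards [h2] with k hk
    have := hbound h hh k
    linarith
  -- not zero
  have hÂ0 : Â ≠ 0 := by
    have h1 : ∀ k, ∃ y : E, ‖y‖ < 1 ∧ 1 / 2 < ‖A k y‖ := fun k =>
      (A k).exists_lt_apply_of_lt_opNorm (by rw [hAn]; norm_num)
    choose y hy1 hy2 using h1
    intro h0
    obtain ⟨h2, e2⟩ := uo_cls A 1 hA1 y 1 (fun k => (hy1 k).le)
    rw [← hÂ, h0] at e2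
    have h3 := cls_tendsto (fun k => A k (y k)) _ h2
    rw [← e2] at h3
    have h4 : ‖(0 : UX E →L[ℝ] UX E) (cls y 1 (fun k => (hy1 k).le))‖ = 0 := by
      rw [ContinuousLinearMap.zero_apply, norm_zero]
    rw [h4] at h3
    have h5 := ge_of_tendsto' h3 (fun k => (hy2 k).le)
    norm_num at h5
  -- kernel
  obtain ⟨x, hx, hAx⟩ : ∃ x : UX E, x ≠ 0 ∧ Â x = 0 := by
    have h1 : ∀ k : ℕ, ∃ x : E, ‖x‖ = 1 ∧ ‖A k x‖ ≤ 1 / ((k : ℝ) + 1) := fun k =>
      co_below hE ((hVc k).smul (m k)) (by positivity)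
    choose x hx1 hx2 using h1
    refine ⟨cls x 1 (fun k => (hx1 k).le), ?_, ?_⟩
    · have : ‖cls x 1 (fun k => (hx1 k).le)‖ = 1 := norm_cls_eq _ (by
        simp only [hx1]
        exact tendsto_const_nhds)
      intro h0
      rw [h0, norm_zero] at this
      exact zero_ne_one this
    · obtain ⟨h2, e2⟩ := uo_cls A 1 hA1 x 1 (fun k => (hx1 k).le)
      rw [← hÂ] at e2
      rw [e2]
      have h3 : ‖cls (fun k => A k (x k)) (1 * 1) h2‖ = 0 :=
        norm_cls_eq _ (squeeze_zero (fun k => norm_nonneg _) hx2 t0)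
      exact norm_eq_zero.1 h3
  -- the ultrapower
  have hUtr : Tr (UX E) := ux_tr hor
  have hUinf : ¬ FiniteDimensional ℝ (UX E) := ux_inf hE
  have hTcp : CP (ui (fun _ : ℕ => T)) := ui_cp hT
  have hT1' : op (ui (fun _ : ℕ => T)) ≠ 1 := ui_ne hT1
  have key := of_sh hUinf hUtr hTcp hT1' hSH hÂ0 hx hAx (emb u) (emb v)
  rw [← map_add, ← map_sub] at key
  simpa only [LinearIsometry.norm_map] using key

end Pool.Agent.N315.BM
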