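import Pool.Agent.N315.BM.Main
import Pool.Agent.N315.BM.Disc

/-!
# Almost transitive spaces with one compact perturbation of the identity
-/

set_option autoImplicit false

namespace Pool.Agent.N315.BM

open Pool.H590R3.Ab Pool.Agent.TH596.RO Filter Topology

/-- An infinite-dimensional Banach space with dense orbits and with an isometry `T ≠ 1` such that
`T - 1` is compact is a Hilbert space. -/
theorem compact_main {E : Type} [NormedAddCommGroup E] [NormedSpace ℝ E] [CompleteSpace E]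
    (hE : ¬ FiniteDimensional ℝ E) (hor : ∀ x y : E, ‖x‖ = 1 → ‖y‖ = 1 → ∀ ε : ℝ, 0 < ε →
      ∃ T : E ≃ₗᵢ[ℝ] E, ‖T x - y‖ < ε) {T : E ≃ₗᵢ[ℝ] E} (hT : CP T) (hT1 : op T ≠ 1)
    (u v : E) :
    ‖u + v‖ * ‖u + v‖ + ‖u - v‖ * ‖u - v‖ = 2 * (‖u‖ * ‖u‖ + ‖v‖ * ‖v‖) := by
  have hUtr : Tr (UX E) := ux_tr hor
  have hUinf : ¬ FiniteDimensional ℝ (UX E) := ux_inf hE
  have hTcp : CP (ui (fun _ : ℕ => T)) := ui_cp hT
  have hT1' : op (ui (fun _ : ℕ => T)) ≠ 1 := ui_ne hT1
  have key : ‖emb u + emb v‖ * ‖emb u + emb v‖ + ‖emb u - emb v‖ * ‖emb u - emb v‖ =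
      2 * (‖emb u‖ * ‖emb u‖ + ‖emb v‖ * ‖emb v‖) := by
    by_cases hd : Dis (UX E)
    · exact discrete_case hUinf hd hUtr hTcp hT1' _ _
    · refine caseA hUinf (fun x y hx hy ε hε => ?_) hTcp hT1' (fun k => ?_) _ _
      · obtain ⟨S, hS⟩ := hUtr x y hx hy
        exact ⟨S, by rw [hS, sub_self, norm_zero]; exact hε⟩
      · by_contra hcon
        push Not at hcon
        refine hd ⟨1 / ((k : ℝ) + 1), by positivity, fun V hV hVn => ?_⟩
        by_contra hV1
        have h1 : op V ≠ 1 := fun h => hV1 (op_ext (by rw [h, op_one]))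
        exact absurd hVn (not_le.2 (hcon V hV h1))
  rw [← map_add, ← map_sub] at key
  simpa only [LinearIsometry.norm_map] using key

end Pool.Agent.N315.BM
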