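import Pool.Agent.N315.BM.InvForm
import Pool.Agent.TH596.RO.Inj
import Pool.Agent.H590R3.AbFop

/-!
# Linear combinations of isometries which are finite rank perturbations of the identity

`Pr a b` means that `a = ∑ c i • T i` and `b = ∑ c i • T i⁻¹` for isometries `T i` such that `T i - 1`
has finite rank. `b` is an adjoint of `a` for inner products on arbitrarily large finite-dimensional
subspaces.
-/

set_option autoImplicit false

namespace Pool.Agent.N315.BM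

open Pool.H590R3.Ab Pool.Agent.TH596.RO

variable {X : Type*} [NormedAddCommGroup X] [NormedSpace ℝ X]

/-- finite rank -/
def FR (a : X →L[ℝ] X) : Prop := FiniteDimensional ℝ (LinearMap.range (a : X →ₗ[ℝ] X))

/-- the generating pairs -/
def PG (X : Type*) [NormedAddCommGroup X] [NormedSpace ℝ X] :
    Set ((X →L[ℝ] X) × (X →L[ℝ] X)) :=
  {p | ∃ T : X ≃ₗᵢ[ℝ] X, FR (op T - 1) ∧ p = (op T, op T⁻¹)}

/-- pairs of adjoint combinations -/
def Pr (a b : X →L[ℝ] X) : Prop := (a, b) ∈ Submodule.span ℝ (PG X)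

lemma op_ext {S T : X ≃ₗᵢ[ℝ] X} (h : op S = op T) : S = T := by
  ext x
  exact DFunLike.congr_fun h x

lemma op_inv_op (T : X ≃ₗᵢ[ℝ] X) : op T⁻¹ * op T = 1 := by
  rw [← op_mul, inv_mul_cancel, op_one]

lemma op_op_inv (T : X ≃ₗᵢ[ℝ] X) : op T * op T⁻¹ = 1 := by
  rw [← op_mul, mul_inv_cancel, op_one]

lemma FR.mono {a b : X →L[ℝ] X} (h : FR b) (hab : LinearMap.range (a : X →ₗ[ℝ] X) ≤
    LinearMap.range (b : X →ₗ[ℝ] X)) : FR a := by
  haveI : FiniteDimensional ℝ (LinearMap.range (b : X →ₗ[ℝ] X)) := h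
  exact Submodule.finiteDimensional_of_le hab

lemma FR.mul_right {a : X →L[ℝ] X} (h : FR a) (b : X →L[ℝ] X) : FR (a * b) := by
  refine h.mono ?_
  rintro _ ⟨x, rfl⟩
  exact ⟨b x, rfl⟩

lemma FR.mul_left {a : X →L[ℝ] X} (h : FR a) (b : X →L[ℝ] X) : FR (b * a) := by
  haveI : FiniteDimensional ℝ (LinearMap.range (a : X →ₗ[ℝ] X)) := h
  have h1 : LinearMap.range ((b * a : X →L[ℝ] X) : X →ₗ[ℝ] X) =
      (LinearMap.range (a : X →ₗ[ℝ] X)).map (b : X →ₗ[ℝ] X) := by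
    ext y
    simp only [LinearMap.mem_range, Submodule.mem_map]
    constructor
    · rintro ⟨x, rfl⟩
      exact ⟨a x, ⟨x, rfl⟩, rfl⟩
    · rintro ⟨_, ⟨x, rfl⟩, rfl⟩
      exact ⟨x, rfl⟩
  show FiniteDimensional ℝ _
  rw [h1]
  infer_instance

lemma FR.add {a b : X →L[ℝ] X} (ha : FR a) (hb : FR b) : FR (a + b) := by
  haveI : FiniteDimensional ℝ (LinearMap.range (a : X →ₗ[ℝ] X)) := ha
  haveI : FiniteDimensional ℝ (LinearMap.range (b : X →ₗ[ℝ] X)) := hb
  refine Submodule.finiteDimensional_of_le (S₂ := LinearMap.range (a : X →ₗ[ℝ] X) ⊔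
    LinearMap.range (b : X →ₗ[ℝ] X)) ?_
  rintro _ ⟨x, rfl⟩
  exact Submodule.add_mem_sup ⟨x, rfl⟩ ⟨x, rfl⟩

lemma FR.smul {a : X →L[ℝ] X} (ha : FR a) (c : ℝ) : FR (c • a) := by
  refine ha.mono ?_
  rintro _ ⟨x, rfl⟩
  exact ⟨c • x, by simp⟩

lemma FR.neg {a : X →L[ℝ] X} (ha : FR a) : FR (-a) := by
  have := ha.smul (-1)
  rwa [neg_smul, one_smul] at this

lemma FR.sub {a b : X →L[ℝ] X} (ha : FR a) (hb : FR b) : FR (a - b) := by
  rw [sub_eq_add_neg]
  exact ha.add hb.neg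

lemma FR_one_op : FR (op (1 : X ≃ₗᵢ[ℝ] X) - 1) := by
  rw [op_one, sub_self]
  show FiniteDimensional ℝ (LinearMap.range ((0 : X →L[ℝ] X) : X →ₗ[ℝ] X))
  have : LinearMap.range ((0 : X →L[ℝ] X) : X →ₗ[ℝ] X) = ⊥ := by
    rw [ContinuousLinearMap.toLinearMap_zero]
    exact LinearMap.range_zero
  rw [this]
  infer_instance

lemma FR_op_inv {T : X ≃ₗᵢ[ℝ] X} (h : FR (op T - 1)) : FR (op T⁻¹ - 1) := by
  have h1 : op T⁻¹ - 1 = -(op T⁻¹ * (op T - 1)) := by
    rw [mul_sub, op_inv_op, mul_one, neg_sub]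
  rw [h1]
  exact (h.mul_left _).neg

lemma FR_op_mul {S T : X ≃ₗᵢ[ℝ] X} (hS : FR (op S - 1)) (hT : FR (op T - 1)) :
    FR (op (S * T) - 1) := by
  have h1 : op (S * T) - 1 = (op S - 1) * op T + (op T - 1) := by
    rw [sub_mul, one_mul, op_mul]; abel
  rw [h1]
  exact (hS.mul_right _).add hT

lemma cj_def (T : X ≃ₗᵢ[ℝ] X) (a : X →L[ℝ] X) : cj T a = op T * a * op T⁻¹ := rfl

lemma cj_op' (T S : X ≃ₗᵢ[ℝ] X) : cj T (op S) = op (T * S * T⁻¹) := rfl

lemma FR_op_conj {S : X ≃ₗᵢ[ℝ] X} (T : X ≃ₗᵢ[ℝ] X) (hS : FR (op S - 1)) :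
    FR (op (T * S * T⁻¹) - 1) := by
  have h1 : op (T * S * T⁻¹) - 1 = op T * (op S - 1) * op T⁻¹ := by
    rw [mul_sub, sub_mul, mul_one, op_op_inv, op_mul, op_mul]
  rw [h1]
  exact (hS.mul_left _).mul_right _

namespace Pr

lemma symm {a b : X →L[ℝ] X} (h : Pr a b) : Pr b a := by
  have h1 : ∀ p ∈ Submodule.span ℝ (PG X), (p.2, p.1) ∈ Submodule.span ℝ (PG X) := by
    intro p hp
    induction hp using Submodule.span_induction with
    | mem p hp =>
      obtain ⟨T, hT, rfl⟩ := hp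
      refine Submodule.subset_span ⟨T⁻¹, FR_op_inv hT, ?_⟩
      rw [inv_inv]
    | zero => exact Submodule.zero_mem _
    | add p q _ _ h1 h2 => exact Submodule.add_mem _ h1 h2
    | smul c p _ h1 => exact Submodule.smul_mem _ c h1
  exact h1 _ h

lemma add {a b a' b' : X →L[ℝ] X} (h : Pr a b) (h' : Pr a' b') : Pr (a + a') (b + b') :=
  Submodule.add_mem _ h h'

lemma sub {a b a' b' : X →L[ℝ] X} (h : Pr a b) (h' : Pr a' b') : Pr (a - a') (b - b') :=
  Submodule.sub_mem _ h h'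

lemma smul {a b : X →L[ℝ] X} (h : Pr a b) (c : ℝ) : Pr (c • a) (c • b) :=
  Submodule.smul_mem _ c h

lemma one : Pr (1 : X →L[ℝ] X) 1 := by
  refine Submodule.subset_span ⟨1, FR_one_op, ?_⟩
  rw [inv_one, op_one]

lemma of_op {T : X ≃ₗᵢ[ℝ] X} (hT : FR (op T - 1)) : Pr (op T) (op T⁻¹) :=
  Submodule.subset_span ⟨T, hT, rfl⟩

lemma mul {a b a' b' : X →L[ℝ] X} (h : Pr a b) (h' : Pr a' b') : Pr (a * a') (b' * b) := by
  have h1 : ∀ p ∈ Submodule.span ℝ (PG X), ∀ q ∈ Submodule.span ℝ (PG X),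
      (p.1 * q.1, q.2 * p.2) ∈ Submodule.span ℝ (PG X) := by
    intro p hp q hq
    induction hp using Submodule.span_induction with
    | mem p hp =>
      induction hq using Submodule.span_induction with
      | mem q hq =>
        obtain ⟨T, hT, rfl⟩ := hp
        obtain ⟨S, hS, rfl⟩ := hq
        refine Submodule.subset_span ⟨T * S, FR_op_mul hT hS, ?_⟩
        rw [mul_inv_rev, op_mul, op_mul]
      | zero => 
        show (p.1 * 0, 0 * p.2) ∈ _
        rw [mul_zero, zero_mul]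
        exact Submodule.zero_mem _
      | add q q' _ _ h1 h2 =>
        show (p.1 * (q.1 + q'.1), (q.2 + q'.2) * p.2) ∈ _
        rw [mul_add, add_mul]
        exact Submodule.add_mem _ h1 h2
      | smul c q _ h1 =>
        show (p.1 * (c • q.1), (c • q.2) * p.2) ∈ _
        rw [mul_smul_comm, smul_mul_assoc]
        exact Submodule.smul_mem _ c h1
    | zero =>
      show (0 * q.1, q.2 * 0) ∈ _
      rw [mul_zero, zero_mul]
      exact Submodule.zero_mem _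
    | add p p' _ _ h1 h2 =>
      show ((p.1 + p'.1) * q.1, q.2 * (p.2 + p'.2)) ∈ _
      rw [mul_add, add_mul]
      exact Submodule.add_mem _ h1 h2
    | smul c p _ h1 =>
      show ((c • p.1) * q.1, q.2 * (c • p.2)) ∈ _
      rw [mul_smul_comm, smul_mul_assoc]
      exact Submodule.smul_mem _ c h1
  exact h1 _ h _ h'

lemma conj {a b : X →L[ℝ] X} (h : Pr a b) (U : X ≃ₗᵢ[ℝ] X) : Pr (cj U a) (cj U b) := by
  have h1 : ∀ p ∈ Submodule.span ℝ (PG X), (cj U p.1, cj U p.2) ∈ Submodule.span ℝ (PG X) := by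
    intro p hp
    induction hp using Submodule.span_induction with
    | mem p hp =>
      obtain ⟨T, hT, rfl⟩ := hp
      refine Submodule.subset_span ⟨U * T * U⁻¹, FR_op_conj U hT, ?_⟩
      rw [cj_op', cj_op', show (U * T * U⁻¹)⁻¹ = U * T⁻¹ * U⁻¹ by group]
    | zero =>
      show (cj U 0, cj U 0) ∈ _
      rw [map_zero]
      exact Submodule.zero_mem _
    | add p q _ _ h1 h2 =>
      show (cj U (p.1 + q.1), cj U (p.2 + q.2)) ∈ _
      rw [map_add, map_add]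
      exact Submodule.add_mem _ h1 h2
    | smul c p _ h1 =>
      show (cj U (c • p.1), cj U (c • p.2)) ∈ _
      rw [map_smul, map_smul]
      exact Submodule.smul_mem _ c h1
  exact h1 _ h

/-- inner products on large finite-dimensional subspaces -/
theorem good {a b : X →L[ℝ] X} (h : Pr a b) (F : Submodule ℝ X) [FiniteDimensional ℝ F] :
    ∃ (W : Submodule ℝ X) (β : X →ₗ[ℝ] X →ₗ[ℝ] ℝ), FiniteDimensional ℝ W ∧ F ≤ W ∧
      (∀ u v, β u v = β v u) ∧ (∀ u ∈ W, u ≠ 0 → 0 < β u u) ∧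
      (∀ u ∈ W, a u ∈ W) ∧ (∀ u ∈ W, b u ∈ W) ∧
      ∀ u ∈ W, ∀ v ∈ W, β (a u) v = β u (b v) := by
  classical
  obtain ⟨t, ht, hmem⟩ := Submodule.mem_span_finite_of_mem_span h
  set W : Submodule ℝ X := F ⊔ ⨆ p ∈ t, LinearMap.range ((p.1 - 1 : X →L[ℝ] X) : X →ₗ[ℝ] X) with hW
  have hWfd : FiniteDimensional ℝ W := by
    have h1 : ∀ p ∈ t, FiniteDimensional ℝ
        (LinearMap.range ((p.1 - 1 : X →L[ℝ] X) : X →ₗ[ℝ] X)) := by
      intro p hp
      obtain ⟨T, hT, rfl⟩ := ht hp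
      exact hT
    have h2 : FiniteDimensional ℝ
        (⨆ p ∈ t, LinearMap.range ((p.1 - 1 : X →L[ℝ] X) : X →ₗ[ℝ] X) : Submodule ℝ X) := by
      have h3 : ∀ s : Finset ((X →L[ℝ] X) × (X →L[ℝ] X)), s ⊆ t → FiniteDimensional ℝ
        (⨆ p ∈ s, LinearMap.range ((p.1 - 1 : X →L[ℝ] X) : X →ₗ[ℝ] X) : Submodule ℝ X) := by
        intro s
        induction s using Finset.induction_on with
        | empty =>
          intro _
          have h0 : (⨆ p ∈ (∅ : Finset ((X →L[ℝ] X) × (X →L[ℝ] X))),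
              LinearMap.range ((p.1 - 1 : X →L[ℝ] X) : X →ₗ[ℝ] X) : Submodule ℝ X) = ⊥ := by
            refine iSup_eq_bot.2 fun p => iSup_eq_bot.2 fun hp => ?_
            exact absurd hp (Finset.notMem_empty p)
          rw [h0]
          infer_instance
        | insert p s hp ih =>
          intro hs
          haveI := ih (fun x hx => hs (Finset.mem_insert_of_mem hx))
          haveI := h1 p (hs (Finset.mem_insert_self p s))
          rw [Finset.iSup_insert]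
          infer_instance
      exact h3 t (Finset.Subset.refl t)
    rw [hW]
    infer_instance
  have hWT : ∀ p ∈ t, ∀ u ∈ W, p.1 u ∈ W := by
    intro p hp u hu
    have h1 : p.1 u = u + (p.1 - 1) u := by
      simp
    rw [h1]
    refine W.add_mem hu ?_
    refine (le_sup_right : _ ≤ W) ?_
    exact Submodule.mem_iSup_of_mem p (Submodule.mem_iSup_of_mem hp ⟨u, rfl⟩)
  obtain ⟨β0, hs0, hp0, hi0⟩ := exists_inv_form W
  obtain ⟨π, hπ⟩ := W.subtype.exists_leftInverse_of_injective (by simp)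
  have hπ' : ∀ u (hu : u ∈ W), π u = ⟨u, hu⟩ := fun u hu =>
    DFunLike.congr_fun hπ ⟨u, hu⟩
  let β : X →ₗ[ℝ] X →ₗ[ℝ] ℝ := β0.compl₁₂ π π
  have hβ : ∀ u v, β u v = β0 (π u) (π v) := fun u v => rfl
  -- the generators
  have hgen : ∀ p ∈ t, (∀ u ∈ W, p.1 u ∈ W) ∧ (∀ u ∈ W, p.2 u ∈ W) ∧
      ∀ u ∈ W, ∀ v ∈ W, β (p.1 u) v = β u (p.2 v) := by
    intro p hp
    obtain ⟨T, hT, hpT⟩ := ht hp
    have hp1 := hWT p hp
    rw [hpT] at hp1 ⊢
    let Tw : W →ₗ[ℝ] W := (T.toLinearEquiv : X →ₗ[ℝ] X).restrict hp1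
    have hTwn : ∀ u, ‖Tw u‖ = ‖u‖ := fun u => T.norm_map u
    let Ti : W →ₗᵢ[ℝ] W := ⟨Tw, hTwn⟩
    let Te : W ≃ₗᵢ[ℝ] W := Ti.toLinearIsometryEquiv rfl
    have hTe : ∀ u : W, ((Te u : W) : X) = T u := fun u => rfl
    have hinv : ∀ u (hu : u ∈ W), T⁻¹ u = (Te.symm ⟨u, hu⟩ : W) := by
      intro u hu
      have h1 : T ((Te.symm ⟨u, hu⟩ : W) : X) = u := by
        rw [← hTe, Te.apply_symm_apply]
      have h2 : T⁻¹ (T ((Te.symm ⟨u, hu⟩ : W) : X)) = T⁻¹ u := by rw [h1]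
      rw [← h2]
      exact T.symm_apply_apply _
    refine ⟨hp1, fun u hu => ?_, fun u hu v hv => ?_⟩
    · show T⁻¹ u ∈ W
      rw [hinv u hu]
      exact Subtype.mem _
    · show β (T u) v = β u (T⁻¹ v)
      have hTu : T u ∈ W := hp1 u hu
      have hTv : T⁻¹ v ∈ W := by rw [hinv v hv]; exact Subtype.mem _
      rw [hβ, hβ, hπ' _ hTu, hπ' _ hv, hπ' _ hu, hπ' _ hTv]
      have e1 : (⟨T u, hTu⟩ : W) = Te ⟨u, hu⟩ := rfl
      have e2 : (⟨T⁻¹ v, hTv⟩ : W) = Te.symm ⟨v, hv⟩ := Subtype.ext (hinv v hv)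
      rw [e1, e2]
      have h3 := hi0 Te ⟨u, hu⟩ (Te.symm ⟨v, hv⟩)
      rw [Te.apply_symm_apply] at h3
      exact h3
  have hall : ∀ p ∈ Submodule.span ℝ (t : Set ((X →L[ℝ] X) × (X →L[ℝ] X))),
      (∀ u ∈ W, p.1 u ∈ W) ∧ (∀ u ∈ W, p.2 u ∈ W) ∧
      ∀ u ∈ W, ∀ v ∈ W, β (p.1 u) v = β u (p.2 v) := by
    intro p hp
    induction hp using Submodule.span_induction with
    | mem p hp => exact hgen p hp
    | zero =>
      refine ⟨fun u _ => W.zero_mem, fun u _ => W.zero_mem, fun u _ v _ => ?_⟩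
      show β (0 : X) v = β u (0 : X)
      rw [map_zero, map_zero, LinearMap.zero_apply]
    | add p q _ _ h1 h2 =>
      refine ⟨fun u hu => W.add_mem (h1.1 u hu) (h2.1 u hu),
        fun u hu => W.add_mem (h1.2.1 u hu) (h2.2.1 u hu), fun u hu v hv => ?_⟩
      show β (p.1 u + q.1 u) v = β u (p.2 v + q.2 v)
      rw [map_add, map_add, LinearMap.add_apply, h1.2.2 u hu v hv, h2.2.2 u hu v hv]
    | smul c p _ h1 =>
      refine ⟨fun u hu => W.smul_mem c (h1.1 u hu),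
        fun u hu => W.smul_mem c (h1.2.1 u hu), fun u hu v hv => ?_⟩
      show β (c • p.1 u) v = β u (c • p.2 v)
      rw [map_smul, map_smul, LinearMap.smul_apply, h1.2.2 u hu v hv]
  obtain ⟨h1, h2, h3⟩ := hall _ hmem
  refine ⟨W, β, hWfd, le_sup_left, fun u v => ?_, fun u hu hu0 => ?_, h1, h2, h3⟩
  · rw [hβ, hβ, hs0]
  · rw [hβ, hπ' u hu]
    exact hp0 _ (fun h => hu0 (by simpa using congrArg Subtype.val h))

/-- positivity -/
lemma pos {a b : X →L[ℝ] X} (h : Pr a b) {u : X} (hu : b (a u) = 0) : a u = 0 := by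
  obtain ⟨W, β, _, hF, _, hp, ha, hb, hab⟩ := h.good (Submodule.span ℝ {u})
  have huW : u ∈ W := hF (Submodule.mem_span_singleton_self u)
  by_contra hne
  have h1 := hp _ (ha u huW) hne
  rw [hab u huW _ (ha u huW), hu, map_zero] at h1
  exact lt_irrefl _ h1

lemma pos' {a b : X →L[ℝ] X} (h : Pr a b) (hu : b * a = 0) : a = 0 := by
  ext u
  exact h.pos (DFunLike.congr_fun hu u)

lemma zero_left {b : X →L[ℝ] X} (h : Pr 0 b) : b = 0 := by
  refine h.symm.pos' ?_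
  rw [zero_mul]

lemma zero_right {a : X →L[ℝ] X} (h : Pr a 0) : a = 0 := h.symm.zero_left

/-- uniqueness of the adjoint -/
lemma unique {a b b' : X →L[ℝ] X} (h : Pr a b) (h' : Pr a b') : b = b' := by
  have h1 := h.sub h'
  rw [sub_self] at h1
  exact sub_eq_zero.1 h1.zero_left

end Pr

end Pool.Agent.N315.BM
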