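import Pool.Agent.N315.BM.Weak

/-!
# Weak recurrence of compact perturbations of the identity

If `T - 1` is compact, then `(T ^ n - 1) (T - 1)` is small for some `n ≥ 1`; along such `n` the
operators `K (T ^ n - 1) K'` tend to `0` for compact `K`, `K'`.
-/

set_option autoImplicit false

namespace Pool.Agent.N315.BM

open Pool.H590R3.Ab Pool.Agent.TH596.RO Metric Set Filter Topology

variable {X : Type*} [NormedAddCommGroup X] [NormedSpace ℝ X]

lemma op_apply' (T : X ≃ₗᵢ[ℝ] X) (x : X) : op T x = T x := rfl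

/-- recurrence on the range of `T - 1` -/
lemma rec1 {T : X ≃ₗᵢ[ℝ] X} (hT : CP T) {δ : ℝ} (hδ : 0 < δ) :
    ∃ n : ℕ, 1 ≤ n ∧ ‖(op (T ^ n) - 1) * (op T - 1)‖ ≤ δ := by
  classical
  set L := op T - 1 with hL
  have hc : IsCompact (closure ((L : X →ₗ[ℝ] X) '' closedBall 0 1)) :=
    IsCompactOperator.isCompact_closure_image_closedBall (f := (L : X →ₗ[ℝ] X)) hT 1
  set C := closure ((L : X →ₗ[ℝ] X) '' closedBall 0 1) with hC
  have hTC : ∀ z ∈ C, T z ∈ C := by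
    intro z hz
    refine map_mem_closure T.continuous hz ?_
    rintro _ ⟨x, hx, rfl⟩
    refine ⟨T x, ?_, ?_⟩
    · rw [mem_closedBall_zero_iff] at hx ⊢
      rwa [T.norm_map]
    · show T (T x) - T x = T (T x - x)
      rw [map_sub]
  have hTnC : ∀ (n : ℕ), ∀ z ∈ C, (T ^ n) z ∈ C := by
    intro n
    induction n with
    | zero => intro z hz; exact hz
    | succ n ih =>
      intro z hz
      rw [pow_succ']
      exact hTC _ (ih z hz)
  obtain ⟨s, hs, hcov⟩ := hc.elim_finite_subcover_image (b := C)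
    (c := fun z => ball z (δ / 4)) (fun _ _ => isOpen_ball)
    (fun z hz => mem_iUnion₂.2 ⟨z, hz, mem_ball_self (by positivity)⟩)
  haveI : Fintype s := hcov.1.fintype
  have hpi : IsCompact (Set.pi univ (fun _ : s => C)) := isCompact_univ_pi fun _ => hc
  obtain ⟨a, -, φ, hφ, hlim⟩ := hpi.tendsto_subseq (x := fun n : ℕ => fun i : s => (T ^ n) (i : X))
    (fun n i _ => hTnC n _ (hs i.2))
  have hcau := hlim.cauchySeq
  rw [Metric.cauchySeq_iff] at hcau
  obtain ⟨N, hN⟩ := hcau (δ / 4) (by positivity)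
  have h1 := hN (N + 1) (Nat.le_succ N) N le_rfl
  have hlt : φ N < φ (N + 1) := hφ (Nat.lt_succ_self N)
  refine ⟨φ (N + 1) - φ N, by omega, ?_⟩
  set m := φ (N + 1) - φ N with hm
  have hmz : ∀ z ∈ s, ‖(T ^ m) z - z‖ < δ / 4 := by
    intro z hz
    have h2 := (dist_pi_lt_iff (by positivity)).1 h1 ⟨z, hz⟩
    have h3 : dist ((T ^ (φ (N + 1))) z) ((T ^ (φ N)) z) < δ / 4 := h2
    have h4 : (T ^ (φ (N + 1))) z = (T ^ (φ N)) ((T ^ m) z) := by
      have : φ (N + 1) = φ N + m := by omega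
      rw [this, pow_add]
      rfl
    rw [h4, (T ^ (φ N)).dist_map, dist_eq_norm] at h3
    exact h3
  refine ContinuousLinearMap.opNorm_le_of_unit_norm hδ.le fun x hx => ?_
  have h2 : L x ∈ C := subset_closure ⟨x, by rw [mem_closedBall_zero_iff, hx], rfl⟩
  obtain ⟨z, hz, hzx⟩ := mem_iUnion₂.1 (hcov.2 h2)
  rw [mem_ball, dist_eq_norm] at hzx
  have h3 : ((op (T ^ m) - 1) * L) x = ((T ^ m) (L x - z) - (L x - z)) + ((T ^ m) z - z) := by
    show (T ^ m) (L x) - L x = _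
    rw [map_sub]
    abel
  rw [h3]
  refine (norm_add_le _ _).trans ?_
  have h4 := norm_sub_le ((T ^ m) (L x - z)) (L x - z)
  rw [(T ^ m).norm_map] at h4
  have h5 := hmz z hz
  linarith

lemma DN_nat {ι : Type*} {l : Filter ι} {T : X ≃ₗᵢ[ℝ] X} {n : ι → ℤ}
    (h : Tendsto (fun k => ‖(op (T ^ (n k)) - 1) * (op T - 1)‖) l (𝓝 0)) (N : ℕ) :
    Tendsto (fun k => ‖(op (T ^ (n k)) - 1) * (op (T ^ (N : ℤ)) - 1)‖) l (𝓝 0) := by
  induction N with
  | zero =>
    have : ∀ k, ‖(op (T ^ (n k)) - 1) * (op (T ^ ((0 : ℕ) : ℤ)) - 1)‖ = 0 := by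
      intro k
      rw [Nat.cast_zero, zpow_zero, op_one, sub_self, mul_zero, norm_zero]
    simp only [this]
    exact tendsto_const_nhds
  | succ N ih =>
    have h1 := ih.add h
    rw [add_zero] at h1
    refine squeeze_zero (fun k => norm_nonneg _) (fun k => ?_) h1
    have e1 : (op (T ^ (n k)) - 1) * (op (T ^ ((N + 1 : ℕ) : ℤ)) - 1) =
        ((op (T ^ (n k)) - 1) * (op (T ^ (N : ℤ)) - 1)) * op T +
          (op (T ^ (n k)) - 1) * (op T - 1) := by
      have e2 : op (T ^ ((N + 1 : ℕ) : ℤ)) = op (T ^ (N : ℤ)) * op T := by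
        rw [← op_mul, Nat.cast_succ, zpow_add_one]
      rw [e2, mul_assoc, ← mul_add]
      congr 1
      rw [sub_mul, one_mul]
      abel
    rw [e1]
    refine (norm_add_le _ _).trans (add_le_add ?_ le_rfl)
    have := nm2 (le_refl ‖(op (T ^ (n k)) - 1) * (op (T ^ (N : ℤ)) - 1)‖) (op_norm_le T)
    rwa [mul_one] at this

lemma DN_int {ι : Type*} {l : Filter ι} {T : X ≃ₗᵢ[ℝ] X} {n : ι → ℤ}
    (h : Tendsto (fun k => ‖(op (T ^ (n k)) - 1) * (op T - 1)‖) l (𝓝 0)) (N : ℤ) :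
    Tendsto (fun k => ‖(op (T ^ (n k)) - 1) * (op (T ^ N) - 1)‖) l (𝓝 0) := by
  obtain ⟨m, rfl | rfl⟩ := N.eq_nat_or_neg
  · exact DN_nat h m
  · refine squeeze_zero (fun k => norm_nonneg _) (fun k => ?_) (DN_nat h m)
    have e1 : op (T ^ (-(m : ℤ))) - 1 = -((op (T ^ (m : ℤ)) - 1) * op (T ^ (-(m : ℤ)))) := by
      rw [sub_mul, ← op_mul, ← zpow_add, add_neg_cancel, zpow_zero, op_one, one_mul]
      abel
    rw [e1, mul_neg, norm_neg, ← mul_assoc]
    have := nm2 (le_refl ‖(op (T ^ (n k)) - 1) * (op (T ^ (m : ℤ)) - 1)‖)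
      (op_norm_le (T ^ (-(m : ℤ))))
    rwa [mul_one] at this

/-- weak recurrence -/
theorem rec2 {ι : Type*} (U : Ultrafilter ι) {T : X ≃ₗᵢ[ℝ] X} {n : ι → ℤ}
    (h : Tendsto (fun k => ‖(op (T ^ (n k)) - 1) * (op T - 1)‖) U (𝓝 0)) {K : X →L[ℝ] X}
    (hK : CO K) (z : X) : Tendsto (fun k => (K * (op (T ^ (n k)) - 1)) z) U (𝓝 0) := by
  -- the limit
  have hc : IsCompact (closure ((K : X →ₗ[ℝ] X) '' closedBall 0 (2 * ‖z‖))) :=
    IsCompactOperator.isCompact_closure_image_closedBall (f := (K : X →ₗ[ℝ] X)) hK _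
  have hmem : ∀ k, (K * (op (T ^ (n k)) - 1)) z ∈
      closure ((K : X →ₗ[ℝ] X) '' closedBall 0 (2 * ‖z‖)) := fun k =>
    subset_closure ⟨(op (T ^ (n k)) - 1) z, by
      rw [mem_closedBall_zero_iff]
      exact (op (T ^ (n k)) - 1).le_of_opNorm_le (op_sub_one_le _) z, rfl⟩
  obtain ⟨v, -, hv⟩ := hc.ultrafilter_le_nhds (U.map fun k => (K * (op (T ^ (n k)) - 1)) z) (by
    rw [Ultrafilter.coe_map, le_principal_iff]
    exact Filter.mem_map.2 (Filter.univ_mem' hmem))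
  have hv' : Tendsto (fun k => (K * (op (T ^ (n k)) - 1)) z) U (𝓝 v) := hv
  -- long sums
  have hsum : ∀ r : ℕ, ∀ ε : ℝ, 0 < ε → ∃ N : ℤ, ‖(K * (op (T ^ N) - 1)) z - (r : ℝ) • v‖ ≤ ε := by
    intro r
    induction r with
    | zero =>
      intro ε hε
      refine ⟨0, ?_⟩
      rw [zpow_zero, op_one, sub_self, mul_zero, Nat.cast_zero, zero_smul, sub_zero]
      show ‖(0 : X)‖ ≤ ε
      rw [norm_zero]
      exact hε.le
    | succ r ih =>
      intro ε hε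
      obtain ⟨N, hN⟩ := ih (ε / 3) (by positivity)
      have h1 : ∀ᶠ k in (U : Filter ι), ‖(K * (op (T ^ (n k)) - 1)) z - v‖ < ε / 3 := by
        have := (hv'.sub_const v).norm
        rw [sub_self, norm_zero] at this
        exact this.eventually (gt_mem_nhds (by positivity))
      have h2 : ∀ᶠ k in (U : Filter ι),
          ‖K‖ * ‖(op (T ^ (n k)) - 1) * (op (T ^ N) - 1)‖ * ‖z‖ < ε / 3 := by
        have := ((DN_int h N).const_mul ‖K‖).mul_const ‖z‖
        rw [mul_zero, zero_mul] at this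
        exact this.eventually (gt_mem_nhds (by positivity))
      obtain ⟨k, hk1, hk2⟩ := (h1.and h2).exists
      refine ⟨n k + N, ?_⟩
      have e1 : op (T ^ (n k + N)) - 1 = (op (T ^ (n k)) - 1) * (op (T ^ N) - 1) +
          (op (T ^ (n k)) - 1) + (op (T ^ N) - 1) := by
        rw [zpow_add, op_mul, mul_sub, sub_mul]
        simp only [mul_one, one_mul]
        abel
      have e2 : (K * (op (T ^ (n k + N)) - 1)) z - ((r + 1 : ℕ) : ℝ) • v =
          (K * ((op (T ^ (n k)) - 1) * (op (T ^ N) - 1))) z +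
          ((K * (op (T ^ (n k)) - 1)) z - v) + ((K * (op (T ^ N) - 1)) z - (r : ℝ) • v) := by
        have e3 : ∀ a b : X →L[ℝ] X, (a + b) z = a z + b z := fun _ _ => rfl
        rw [e1, mul_add, mul_add, Nat.cast_succ, add_smul, one_smul, e3, e3]
        abel
      rw [e2]
      refine (norm_add₃_le).trans ?_
      have h3 : ‖(K * ((op (T ^ (n k)) - 1) * (op (T ^ N) - 1))) z‖ ≤
          ‖K‖ * ‖(op (T ^ (n k)) - 1) * (op (T ^ N) - 1)‖ * ‖z‖ :=
        (K * ((op (T ^ (n k)) - 1) * (op (T ^ N) - 1))).le_of_opNorm_le (norm_mul_le _ _) z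
      linarith
  have hv0 : v = 0 := by
    by_contra hne
    have hpos : 0 < ‖v‖ := norm_pos_iff.2 hne
    obtain ⟨r, hr⟩ := exists_nat_gt ((‖K‖ * 2 * ‖z‖ + 1) / ‖v‖)
    rw [div_lt_iff₀ hpos] at hr
    obtain ⟨N, hN⟩ := hsum r 1 one_pos
    have h1 : ‖(K * (op (T ^ N) - 1)) z‖ ≤ ‖K‖ * 2 * ‖z‖ :=
      (K * (op (T ^ N) - 1)).le_of_opNorm_le (nm2 le_rfl (op_sub_one_le _)) z
    have h2 : ‖(r : ℝ) • v‖ ≤ ‖(K * (op (T ^ N) - 1)) z‖ +
        ‖(K * (op (T ^ N) - 1)) z - (r : ℝ) • v‖ := by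
      have := norm_sub_le ((K * (op (T ^ N) - 1)) z) ((K * (op (T ^ N) - 1)) z - (r : ℝ) • v)
      rwa [sub_sub_cancel] at this
    rw [norm_smul, Real.norm_natCast] at h2
    linarith
  rw [hv0] at hv'
  exact hv'

/-- weak recurrence, norm version -/
theorem rec3 {ι : Type*} (U : Ultrafilter ι) {T : X ≃ₗᵢ[ℝ] X} {n : ι → ℤ}
    (h : Tendsto (fun k => ‖(op (T ^ (n k)) - 1) * (op T - 1)‖) U (𝓝 0)) {K K' : X →L[ℝ] X}
    (hK : CO K) (hK' : CO K') :
    Tendsto (fun k => ‖K * ((op (T ^ (n k)) - 1) * K')‖) U (𝓝 0) := by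
  have h1 := unif_co (l := (U : Filter ι)) (A := fun k => K * (op (T ^ (n k)) - 1)) (M := ‖K‖ * 2)
    (fun k => nm2 le_rfl (op_sub_one_le _)) (rec2 U h hK) hK'
  simpa only [mul_assoc] using h1

/-- norm discreteness of the group of compact perturbations of the identity -/
def Dis (X : Type*) [NormedAddCommGroup X] [NormedSpace ℝ X] : Prop :=
  ∃ c : ℝ, 0 < c ∧ ∀ V : X ≃ₗᵢ[ℝ] X, CP V → ‖op V - 1‖ ≤ c → V = 1

/-- in the discrete case some power commutes with given compact perturbations -/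
theorem comm_pow (hd : Dis X) {B : X ≃ₗᵢ[ℝ] X} (hB : CP B) {s : Set (X ≃ₗᵢ[ℝ] X)} (hs : s.Finite)
    (hsc : ∀ T ∈ s, CP T) : ∃ n : ℕ, 1 ≤ n ∧ ∀ T ∈ s, Commute (B ^ n) T := by
  obtain ⟨c, hc, hdis⟩ := hd
  obtain ⟨η, hη, hcw⟩ := conj_weak (X := X) hc
  choose n hn1 hn2 using fun k : ℕ => rec1 hB (δ := 1 / ((k : ℝ) + 1)) (by positivity)
  have t0 : Tendsto (fun n : ℕ => 1 / ((n : ℝ) + 1)) (hyperfilter ℕ : Filter ℕ) (𝓝 0) :=
    tendsto_one_div_add_atTop_nhds_zero_nat.mono_left Nat.hyperfilter_le_atTop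
  have t1 : Tendsto (fun k => ‖(op (B ^ ((n k : ℕ) : ℤ)) - 1) * (op B - 1)‖)
      (hyperfilter ℕ : Filter ℕ) (𝓝 0) := by
    refine squeeze_zero (fun k => norm_nonneg _) (fun k => ?_) t0
    rw [zpow_natCast]
    exact hn2 k
  have t2 : Tendsto (fun k => ‖(op (B ^ (-((n k : ℕ) : ℤ))) - 1) * (op B - 1)‖)
      (hyperfilter ℕ : Filter ℕ) (𝓝 0) := by
    refine squeeze_zero (fun k => norm_nonneg _) (fun k => ?_) t0
    have e1 : op (B ^ (-((n k : ℕ) : ℤ))) - 1 =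
        -(op (B ^ (-((n k : ℕ) : ℤ))) * (op (B ^ (n k)) - 1)) := by
      rw [mul_sub, ← zpow_natCast, ← op_mul, ← zpow_add, neg_add_cancel, zpow_zero, op_one, mul_one]
      abel
    rw [e1, neg_mul, norm_neg, mul_assoc]
    have := nm2 (op_norm_le (B ^ (-((n k : ℕ) : ℤ)))) (hn2 k)
    rwa [one_mul] at this
  have hev : ∀ T ∈ s, ∀ᶠ k in (hyperfilter ℕ : Filter ℕ), Commute (B ^ (n k)) T := by
    intro T hT
    have a1 := (rec3 (hyperfilter ℕ) t1 (hsc T hT) (hsc T hT)).eventually (gt_mem_nhds hη)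
    have a2 := (rec3 (hyperfilter ℕ) t2 (hsc T hT) (hsc T hT)).eventually (gt_mem_nhds hη)
    filter_upwards [a1, a2] with k hk1 hk2
    have h1 := hcw (B ^ (n k)) T (by rw [← zpow_natCast]; exact hk1.le)
      (by
        have : (B ^ (n k))⁻¹ = B ^ (-((n k : ℕ) : ℤ)) := by rw [zpow_neg, zpow_natCast]
        rw [this]
        exact hk2.le)
    have h2 : B ^ (n k) * T * (B ^ (n k))⁻¹ * T⁻¹ = 1 := by
      refine hdis _ (((hsc T hT).conj _).mul (hsc T hT).inv) ?_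
      have e1 : op (B ^ (n k) * T * (B ^ (n k))⁻¹ * T⁻¹) - 1 =
          (op (B ^ (n k) * T * (B ^ (n k))⁻¹) - op T) * op T⁻¹ := by
        rw [sub_mul, op_op_inv, op_mul (B ^ (n k) * T * (B ^ (n k))⁻¹)]
      rw [e1]
      have := nm2 h1 (op_norm_le T⁻¹)
      rwa [mul_one] at this
    have h3 : B ^ (n k) * T * (B ^ (n k))⁻¹ = T := by rwa [mul_inv_eq_one] at h2
    show B ^ (n k) * T = T * B ^ (n k)
    rwa [mul_inv_eq_iff_eq_mul] at h3
  have hall := (Filter.eventually_all_finite hs).2 hev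
  obtain ⟨k, hk⟩ := hall.exists
  exact ⟨n k, hn1 k, hk⟩

end Pool.Agent.N315.BM
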