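import Pool.Agent.N315.BM.Main2

/-!
# Isometries which are strictly singular perturbations of the identity

If `V` is an isometry and `V - 1` is strictly singular, then `V - 1` is compact.
-/

set_option autoImplicit false

namespace Pool.Agent.N315.BM

open Pool.H590R3.Ab Pool.Agent.TH596.RO Pool.Agent.H984R3.AbPartiOf Filter Topology

variable {X : Type*} [NormedAddCommGroup X] [NormedSpace ℝ X]

/-- strict singularity of `V - 1` -/
def SS (V : X ≃ₗᵢ[ℝ] X) : Prop :=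
  ∀ Y : Submodule ℝ X, ¬ FiniteDimensional ℝ Y → ∀ ε : ℝ, 0 < ε → ∃ y ∈ Y, ‖y‖ = 1 ∧ ‖V y - y‖ < ε

lemma FR.co {a : X →L[ℝ] X} (ha : FR a) : CO a := by
  haveI : FiniteDimensional ℝ (LinearMap.range (a : X →ₗ[ℝ] X)) := ha
  haveI : ProperSpace (LinearMap.range (a : X →ₗ[ℝ] X)) := FiniteDimensional.proper ℝ _
  let b : X →L[ℝ] (LinearMap.range (a : X →ₗ[ℝ] X)) :=
    a.codRestrict (LinearMap.range (a : X →ₗ[ℝ] X)) (fun x => ⟨x, rfl⟩)
  have h1 : IsCompactOperator (b : X → LinearMap.range (a : X →ₗ[ℝ] X)) :=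
    isCompactOperator_of_locallyCompactSpace_dom b
  exact h1.clm_comp (LinearMap.range (a : X →ₗ[ℝ] X)).subtypeL

lemma one_sub_pow_le (V : X ≃ₗᵢ[ℝ] X) (n : ℕ) (y : X) : ‖y - (V ^ n) y‖ ≤ n * ‖V y - y‖ := by
  induction n with
  | zero =>
    rw [pow_zero, Nat.cast_zero, zero_mul]
    show ‖y - y‖ ≤ 0
    rw [sub_self, norm_zero]
  | succ n ih =>
    have e1 : y - (V ^ (n + 1)) y = (y - (V ^ n) y) + (V ^ n) (y - V y) := by
      have : (V ^ (n + 1)) y = (V ^ n) (V y) := by rw [pow_succ]; rfl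
      rw [this, map_sub]
      abel
    rw [e1]
    refine (norm_add_le _ _).trans ?_
    rw [(V ^ n).norm_map, norm_sub_rev y (V y), Nat.cast_succ]
    linarith

lemma one_sub_zpow_le (V : X ≃ₗᵢ[ℝ] X) (k : ℤ) (y : X) :
    ‖(1 - op (V ^ k)) y‖ ≤ |(k : ℝ)| * ‖V y - y‖ := by
  show ‖y - (V ^ k) y‖ ≤ _
  obtain ⟨n, rfl | rfl⟩ := k.eq_nat_or_neg
  · rw [zpow_natCast, Int.cast_natCast, abs_of_nonneg (Nat.cast_nonneg n)]
    exact one_sub_pow_le V n y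
  · have h1 : ‖y - (V ^ (-(n : ℤ))) y‖ = ‖y - (V ^ n) y‖ := by
      have h2 : (V ^ n) ((V ^ (-(n : ℤ))) y) = y := by
        have : (V ^ n) * (V ^ (-(n : ℤ))) = 1 := by
          rw [← zpow_natCast, ← zpow_add, add_neg_cancel, zpow_zero]
        exact congrArg (fun T : X ≃ₗᵢ[ℝ] X => T y) this
      rw [← (V ^ n).norm_map (y - (V ^ (-(n : ℤ))) y), map_sub, h2, norm_sub_rev]
    rw [h1, Int.cast_neg, abs_neg, Int.cast_natCast, abs_of_nonneg (Nat.cast_nonneg n)]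
    exact one_sub_pow_le V n y

section
variable [CompleteSpace X]

lemma QQ_hasSum (V : X ≃ₗᵢ[ℝ] X) {δ : ℝ} (hδ : 0 < δ) (hδ1 : δ ≤ 1) :
    HasSum (fun k : ℤ => ca (Fd δ) k • (1 - op (V ^ k))) (QQ V δ) := by
  have a1 : HasSum (fun k : ℤ => ca (Fd δ) k • (1 : X →L[ℝ] X)) 1 := by
    have := (Fd_sum hδ hδ1).smul_const (1 : X →L[ℝ] X)
    rwa [one_smul] at this
  have a2 : HasSum (fun k : ℤ => ca (Fd δ) k • op (V ^ k)) (Fop V (ca (Fd δ))) :=
    (summable_term V (Fd_summable hδ hδ1)).hasSum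
  have e1 : QQ V δ = 1 - Fop V (ca (Fd δ)) := Fop_compl V hδ hδ1
  rw [e1]
  refine (a1.sub a2).congr_fun (fun k => ?_)
  rw [smul_sub]

/-- `V - 1` is bounded below on the spectral subspaces away from `1` -/
lemma below (V : X ≃ₗᵢ[ℝ] X) {δ : ℝ} (hδ : 0 < δ) (hδ1 : δ ≤ 1) :
    ∃ C : ℝ, 0 < C ∧ ∀ x : X, ‖QQ V δ x‖ ≤ C * ‖V (QQ V δ x) - QQ V δ x‖ := by
  have h0 : 0 < δ / 2 := by positivity
  have h1 : δ / 2 ≤ 1 := by linarith
  have hs := QQ_hasSum V h0 h1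
  have h2 : ∀ᶠ s : Finset ℤ in atTop,
      ‖∑ k ∈ s, ca (Fd (δ / 2)) k • (1 - op (V ^ k)) - QQ V (δ / 2)‖ < 1 / 2 := by
    have := (hs.sub_const (QQ V (δ / 2))).norm
    rw [sub_self, norm_zero] at this
    exact this.eventually (gt_mem_nhds (by norm_num))
  obtain ⟨s, hs'⟩ := h2.exists
  refine ⟨2 * (∑ k ∈ s, |ca (Fd (δ / 2)) k| * |(k : ℝ)|) + 1, by positivity, fun x => ?_⟩
  set y := QQ V δ x with hy
  have hfix : QQ V (δ / 2) y = y := by
    have h3 := DFunLike.congr_fun (PP_QQ V h0 le_rfl hδ1) x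
    have h4 : PP V (δ / 2) y = 0 := h3
    rw [PP_eq V h0 h1]
    show y - PP V (δ / 2) y = y
    rw [h4, sub_zero]
  have h5 : y = (∑ k ∈ s, ca (Fd (δ / 2)) k • (1 - op (V ^ k))) y -
      (∑ k ∈ s, ca (Fd (δ / 2)) k • (1 - op (V ^ k)) - QQ V (δ / 2)) y := by
    have : (∑ k ∈ s, ca (Fd (δ / 2)) k • (1 - op (V ^ k)) - QQ V (δ / 2)) y =
        (∑ k ∈ s, ca (Fd (δ / 2)) k • (1 - op (V ^ k))) y - QQ V (δ / 2) y := rfl
    rw [this, hfix]
    abel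
  have h6 : ‖(∑ k ∈ s, ca (Fd (δ / 2)) k • (1 - op (V ^ k)) - QQ V (δ / 2)) y‖ ≤ 1 / 2 * ‖y‖ :=
    ContinuousLinearMap.le_of_opNorm_le _ hs'.le y
  have h7 : ‖(∑ k ∈ s, ca (Fd (δ / 2)) k • (1 - op (V ^ k))) y‖ ≤
      (∑ k ∈ s, |ca (Fd (δ / 2)) k| * |(k : ℝ)|) * ‖V y - y‖ := by
    have e1 : (∑ k ∈ s, ca (Fd (δ / 2)) k • (1 - op (V ^ k))) y =
        ∑ k ∈ s, ca (Fd (δ / 2)) k • ((1 - op (V ^ k)) y) := by
      rw [ContinuousLinearMap.sum_apply]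
      rfl
    rw [e1, Finset.sum_mul]
    refine (norm_sum_le _ _).trans (Finset.sum_le_sum fun k _ => ?_)
    rw [norm_smul, Real.norm_eq_abs, mul_assoc]
    exact mul_le_mul_of_nonneg_left (one_sub_zpow_le V k y) (abs_nonneg _)
  have h8 : ‖y‖ ≤ ‖(∑ k ∈ s, ca (Fd (δ / 2)) k • (1 - op (V ^ k))) y‖ +
      ‖(∑ k ∈ s, ca (Fd (δ / 2)) k • (1 - op (V ^ k)) - QQ V (δ / 2)) y‖ := by
    conv_lhs => rw [h5]
    exact norm_sub_le _ _
  have h9 := norm_nonneg (V y - y)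
  nlinarith

/-- strictly singular: spectral projections have finite rank -/
lemma SS.fr {V : X ≃ₗᵢ[ℝ] X} (h : SS V) {δ : ℝ} (hδ : 0 < δ) (hδ1 : δ ≤ 1) : FR (QQ V δ) := by
  by_contra hcon
  obtain ⟨C, hC, hb⟩ := below V hδ hδ1
  obtain ⟨_, ⟨x, rfl⟩, hy1, hy2⟩ := h _ hcon (C⁻¹) (by positivity)
  have h1 := hb x
  have h2 : ‖QQ V δ x‖ = 1 := hy1
  have h3 : ‖V (QQ V δ x) - QQ V δ x‖ < C⁻¹ := hy2
  rw [h2] at h1
  have h4 : C * ‖V (QQ V δ x) - QQ V δ x‖ < C * C⁻¹ := by gcongr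
  rw [mul_inv_cancel₀ hC.ne'] at h4
  linarith

/-- `(V - 1) ^ 2` compact implies `V - 1` compact -/
lemma co_of_sq {V : X ≃ₗᵢ[ℝ] X} (h : CO ((op V - 1) * (op V - 1))) : CP V := by
  -- the compact approximations
  have hex : ∀ n : ℕ, ∃ a : X →L[ℝ] X, CO a ∧ (op (V ^ n) - 1) = (n : ℝ) • (op V - 1) + a := by
    intro n
    induction n with
    | zero =>
      refine ⟨0, CO.zero, ?_⟩
      rw [pow_zero, op_one, sub_self, Nat.cast_zero, zero_smul, add_zero]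
    | succ n ih =>
      obtain ⟨a, ha, hn⟩ := ih
      refine ⟨(n : ℝ) • ((op V - 1) * (op V - 1)) + a * op V, (h.smul _).add (ha.mul_right _), ?_⟩
      have e1 : op (V ^ (n + 1)) - 1 = (op (V ^ n) - 1) * op V + (op V - 1) := by
        rw [pow_succ, op_mul, sub_mul, one_mul]
        abel
      have e2 : (op V - 1) * op V = (op V - 1) + (op V - 1) * (op V - 1) := by
        rw [mul_sub (op V - 1), mul_one]
        abel
      rw [e1, hn, add_mul, smul_mul_assoc, Nat.cast_succ, add_smul, one_smul, e2, smul_add]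
      abel
  choose a ha hn using hex
  have hlim : Tendsto (fun n : ℕ => -(((n : ℝ) + 1)⁻¹ • a (n + 1))) atTop (𝓝 (op V - 1)) := by
    rw [tendsto_iff_norm_sub_tendsto_zero]
    have t0 : Tendsto (fun n : ℕ => 2 * (1 / ((n : ℝ) + 1))) atTop (𝓝 0) := by
      have := (tendsto_one_div_add_atTop_nhds_zero_nat (𝕜 := ℝ)).const_mul 2
      rwa [mul_zero] at this
    refine squeeze_zero (fun n => norm_nonneg _) (fun n => ?_) t0
    have hn0 : (n : ℝ) + 1 ≠ 0 := by positivity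
    have e1 : -(((n : ℝ) + 1)⁻¹ • a (n + 1)) - (op V - 1) =
        -(((n : ℝ) + 1)⁻¹ • (op (V ^ (n + 1)) - 1)) := by
      rw [hn (n + 1), smul_add, smul_smul, Nat.cast_succ, inv_mul_cancel₀ hn0, one_smul]
      abel
    rw [e1, norm_neg, norm_smul, norm_inv, Real.norm_of_nonneg (by positivity : (0:ℝ) ≤ n + 1),
      mul_comm 2, one_div]
    exact mul_le_mul_of_nonneg_left (op_sub_one_le _) (by positivity)
  refine co_closed.mem_of_tendsto hlim (Eventually.of_forall fun n => ?_)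
  exact ((ha (n + 1)).smul _).neg

/-- strictly singular perturbations of the identity are compact -/
theorem SS.cp {V : X ≃ₗᵢ[ℝ] X} (h : SS V) : CP V := by
  have hCo : CO (Co V - (1 : ℝ) • (1 : X →L[ℝ] X)) := by
    have hlim : ∀ ε : ℝ, 0 < ε → ∃ a : X →L[ℝ] X, CO a ∧
        ‖(Co V - (1 : ℝ) • (1 : X →L[ℝ] X)) - a‖ ≤ ε := by
      intro ε hε
      obtain ⟨δ0, hδ0, hF⟩ := Fd_small hε
      have h1 : min (δ0 / 2) 1 ≤ δ0 / 2 := min_le_left _ _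
      have h2 : min (δ0 / 2) 1 ≤ 1 := min_le_right _ _
      have h3 : 0 < min (δ0 / 2) 1 := lt_min (by positivity) one_pos
      set δ := min (δ0 / 2) 1 with hδ
      obtain ⟨hs, hle⟩ := hF δ h3 (by linarith) h2
      refine ⟨(Co V - (1 : ℝ) • (1 : X →L[ℝ] X)) * QQ V δ, ((h.fr h3 h2).mul_left _).co, ?_⟩
      have e1 : (Co V - (1 : ℝ) • (1 : X →L[ℝ] X)) -
          (Co V - (1 : ℝ) • (1 : X →L[ℝ] X)) * QQ V δ =
          (Co V - (1 : ℝ) • (1 : X →L[ℝ] X)) * PP V δ := by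
        rw [PP_eq V h3 h2, mul_sub, mul_one]
        abel
      rw [e1]
      have e2 : (Co V - (1 : ℝ) • (1 : X →L[ℝ] X)) * PP V δ =
          Fop V (fun k => (ca (Fd δ) (k - 1) + ca (Fd δ) (k + 1)) / 2 - 1 * ca (Fd δ) k) :=
        Co_mul_Fop V (Fd_summable h3 h2) 1
      rw [e2]
      exact (Fop_norm_le V hs).trans hle
    choose a ha hn using fun n : ℕ => hlim (1 / ((n : ℝ) + 1)) (by positivity)
    have hlim2 : Tendsto a atTop (𝓝 (Co V - (1 : ℝ) • (1 : X →L[ℝ] X))) := ?_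
    · exact co_closed.mem_of_tendsto hlim2 (Eventually.of_forall ha)
    rw [tendsto_iff_norm_sub_tendsto_zero]
    refine squeeze_zero (fun n => norm_nonneg _) (fun n => ?_)
      (tendsto_one_div_add_atTop_nhds_zero_nat (𝕜 := ℝ))
    rw [norm_sub_rev]
    exact hn n
  refine co_of_sq ?_
  have e1 : (op V - 1) * (op V - 1) =
      (2 : ℝ) • (op V * (Co V - (1 : ℝ) • (1 : X →L[ℝ] X))) := by
    unfold Co
    rw [one_smul, mul_sub (op V), mul_one, mul_smul_comm, mul_add (op V), op_op_inv, smul_sub,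
      smul_smul]
    norm_num
    rw [mul_sub, sub_mul, two_smul]
    simp only [mul_one, one_mul]
    abel
  rw [e1]
  exact (hCo.mul_left _).smul _

end

/-- two isometries whose difference is strictly singular -/
theorem ss_main {E : Type} [NormedAddCommGroup E] [NormedSpace ℝ E] [CompleteSpace E]
    (hE : ¬ FiniteDimensional ℝ E) (hor : ∀ x y : E, ‖x‖ = 1 → ‖y‖ = 1 → ∀ ε : ℝ, 0 < ε →
      ∃ T : E ≃ₗᵢ[ℝ] E, ‖T x - y‖ < ε) {S T : E ≃ₗᵢ[ℝ] E} (hne : S ≠ T)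
    (hss : ∀ Y : Submodule ℝ E, ¬ FiniteDimensional ℝ Y → ∀ ε : ℝ, 0 < ε →
      ∃ y ∈ Y, ‖y‖ = 1 ∧ ‖S y - T y‖ < ε) (u v : E) :
    ‖u + v‖ * ‖u + v‖ + ‖u - v‖ * ‖u - v‖ = 2 * (‖u‖ * ‖u‖ + ‖v‖ * ‖v‖) := by
  have hV : SS (T⁻¹ * S) := by
    intro Y hY ε hε
    obtain ⟨y, hy, hy1, hy2⟩ := hss Y hY ε hε
    refine ⟨y, hy, hy1, ?_⟩
    have e1 : (T⁻¹ * S) y - y = T⁻¹ (S y - T y) := by
      rw [map_sub]
      have : T⁻¹ (T y) = y := T.symm_apply_apply y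
      rw [this]
      rfl
    rw [e1, (T⁻¹).norm_map]
    exact hy2
  refine compact_main hE hor hV.cp ?_ u v
  intro h
  apply hne
  have h1 : T⁻¹ * S = 1 := op_ext (by rw [h, op_one])
  exact (inv_mul_eq_one.1 h1).symm

end Pool.Agent.N315.BM
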