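import Pool.Agent.N315.BM.Cpt

/-!
# Conjugation is continuous from the weak operator topology to the norm on compact perturbations of 1

If `K (U - 1) K` and `K (U⁻¹ - 1) K` are small, where `K = T - 1`, then `W = U T U⁻¹ T⁻¹` satisfies
`(W - 1) ^ 3 → 0`, hence `W → 1` in norm.
-/

set_option autoImplicit false

namespace Pool.Agent.N315.BM

open Pool.H590R3.Ab Pool.Agent.TH596.RO Metric Set Filter Topology

variable {X : Type*} [NormedAddCommGroup X] [NormedSpace ℝ X]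

lemma op_sub_one_le (W : X ≃ₗᵢ[ℝ] X) : ‖op W - 1‖ ≤ 2 := by
  refine (norm_sub_le _ _).trans ?_
  have h2 := op_norm_le W
  have h3 : ‖(1 : X →L[ℝ] X)‖ ≤ 1 := ContinuousLinearMap.norm_id_le
  linarith

lemma op_add_one_le (W : X ≃ₗᵢ[ℝ] X) : ‖op W + 1‖ ≤ 2 := by
  refine (norm_add_le _ _).trans ?_
  have h2 := op_norm_le W
  have h3 : ‖(1 : X →L[ℝ] X)‖ ≤ 1 := ContinuousLinearMap.norm_id_le
  linarith

lemma nm2 {a b : X →L[ℝ] X} {s t : ℝ} (ha : ‖a‖ ≤ s) (hb : ‖b‖ ≤ t) : ‖a * b‖ ≤ s * t :=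
  (norm_mul_le _ _).trans (mul_le_mul ha hb (norm_nonneg _) ((norm_nonneg _).trans ha))

/-- the power trick -/
lemma unipM (n : ℕ) : ∃ C : ℝ, 0 ≤ C ∧ ∀ (W : X ≃ₗᵢ[ℝ] X) (M : X →L[ℝ] X),
    2 ^ n * ‖(op W - 1) * M‖ ≤ 2 * ‖M‖ + C * ‖(op W - 1) * ((op W - 1) * M)‖ := by
  induction n with
  | zero =>
    refine ⟨0, le_rfl, fun W M => ?_⟩
    rw [pow_zero, one_mul, zero_mul, add_zero]
    exact nm2 (op_sub_one_le W) le_rfl
  | succ n ih =>
    obtain ⟨C, hC, h⟩ := ih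
    refine ⟨4 * C + 2 ^ n, by positivity, fun W M => ?_⟩
    have h1 := h (W * W) M
    have e0 : op (W * W) - 1 = (op W + 1) * (op W - 1) := by
      rw [op_mul, add_mul, mul_sub, one_mul, mul_one]; abel
    have hcomm : (op W - 1) * (op W + 1) = (op W + 1) * (op W - 1) := by
      rw [sub_mul, mul_add, add_mul, mul_sub]
      simp only [mul_one, one_mul]
      abel
    have e1 : (op (W * W) - 1) * ((op (W * W) - 1) * M) =
        (op W + 1) * ((op W + 1) * ((op W - 1) * ((op W - 1) * M))) := by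
      rw [e0]
      calc (op W + 1) * (op W - 1) * ((op W + 1) * (op W - 1) * M)
          = (op W + 1) * (((op W - 1) * (op W + 1)) * ((op W - 1) * M)) := by
            simp only [mul_assoc]
        _ = _ := by rw [hcomm]; simp only [mul_assoc]
    have h4 : ‖(op (W * W) - 1) * ((op (W * W) - 1) * M)‖ ≤
        4 * ‖(op W - 1) * ((op W - 1) * M)‖ := by
      rw [e1]
      refine (nm2 (op_add_one_le W) (nm2 (op_add_one_le W) le_rfl)).trans ?_
      apply le_of_eq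
      ring
    have h5 : 2 * ‖(op W - 1) * M‖ ≤ ‖(op (W * W) - 1) * M‖ + ‖(op W - 1) * ((op W - 1) * M)‖ := by
      have e3 : (2 : ℝ) • ((op W - 1) * M) =
          (op (W * W) - 1) * M - (op W - 1) * ((op W - 1) * M) := by
        rw [op_mul, two_smul]
        simp only [sub_mul, mul_sub, mul_one, one_mul, mul_assoc]
        abel
      have e4 : 2 * ‖(op W - 1) * M‖ = ‖(2 : ℝ) • ((op W - 1) * M)‖ := by
        rw [norm_smul]; norm_num
      rw [e4, e3]
      exact norm_sub_le _ _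
    have h6 : (2 : ℝ) ^ n * (2 * ‖(op W - 1) * M‖) ≤
        2 ^ n * (‖(op (W * W) - 1) * M‖ + ‖(op W - 1) * ((op W - 1) * M)‖) := by gcongr
    have h7 : C * ‖(op (W * W) - 1) * ((op (W * W) - 1) * M)‖ ≤
        C * (4 * ‖(op W - 1) * ((op W - 1) * M)‖) := by gcongr
    calc (2 : ℝ) ^ (n + 1) * ‖(op W - 1) * M‖ = 2 ^ n * (2 * ‖(op W - 1) * M‖) := by ring
      _ ≤ 2 ^ n * ‖(op (W * W) - 1) * M‖ + 2 ^ n * ‖(op W - 1) * ((op W - 1) * M)‖ := by
          rw [← mul_add]; exact h6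
      _ ≤ 2 * ‖M‖ + (4 * C + 2 ^ n) * ‖(op W - 1) * ((op W - 1) * M)‖ := by
          rw [add_mul]
          linarith

lemma unip3_near {ε : ℝ} (hε : 0 < ε) : ∃ δ : ℝ, 0 < δ ∧ ∀ W : X ≃ₗᵢ[ℝ] X,
    ‖(op W - 1) * ((op W - 1) * (op W - 1))‖ ≤ δ → ‖op W - 1‖ ≤ ε := by
  obtain ⟨δ1, hδ1, h1⟩ := unip_near' (X := X) hε
  obtain ⟨n, hn⟩ := pow_unbounded_of_one_lt (5 / δ1) (one_lt_two : (1 : ℝ) < 2)
  obtain ⟨C, hC, h⟩ := unipM (X := X) n
  refine ⟨1 / (C + 1), by positivity, fun W hW => h1 W ?_⟩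
  have h2 := h W (op W - 1)
  have h3 : C * ‖(op W - 1) * ((op W - 1) * (op W - 1))‖ ≤ 1 := by
    calc C * ‖(op W - 1) * ((op W - 1) * (op W - 1))‖ ≤ C * (1 / (C + 1)) := by gcongr
      _ ≤ 1 := by
        rw [mul_one_div, div_le_one (by positivity)]
        linarith
  have h4 := op_sub_one_le W
  have h5 : (2 : ℝ) ^ n * ‖(op W - 1) * (op W - 1)‖ ≤ 5 := by linarith
  rw [div_lt_iff₀ hδ1] at hn
  by_contra hcon
  push Not at hcon
  have : (2 : ℝ) ^ n * δ1 < 2 ^ n * ‖(op W - 1) * (op W - 1)‖ := by gcongr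
  linarith

/-- the norm estimate behind `conj_weak` -/
lemma alg_core {K A A' t u' : X →L[ℝ] X} {η : ℝ} (tK : t * K = 1 - t)
    (Kt : K * t = 1 - t) (uA : u' * A = -A') (AA : A' * A = -A' - A) (nK : ‖K‖ ≤ 2)
    (nA : ‖A‖ ≤ 2) (nA' : ‖A'‖ ≤ 2) (nt : ‖t‖ ≤ 1) (nu : ‖u'‖ ≤ 1)
    (h1 : ‖K * (A * K)‖ ≤ η) (h2 : ‖K * (A' * K)‖ ≤ η) {N : X →L[ℝ] X}
    (hN : N = A * (K * (u' * t)) + K * (A' * t)) (nN : ‖N‖ ≤ 2) :
    ‖N * (N * N)‖ ≤ 76 * η := by
  have nut : ‖u' * t‖ ≤ 1 := by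
    have := nm2 nu nt
    rwa [one_mul] at this
  have tAK : t * (A * K) = A * K - t * (K * (A * K)) := by
    have : t * (K * (A * K)) = (t * K) * (A * K) := by rw [mul_assoc]
    rw [this, tK, sub_mul, one_mul]; abel
  obtain ⟨R1, hR1⟩ : ∃ R1, R1 = A * (K * (u' * t)) := ⟨_, rfl⟩
  obtain ⟨R2, hR2⟩ : ∃ R2, R2 = K * (A' * t) := ⟨_, rfl⟩
  have eN : N = R1 + R2 := by rw [hN, hR1, hR2]
  -- the products
  have p11 : ‖R1 * R1‖ ≤ 6 * η := by
    have e1 : R1 * R1 = A * ((-(K * (A' * K)) - K * (u' * (t * (K * (A * K))))) * (u' * t)) := by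
      have e2 : K * (u' * (t * (A * K))) = -(K * (A' * K)) - K * (u' * (t * (K * (A * K)))) := by
        rw [tAK, mul_sub u', mul_sub K]
        congr 1
        rw [← mul_assoc u', uA, neg_mul, mul_neg]
      rw [← e2, hR1]
      simp only [mul_assoc]
    rw [e1]
    have n1 : ‖-(K * (A' * K)) - K * (u' * (t * (K * (A * K))))‖ ≤ 3 * η := by
      refine (norm_sub_le _ _).trans ?_
      rw [norm_neg]
      have := nm2 nK (nm2 nu (nm2 nt h1))
      linarith
    refine (nm2 nA (nm2 n1 nut)).trans ?_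
    apply le_of_eq
    ring
  have p21 : ‖R2 * R1‖ ≤ 6 * η := by
    have e1 : R2 * R1 = (-(K * (A' * K)) - K * (A * K) - K * (A' * (t * (K * (A * K))))) *
        (u' * t) := by
      have e2 : K * (A' * (t * (A * K))) = -(K * (A' * K)) - K * (A * K) -
          K * (A' * (t * (K * (A * K)))) := by
        rw [tAK, mul_sub A', mul_sub K]
        congr 1
        rw [← mul_assoc A', AA, sub_mul, neg_mul, mul_sub K, mul_neg]
      rw [← e2, hR1, hR2]
      simp only [mul_assoc]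
    rw [e1]
    have n1 : ‖-(K * (A' * K)) - K * (A * K) - K * (A' * (t * (K * (A * K))))‖ ≤ 6 * η := by
      refine (norm_sub_le _ _).trans ?_
      have n2 := norm_sub_le (-(K * (A' * K))) (K * (A * K))
      rw [norm_neg] at n2
      have := nm2 nK (nm2 nA' (nm2 nt h1))
      linarith
    refine (nm2 n1 nut).trans ?_
    apply le_of_eq
    ring
  have p22 : ‖R2 * R2‖ ≤ 2 * η := by
    have e1 : R2 * R2 = (K * (A' * K)) * (t * (A' * t)) := by
      have e2 : t * K = K * t := by rw [tK, Kt]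
      rw [hR2]
      calc K * (A' * t) * (K * (A' * t)) = K * (A' * ((t * K) * (A' * t))) := by
            simp only [mul_assoc]
        _ = _ := by rw [e2]; simp only [mul_assoc]
    rw [e1]
    refine (nm2 h2 (nm2 nt (nm2 nA' nt))).trans ?_
    apply le_of_eq
    ring
  have n2 : ‖R2‖ ≤ 4 := by
    rw [hR2]
    refine (nm2 nK (nm2 nA' nt)).trans ?_
    norm_num
  have e1 : N * (N * N) =
      N * (R1 * R1) + (R1 * R1) * R2 + (R2 * R1) * R2 + N * (R2 * R1) + N * (R2 * R2) := by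
    rw [eN]
    simp only [mul_add, add_mul, mul_assoc]
    abel
  rw [e1]
  have q1 := nm2 nN p11
  have q2 := nm2 p11 n2
  have q3 := nm2 p21 n2
  have q4 := nm2 nN p21
  have q5 := nm2 nN p22
  have r1 := norm_add_le (N * (R1 * R1) + (R1 * R1) * R2 + (R2 * R1) * R2 +
    N * (R2 * R1)) (N * (R2 * R2))
  have r2 := norm_add_le (N * (R1 * R1) + (R1 * R1) * R2 + (R2 * R1) * R2) (N * (R2 * R1))
  have r3 := norm_add_le (N * (R1 * R1) + (R1 * R1) * R2) ((R2 * R1) * R2)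
  have r4 := norm_add_le (N * (R1 * R1)) ((R1 * R1) * R2)
  linarith

/-- weak to norm continuity of the conjugation -/
theorem conj_weak {ε : ℝ} (hε : 0 < ε) : ∃ η : ℝ, 0 < η ∧ ∀ U T : X ≃ₗᵢ[ℝ] X,
    ‖(op T - 1) * ((op U - 1) * (op T - 1))‖ ≤ η →
    ‖(op T - 1) * ((op U⁻¹ - 1) * (op T - 1))‖ ≤ η →
    ‖op (U * T * U⁻¹) - op T‖ ≤ ε := by
  obtain ⟨δ, hδ, hd⟩ := unip3_near (X := X) hε
  refine ⟨δ / 76, by positivity, fun U T h1 h2 => ?_⟩
  have tK : op T⁻¹ * (op T - 1) = 1 - op T⁻¹ := by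
    rw [mul_sub, op_inv_op, mul_one]
  have Kt : (op T - 1) * op T⁻¹ = 1 - op T⁻¹ := by
    rw [sub_mul, op_op_inv, one_mul]
  have uA : op U⁻¹ * (op U - 1) = -(op U⁻¹ - 1) := by
    rw [mul_sub, op_inv_op, mul_one, neg_sub]
  have AA : (op U⁻¹ - 1) * (op U - 1) = -(op U⁻¹ - 1) - (op U - 1) := by
    rw [sub_mul, uA, one_mul]
  set W := U * T * U⁻¹ * T⁻¹ with hW
  have eW : op W - 1 = (op U - 1) * ((op T - 1) * (op U⁻¹ * op T⁻¹)) +
      (op T - 1) * ((op U⁻¹ - 1) * op T⁻¹) := by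
    have e2 : op W = op U * op T * op U⁻¹ * op T⁻¹ := by
      rw [hW, op_mul, op_mul, op_mul]
    have e5 : op U * (op U⁻¹ * op T⁻¹) = op T⁻¹ := by rw [← mul_assoc, op_op_inv, one_mul]
    have e6 : op T * op T⁻¹ = 1 := op_op_inv T
    rw [e2]
    simp only [sub_mul, mul_sub, one_mul]
    simp only [mul_assoc]
    rw [e5, e6]
    abel
  have key := alg_core tK Kt uA AA (op_sub_one_le T) (op_sub_one_le U) (op_sub_one_le U⁻¹)
    (op_norm_le _) (op_norm_le _) h1 h2 eW (op_sub_one_le W)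
  have h5 := hd W (key.trans (by apply le_of_eq; ring))
  have e3 : op (U * T * U⁻¹) - op T = (op W - 1) * op T := by
    rw [sub_mul, one_mul, hW, ← op_mul]
    congr 2
    group
  rw [e3]
  have := nm2 h5 (op_norm_le T)
  rwa [mul_one] at this

/-- pointwise convergence is uniform on relatively compact sets -/
lemma unif_co {ι : Type*} {l : Filter ι} {A : ι → X →L[ℝ] X} {M : ℝ} (hA : ∀ k, ‖A k‖ ≤ M)
    (h : ∀ z, Tendsto (fun k => A k z) l (𝓝 0)) {K : X →L[ℝ] X} (hK : CO K) :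
    Tendsto (fun k => ‖A k * K‖) l (𝓝 0) := by
  rw [Metric.tendsto_nhds]
  intro ε hε
  have hM : 0 ≤ |M| := abs_nonneg M
  have hM' : M ≤ |M| := le_abs_self M
  have hc : IsCompact (closure ((K : X →ₗ[ℝ] X) '' closedBall 0 1)) :=
    IsCompactOperator.isCompact_closure_image_closedBall (f := (K : X →ₗ[ℝ] X)) hK 1
  set r : ℝ := ε / (4 * (|M| + 1)) with hr
  have hr0 : 0 < r := by positivity
  obtain ⟨s, hs, hcov⟩ := hc.elim_finite_subcover_image
    (b := closure ((K : X →ₗ[ℝ] X) '' closedBall 0 1))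
    (c := fun z => ball z r) (fun _ _ => isOpen_ball)
    (fun z hz => mem_iUnion₂.2 ⟨z, hz, mem_ball_self hr0⟩)
  have hev : ∀ᶠ k in l, ∀ z ∈ hcov.1.toFinset, ‖A k z‖ < ε / 4 := by
    rw [Filter.eventually_all_finset]
    intro z _
    have := (h z).norm
    rw [norm_zero] at this
    exact this.eventually (gt_mem_nhds (by positivity))
  filter_upwards [hev] with k hk
  rw [dist_zero_right, norm_norm]
  refine lt_of_le_of_lt (b := ε / 2) ?_ (by linarith)
  refine ContinuousLinearMap.opNorm_le_of_unit_norm (by positivity) fun x hx => ?_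
  have h1 : K x ∈ closure ((K : X →ₗ[ℝ] X) '' closedBall 0 1) :=
    subset_closure ⟨x, by rw [mem_closedBall_zero_iff, hx], rfl⟩
  obtain ⟨z, hz, hzx⟩ := mem_iUnion₂.1 (hcov.2 h1)
  rw [mem_ball, dist_eq_norm] at hzx
  have h2 := hk z (hcov.1.mem_toFinset.2 hz)
  have h3 : (A k * K) x = A k (K x - z) + A k z := by
    rw [← map_add, sub_add_cancel]; rfl
  rw [h3]
  refine (norm_add_le _ _).trans ?_
  have h4 : ‖A k (K x - z)‖ ≤ ε / 4 := by
    calc ‖A k (K x - z)‖ ≤ M * ‖K x - z‖ := (A k).le_of_opNorm_le (hA k) _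
      _ ≤ (|M| + 1) * r := by
        have := norm_nonneg (K x - z)
        gcongr
        linarith
      _ = ε / 4 := by rw [hr]; field_simp
  linarith

end Pool.Agent.N315.BM
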